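import Pool.Agent.SUBB.Stmts
import Pool.Agent.Lib_helper89.FL.FinalDefs

/-!
# Self-avoiding walks are sub-ballistic: statements of the modules, second part

Pieces of `GST`, polygons, and the final theorem.
-/

set_option autoImplicit false

namespace Pool.Agent.SUBB

open Finset Filter Topology
open Pool.Agent.Lib27

/-- at the critical point the total weight of the blocks is at most one -/
def PSB_Stmt : Prop := ∀ (F : Frame) (N : ℕ), Gs (Blk F) (om F Lm 0 0) N ≤ 1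

/-- blocks with large displacement are rare -/
def RBK_Stmt : Prop := ∀ (F : Frame) (v v' : ℝ), v < v' →
  Thin (fun w => Cut F w = ∅ ∧ v * (w.length : ℝ) ≤ ((su F w + st F w : ℤ) : ℝ)) →
  Thin (fun w => Blk F w ∧ v' * (w.length : ℝ) ≤ (su F w : ℝ) + |(st F w : ℝ)|)

/-- the total weight of the words without cut times -/
def NCF_Stmt : Prop := ∀ (F : Frame) (v v₃ : ℝ), v < v₃ → 0 ≤ v₃ →
  Thin (fun w => Cut F w = ∅ ∧ v * (w.length : ℝ) ≤ ((su F w + st F w : ℤ) : ℝ)) →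
  ∃ l₀ : ℝ, 0 < l₀ ∧ ∀ l : ℝ, 0 < l → l ≤ l₀ →
    ∃ B : ℝ, ∀ N : ℕ, Gs (fun w => Cut F w = ∅) (om F (Lm + l * v₃) l l) N ≤ B

/-- exponential moments of the displacement of the blocks -/
def BKU_Stmt : Prop := ∀ (F : Frame) (v₁ v₂ : ℝ), v₁ < v₂ →
  (∀ v, v₁ < v → Thin (fun w => v * (w.length : ℝ) ≤ (su F w : ℝ))) →
  ∃ l₀ η : ℝ, 0 < l₀ ∧ 0 < η ∧ ∀ l : ℝ, 0 < l → l ≤ l₀ → ∀ N : ℕ,
    Gs (Blk F) (om F (Lm + l * v₂) l 0) N ≤ Real.exp (-(l * η))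

open Classical in
/-- the long rare blocks -/
def LRB_Stmt : Prop := ∀ (P : Wo → Prop) (τ : ℝ), 0 < τ → Thin P →
  ∃ l₀ c K : ℝ, 0 < l₀ ∧ 0 < c ∧ 0 ≤ K ∧ ∀ l : ℝ, 0 < l → l ≤ l₀ → ∀ N : ℕ,
    Gs (fun w => P w ∧ τ < l * (w.length : ℝ))
      (fun w => Real.exp (-(Lm * (w.length : ℝ)) + 2 * l * (w.length : ℝ))) N ≤
      K * Real.exp (-(c / l))

/-- one-variable inequality -/
def LIM_Stmt : Prop := ∀ θ η c K : ℝ, 0 < θ → θ < 1 → 0 < η → 0 < c → 0 ≤ K →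
  ∀ l₁ : ℝ, 0 < l₁ → ∃ l : ℝ, 0 < l ∧ l ≤ l₁ ∧
    (1 - θ) + θ * Real.exp (-(l / θ * η)) + K * Real.exp (-(c / l)) < 1

/-- the total weight of the blocks is smaller than one -/
def BLT_Stmt : Prop := ∀ (F : Frame) (v₁ v₀ : ℝ), 0 ≤ v₁ → v₁ < v₀ → v₀ ≤ 2 →
  (∀ v, v₁ < v → Thin (fun w => v * (w.length : ℝ) ≤ (su F w : ℝ))) →
  Thin (fun w => Cut F w = ∅ ∧
    (v₀ - (v₀ - v₁) / 8) * (w.length : ℝ) ≤ ((su F w + st F w : ℤ) : ℝ)) →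
  ∀ l₁ : ℝ, 0 < l₁ → ∃ l ρ : ℝ, 0 < l ∧ l ≤ l₁ ∧ ρ < 1 ∧ ∀ N : ℕ,
    Gs (Blk F) (om F (Lm + l * (v₀ - (v₀ - v₁) / 32)) l l) N ≤ ρ

/-! ### polygons -/

open Classical in
/-- polygons with large span are rare -/
def POL_Stmt : Prop := ∀ v : ℝ, 0 < v → ∃ c : ℝ, 0 < c ∧ ∀ᶠ n : ℕ in atTop,
  ((((AreaLaw.SAP n).filter (fun s => v * n ≤ (AreaLaw.span n s : ℝ))).card : ℕ) : ℝ) ≤
    Real.exp (-(c * n)) * ((AreaLaw.SAP n).card : ℝ)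

end Pool.Agent.SUBB
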