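import Pool.Agent.SUBB.Stmts2
import Pool.Agent.Lib_helper74.FS.Stmts

/-!
# SUBB, module FIN: the area law for every span of order n
-/

set_option autoImplicit false

namespace Pool.Agent.SUBB

open Finset Filter Topology MeasureTheory
open Pool.Agent.AreaLaw

open Classical in
/-- the final theorem -/
def FIN_Stmt : Prop := ∃ μ : Measure ℝ, IsProbabilityMeasure μ ∧
  (∀ x : ℝ, μ {x} = 0 →
    Tendsto (fun n : ℕ => areaCdf n (Staircase n) x) atTop (𝓝 (μ (Set.Iic x)).toReal)) ∧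
  ∃ e : ℕ → ℝ, (∀ n, 0 < e n) ∧ Tendsto e atTop (𝓝 0) ∧
    ∀ h : ℕ → ℕ, (∀ᶠ n : ℕ in atTop, e n * n ≤ (h n : ℝ) ∧ (h n : ℝ) ≤ (1 - e n) * n) →
      ∀ x : ℝ, μ {x} = 0 →
        Tendsto (fun n : ℕ => areaCdf n ((SAP n).filter (fun s => span n s = h n)) x) atTop
          (𝓝 (μ (Set.Iic x)).toReal) ∧
        Tendsto (fun n : ℕ => areaCdf n ((SAP n).filter (fun s => h n ≤ span n s)) x) atTop
          (𝓝 (μ (Set.Iic x)).toReal)

namespace FIN

/-- diagonal choice -/
lemma diag (P : ℕ → ℕ → Prop) (hP : ∀ k, ∀ᶠ n in atTop, P k n) :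
    ∃ K : ℕ → ℕ, Tendsto K atTop atTop ∧ ∀ᶠ n in atTop, P (K n) n := by
  classical
  have h1 : ∀ k, ∃ N : ℕ, ∀ n, N ≤ n → P k n := fun k => eventually_atTop.1 (hP k)
  choose N hN using h1
  obtain ⟨M, hM⟩ : ∃ M : ℕ → ℕ, M = fun k => (∑ i ∈ range (k + 1), N i) + k := ⟨_, rfl⟩
  have hMN : ∀ k, N k ≤ M k := by
    intro k
    rw [hM]
    have h2 : N k ≤ ∑ i ∈ range (k + 1), N i :=
      single_le_sum (f := N) (fun _ _ => Nat.zero_le _) (mem_range.2 (Nat.lt_succ_self k))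
    show N k ≤ (∑ i ∈ range (k + 1), N i) + k
    omega
  have hMk : ∀ k, k ≤ M k := by
    intro k
    rw [hM]
    exact Nat.le_add_left _ _
  refine ⟨fun n => Nat.findGreatest (fun k => M k ≤ n) n, ?_, ?_⟩
  · rw [tendsto_atTop]
    intro k
    filter_upwards [eventually_ge_atTop (M k)] with n hn
    exact Nat.le_findGreatest ((hMk k).trans hn) hn
  · filter_upwards [eventually_ge_atTop (M 0)] with n hn
    have h3 : M (Nat.findGreatest (fun k => M k ≤ n) n) ≤ n :=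
      Nat.findGreatest_spec (P := fun k => M k ≤ n) (Nat.zero_le n) hn
    exact hN _ n ((hMN _).trans h3)

end FIN

open FIN in
/-- the final theorem from the rarity of polygons with large span -/
theorem fin (hP : POL_Stmt) (hF : FS.FINAL_FS_Stmt) : FIN_Stmt := by
  classical
  obtain ⟨μ, hμ, hst, e₀, he₀, he₀', hmain⟩ := hF
  refine ⟨μ, hμ, hst, ?_⟩
  have h1 : ∀ k : ℕ, ∀ᶠ n : ℕ in atTop,
      ((((SAP n).filter (fun s => 1 / ((k : ℝ) + 1) * n ≤ (span n s : ℝ))).card : ℕ) : ℝ) ≤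
        Real.exp (-(e₀ n * n)) * ((SAP n).card : ℝ) := by
    intro k
    obtain ⟨c, hc, h2⟩ := hP (1 / ((k : ℝ) + 1)) (by positivity)
    have h3 : ∀ᶠ n in atTop, e₀ n < c := (tendsto_order.1 he₀').2 c hc
    filter_upwards [h2, h3] with n h4 h5
    have h6 : Real.exp (-(c * n)) * ((SAP n).card : ℝ) ≤
        Real.exp (-(e₀ n * n)) * ((SAP n).card : ℝ) := by
      refine mul_le_mul_of_nonneg_right (Real.exp_le_exp.2 ?_) (Nat.cast_nonneg _)
      have : e₀ n * n ≤ c * n := mul_le_mul_of_nonneg_right h5.le (Nat.cast_nonneg _)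
      linarith
    refine le_trans (le_of_eq ?_) (h4.trans h6)
    congr 2
  obtain ⟨K, hK, hKP⟩ := diag _ h1
  refine ⟨fun n => max (e₀ n) (1 / ((K n : ℝ) + 1)), fun n => lt_max_of_lt_left (he₀ n), ?_, ?_⟩
  · have h2 : Tendsto (fun n => 1 / ((K n : ℝ) + 1)) atTop (𝓝 0) :=
      tendsto_one_div_add_atTop_nhds_zero_nat.comp hK
    have h3 := he₀'.max h2
    rwa [max_self] at h3
  · intro h hh x hx
    have h2 : ∀ᶠ n : ℕ in atTop, (((SAP n).filter (fun s => h n ≤ span n s)).card : ℝ) ≤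
        Real.exp (-(e₀ n * n)) * (SAP n).card ∧ (h n : ℝ) ≤ (1 - e₀ n) * n := by
      filter_upwards [hh, hKP] with n h3 h4
      obtain ⟨h5, h6⟩ := h3
      have hn0 : (0 : ℝ) ≤ n := Nat.cast_nonneg n
      refine ⟨le_trans ?_ h4, h6.trans ?_⟩
      · norm_cast
        refine card_le_card fun s hs => ?_
        rw [mem_filter] at hs ⊢
        refine ⟨hs.1, ?_⟩
        have h7 : (h n : ℝ) ≤ (span n s : ℝ) := by exact_mod_cast hs.2
        have h8 : 1 / ((K n : ℝ) + 1) * n ≤ (h n : ℝ) :=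
          le_trans (mul_le_mul_of_nonneg_right (le_max_right _ _) hn0) h5
        have h9 := h8.trans h7
        push_cast
        exact h9
      · exact mul_le_mul_of_nonneg_right (by linarith [le_max_left (e₀ n) (1 / ((K n : ℝ) + 1))]) hn0
    have h3 := hmain h (by convert h2) x hx
    convert h3

end Pool.Agent.SUBB
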