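import Pool.Agent.SUBB.Stmts

/-!
# Boundaries determine sets of times
-/

set_option autoImplicit false

namespace Pool.Agent.SUBB

open Finset

private theorem bdi_aux (N : ℕ) (A B : Finset ℕ) (hA : A ⊆ range N) (hB : B ⊆ range N)
    (h : bd A N = bd B N) (i : ℕ) : i ∈ A ↔ i ∈ B := by
  induction i with
  | zero =>
    have h0 : (0 ∈ bd A N ↔ 0 ∈ bd B N) := by rw [h]
    simp only [bd, mem_filter, mem_range, Nat.succ_pos, true_and, lt_irrefl, false_and,
      iff_false, not_not] at h0
    exact h0
  | succ i ih =>
    by_cases hi : i + 1 < N + 1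
    · have h0 : (i + 1 ∈ bd A N ↔ i + 1 ∈ bd B N) := by rw [h]
      simp only [bd, mem_filter, mem_range, hi, Nat.succ_pos, true_and,
        Nat.add_sub_cancel] at h0
      tauto
    · have h1 : i + 1 ∉ A := fun hm => by
        have := mem_range.1 (hA hm)
        omega
      have h2 : i + 1 ∉ B := fun hm => by
        have := mem_range.1 (hB hm)
        omega
      exact ⟨fun hm => absurd hm h1, fun hm => absurd hm h2⟩

/-- BDI. -/
theorem t_BDI : BDI_Stmt := by
  intro N A B hA hB h
  ext i
  exact bdi_aux N A B hA hB h i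

end Pool.Agent.SUBB
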