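import Pool.Agent.SUBB.Defs

/-!
# Self-avoiding walks are sub-ballistic: elementary facts
-/

set_option autoImplicit false

namespace Pool.Agent.SUBB

open Finset Filter Topology
open Pool.Agent.Lib27

variable (F : Frame)

@[simp] lemma su_nil : su F [] = 0 := rfl
@[simp] lemma st_nil : st F [] = 0 := rfl
@[simp] lemma su_cons (s : Fin 4) (w : Wo) : su F (s :: w) = F.U s + su F w := by simp [su]
@[simp] lemma st_cons (s : Fin 4) (w : Wo) : st F (s :: w) = F.T s + st F w := by simp [st]
lemma su_append (v w : Wo) : su F (v ++ w) = su F v + su F w := by simp [su]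
lemma st_append (v w : Wo) : st F (v ++ w) = st F v + st F w := by simp [st]

@[simp] lemma pu_zero (w : Wo) : pu F w 0 = 0 := by simp [pu]
@[simp] lemma pt_zero (w : Wo) : pt F w 0 = 0 := by simp [pt]
@[simp] lemma pu_length (w : Wo) : pu F w w.length = su F w := by simp [pu]
@[simp] lemma pt_length (w : Wo) : pt F w w.length = st F w := by simp [pt]

lemma pu_of_le (w : Wo) (i : ℕ) (h : w.length ≤ i) : pu F w i = su F w := by
  unfold pu
  rw [List.take_of_length_le h]

lemma pt_of_le (w : Wo) (i : ℕ) (h : w.length ≤ i) : pt F w i = st F w := by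
  unfold pt
  rw [List.take_of_length_le h]

lemma pu_succ (w : Wo) (i : ℕ) (h : i < w.length) : pu F w (i + 1) = pu F w i + F.U w[i] := by
  unfold pu
  rw [List.take_succ_eq_append_getElem h, su_append]
  simp

lemma pt_succ (w : Wo) (i : ℕ) (h : i < w.length) : pt F w (i + 1) = pt F w i + F.T w[i] := by
  unfold pt
  rw [List.take_succ_eq_append_getElem h, st_append]
  simp

lemma abs_pu_succ (w : Wo) (i : ℕ) : |pu F w (i + 1) - pu F w i| ≤ 1 := by
  by_cases h : i < w.length
  · rw [pu_succ F w i h, add_sub_cancel_left]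
    exact F.absU _
  · rw [pu_of_le F w _ (by omega), pu_of_le F w _ (by omega)]
    simp

lemma abs_pt_succ (w : Wo) (i : ℕ) : |pt F w (i + 1) - pt F w i| ≤ 1 := by
  by_cases h : i < w.length
  · rw [pt_succ F w i h, add_sub_cancel_left]
    exact F.absT _
  · rw [pt_of_le F w _ (by omega), pt_of_le F w _ (by omega)]
    simp

lemma pu_succ_le (w : Wo) (i : ℕ) : pu F w (i + 1) ≤ pu F w i + 1 := by
  have := (abs_le.1 (abs_pu_succ F w i)).2
  linarith

lemma pu_succ_ge (w : Wo) (i : ℕ) : pu F w i - 1 ≤ pu F w (i + 1) := by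
  have := (abs_le.1 (abs_pu_succ F w i)).1
  linarith

/-- the `u`-coordinate changes by at most the elapsed time -/
lemma abs_pu_sub (w : Wo) (i k : ℕ) : |pu F w (i + k) - pu F w i| ≤ k := by
  induction k with
  | zero => simp
  | succ k ih =>
    have h := abs_pu_succ F w (i + k)
    rw [← add_assoc]
    calc |pu F w (i + k + 1) - pu F w i|
        = |(pu F w (i + k + 1) - pu F w (i + k)) + (pu F w (i + k) - pu F w i)| := by ring_nf
      _ ≤ _ := abs_add_le _ _
      _ ≤ 1 + k := add_le_add h ih
      _ = ((k + 1 : ℕ) : ℤ) := by push_cast; ring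

lemma pu_sub_le (w : Wo) {i j : ℕ} (h : i ≤ j) : pu F w j - pu F w i ≤ (j : ℤ) - i := by
  obtain ⟨k, rfl⟩ := Nat.exists_eq_add_of_le h
  have := (abs_le.1 (abs_pu_sub F w i k)).2
  push_cast
  linarith

lemma pu_sub_ge (w : Wo) {i j : ℕ} (h : i ≤ j) : pu F w i - pu F w j ≤ (j : ℤ) - i := by
  obtain ⟨k, rfl⟩ := Nat.exists_eq_add_of_le h
  have := (abs_le.1 (abs_pu_sub F w i k)).1
  push_cast
  linarith

lemma abs_su_le (w : Wo) : |su F w| ≤ w.length := by
  induction w with
  | nil => simp
  | cons s w ih =>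
    rw [su_cons, List.length_cons]
    push_cast
    have h := F.absU s
    calc |F.U s + su F w| ≤ |F.U s| + |su F w| := abs_add_le _ _
      _ ≤ 1 + w.length := add_le_add h ih
      _ = _ := by ring

lemma abs_st_le (w : Wo) : |st F w| ≤ w.length := by
  induction w with
  | nil => simp
  | cons s w ih =>
    rw [st_cons, List.length_cons]
    push_cast
    have h := F.absT s
    calc |F.T s + st F w| ≤ |F.T s| + |st F w| := abs_add_le _ _
      _ ≤ 1 + w.length := add_le_add h ih
      _ = _ := by ring

/-! ### concatenation -/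

lemma pu_append_left (v w : Wo) (i : ℕ) (h : i ≤ v.length) : pu F (v ++ w) i = pu F v i := by
  unfold pu
  rw [List.take_append_of_le_length h]

lemma pt_append_left (v w : Wo) (i : ℕ) (h : i ≤ v.length) : pt F (v ++ w) i = pt F v i := by
  unfold pt
  rw [List.take_append_of_le_length h]

lemma pu_append_right (v w : Wo) (i : ℕ) : pu F (v ++ w) (v.length + i) = su F v + pu F w i := by
  unfold pu
  rw [List.take_length_add_append, su_append]

lemma pt_append_right (v w : Wo) (i : ℕ) : pt F (v ++ w) (v.length + i) = st F v + pt F w i := by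
  unfold pt
  rw [List.take_length_add_append, st_append]

lemma pu_take (w : Wo) (k i : ℕ) (h : i ≤ k) : pu F (w.take k) i = pu F w i := by
  unfold pu
  rw [List.take_take, min_eq_left h]

lemma pt_take (w : Wo) (k i : ℕ) (h : i ≤ k) : pt F (w.take k) i = pt F w i := by
  unfold pt
  rw [List.take_take, min_eq_left h]

lemma su_take (w : Wo) (k : ℕ) : su F (w.take k) = pu F w k := rfl
lemma st_take (w : Wo) (k : ℕ) : st F (w.take k) = pt F w k := rfl

lemma pu_drop (w : Wo) (k i : ℕ) (h : k ≤ w.length) :
    pu F (w.drop k) i = pu F w (k + i) - pu F w k := by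
  have h1 := pu_append_right F (w.take k) (w.drop k) i
  rw [List.take_append_drop, List.length_take, min_eq_left h] at h1
  rw [h1]
  unfold pu
  ring

lemma pt_drop (w : Wo) (k i : ℕ) (h : k ≤ w.length) :
    pt F (w.drop k) i = pt F w (k + i) - pt F w k := by
  have h1 := pt_append_right F (w.take k) (w.drop k) i
  rw [List.take_append_drop, List.length_take, min_eq_left h] at h1
  rw [h1]
  unfold pt
  ring

lemma su_drop (w : Wo) (k : ℕ) (h : k ≤ w.length) : su F (w.drop k) = su F w - pu F w k := by
  have h1 := su_append F (w.take k) (w.drop k)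
  rw [List.take_append_drop] at h1
  rw [h1, su_take]
  ring

lemma st_drop (w : Wo) (k : ℕ) (h : k ≤ w.length) : st F (w.drop k) = st F w - pt F w k := by
  have h1 := st_append F (w.take k) (w.drop k)
  rw [List.take_append_drop] at h1
  rw [h1, st_take]
  ring

lemma pu_cons_succ (s : Fin 4) (w : Wo) (i : ℕ) : pu F (s :: w) (i + 1) = F.U s + pu F w i := by
  simp [pu]

lemma pt_cons_succ (s : Fin 4) (w : Wo) (i : ℕ) : pt F (s :: w) (i + 1) = F.T s + pt F w i := by
  simp [pt]

lemma om_nil (s a b : ℝ) : om F s a b [] = 1 := by simp [om]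

lemma om_append (s a b : ℝ) (v w : Wo) :
    om F s a b (v ++ w) = om F s a b v * om F s a b w := by
  unfold om
  rw [← Real.exp_add, su_append, st_append, List.length_append]
  push_cast
  congr 1
  ring

lemma om_pos (s a b : ℝ) (w : Wo) : 0 < om F s a b w := Real.exp_pos _

/-! ### self-avoiding words -/

lemma Cs_length {n : ℕ} {w : Wo} (h : w ∈ Cs n) : w.length = n := ((mem_Cs n w).1 h).1

lemma Cs_take {n : ℕ} {w : Wo} (h : w ∈ Cs n) (k : ℕ) (hk : k ≤ n) : w.take k ∈ Cs k := by
  rw [mem_Cs] at h ⊢
  obtain ⟨h1, h2⟩ := h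
  refine ⟨by rw [List.length_take, h1]; exact min_eq_left hk, ?_⟩
  rw [← List.take_append_drop k w] at h2
  exact (SAWs_append _ _ h2).1

lemma Cs_drop {n : ℕ} {w : Wo} (h : w ∈ Cs n) (k : ℕ) : w.drop k ∈ Cs (n - k) := by
  rw [mem_Cs] at h ⊢
  obtain ⟨h1, h2⟩ := h
  refine ⟨by rw [List.length_drop, h1], ?_⟩
  rw [← List.take_append_drop k w] at h2
  exact (SAWs_append _ _ h2).2

lemma Cs_zero : Cs 0 = {[]} := by
  ext w
  rw [mem_Cs, mem_singleton]
  constructor
  · rintro ⟨h, -⟩
    exact List.length_eq_zero_iff.1 h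
  · rintro rfl
    exact ⟨rfl, by simp [SAWs]⟩

lemma SA_take {w : Wo} (h : SA F w) (k : ℕ) : SA F (w.take k) := by
  intro i j hij hj
  rw [List.length_take] at hj
  have hk : j ≤ k := hj.trans (min_le_left _ _)
  rw [pu_take F w k i (hij.le.trans hk), pu_take F w k j hk, pt_take F w k i (hij.le.trans hk),
    pt_take F w k j hk]
  exact h i j hij (hj.trans (min_le_right _ _))

lemma SA_drop {w : Wo} (h : SA F w) (k : ℕ) (hk : k ≤ w.length) : SA F (w.drop k) := by
  intro i j hij hj
  rw [List.length_drop] at hj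
  rw [pu_drop F w k i hk, pu_drop F w k j hk, pt_drop F w k i hk, pt_drop F w k j hk]
  rintro ⟨h1, h2⟩
  exact h (k + i) (k + j) (by omega) (by omega) ⟨by linarith, by linarith⟩

/-! ### reflections of steps -/

@[simp] lemma flp_length (A : Finset ℕ) (w : Wo) : (flp F A w).length = w.length := by
  simp [flp]

lemma flp_getElem (A : Finset ℕ) (w : Wo) (i : ℕ) (h : i < (flp F A w).length) :
    (flp F A w)[i] = if i ∈ A then F.fU (w[i]'(by simpa using h)) else w[i]'(by simpa using h) := by
  simp [flp]

/-- the coordinate `t` does not change -/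
lemma pt_flp (A : Finset ℕ) (w : Wo) (i : ℕ) : pt F (flp F A w) i = pt F w i := by
  induction i with
  | zero => simp
  | succ i ih =>
    by_cases h : i < w.length
    · rw [pt_succ F _ i (by simpa using h), pt_succ F w i h, ih, flp_getElem]
      split_ifs with hA
      · rw [F.T_fU]
      · rfl
    · rw [pt_of_le F _ (i + 1) (by simp; omega), pt_of_le F w (i + 1) (by omega)]
      rw [pt_of_le F _ i (by simp; omega), pt_of_le F w i (by omega)] at ih
      exact ih

lemma st_flp (A : Finset ℕ) (w : Wo) : st F (flp F A w) = st F w := by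
  have := pt_flp F A w w.length
  rwa [pt_length, ← flp_length F A w, pt_length] at this

/-- increments of the coordinate `u` -/
lemma pu_flp_succ (A : Finset ℕ) (w : Wo) (i : ℕ) :
    pu F (flp F A w) (i + 1) - pu F (flp F A w) i =
      if i ∈ A then -(pu F w (i + 1) - pu F w i) else pu F w (i + 1) - pu F w i := by
  by_cases h : i < w.length
  · rw [pu_succ F _ i (by simpa using h), pu_succ F w i h, flp_getElem]
    split_ifs with hA
    · rw [F.U_fU]; ring
    · ring
  · rw [pu_of_le F _ (i + 1) (by simp; omega), pu_of_le F w (i + 1) (by omega),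
      pu_of_le F _ i (by simp; omega), pu_of_le F w i (by omega)]
    simp

/-- before the reflected interval -/
lemma pu_flp_lo (w : Wo) (j k i : ℕ) (h : i ≤ j) : pu F (flp F (Ico j k) w) i = pu F w i := by
  induction i with
  | zero => simp
  | succ i ih =>
    have h1 := pu_flp_succ F (Ico j k) w i
    rw [if_neg (by rw [mem_Ico]; omega), ih (by omega)] at h1
    linarith

/-- inside the reflected interval -/
lemma pu_flp_mid (w : Wo) (j k i : ℕ) (h : j ≤ i) (hk : i ≤ k) :
    pu F (flp F (Ico j k) w) i = 2 * pu F w j - pu F w i := by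
  induction i, h using Nat.le_induction with
  | base =>
    rw [pu_flp_lo F w j k j le_rfl]
    ring
  | succ i hi ih =>
    have h1 := pu_flp_succ F (Ico j k) w i
    rw [if_pos (by rw [mem_Ico]; omega), ih (by omega)] at h1
    linarith

/-- after the reflected interval -/
lemma pu_flp_hi (w : Wo) (j k i : ℕ) (hjk : j ≤ k) (h : k ≤ i) :
    pu F (flp F (Ico j k) w) i = pu F w i + 2 * (pu F w j - pu F w k) := by
  induction i, h using Nat.le_induction with
  | base =>
    rw [pu_flp_mid F w j k k hjk le_rfl]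
    ring
  | succ i hi ih =>
    have h1 := pu_flp_succ F (Ico j k) w i
    rw [if_neg (by rw [mem_Ico]; omega), ih] at h1
    linarith

/-- reflecting twice -/
lemma flp_flp (A : Finset ℕ) (w : Wo) : flp F A (flp F A w) = w := by
  refine List.ext_getElem (by simp) fun i h1 h2 => ?_
  rw [flp_getElem, flp_getElem]
  split_ifs with hA
  · rw [F.fU_fU]
  · rfl

/-- reflecting along disjoint sets -/
lemma flp_union (A B : Finset ℕ) (h : Disjoint A B) (w : Wo) :
    flp F B (flp F A w) = flp F (A ∪ B) w := by
  refine List.ext_getElem (by simp) fun i h1 h2 => ?_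
  rw [flp_getElem, flp_getElem, flp_getElem]
  by_cases hA : i ∈ A
  · have hB : i ∉ B := fun hB => (Finset.disjoint_left.1 h) hA hB
    rw [if_neg hB, if_pos hA, if_pos (mem_union_left _ hA)]
  · by_cases hB : i ∈ B
    · rw [if_pos hB, if_neg hA, if_pos (mem_union_right _ hB)]
    · rw [if_neg hB, if_neg hA, if_neg (by rw [mem_union]; tauto)]

@[simp] lemma flp_empty (w : Wo) : flp F ∅ w = w := by
  refine List.ext_getElem (by simp) fun i h1 h2 => ?_
  rw [flp_getElem]
  simp

/-! ### cut times and backtracks -/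

lemma mem_Cut (w : Wo) (i : ℕ) : i ∈ Cut F w ↔ i < w.length ∧ (∀ a ≤ i, pu F w a ≤ pu F w i) ∧
    ∀ a, i < a → a ≤ w.length → pu F w i < pu F w a := by
  classical
  unfold Cut
  rw [mem_filter, mem_range]

lemma mem_V (w : Wo) (q : ℕ × ℕ) : q ∈ V F w ↔ VP F w q := by
  classical
  unfold V
  rw [mem_filter, mem_product, mem_range, mem_range]
  constructor
  · exact fun h => h.2
  · intro h
    have h1 := h.1
    have h2 := h.2.1
    exact ⟨⟨by omega, by omega⟩, h⟩

/-- the size of a backtrack as an integer -/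
lemma sz_cast {w : Wo} {q : ℕ × ℕ} (h : VP F w q) :
    (sz F w q : ℤ) = pu F w q.1 - pu F w q.2 ∧ 0 < sz F w q := by
  have h1 := h.2.2.2.1 q.2 h.1 le_rfl
  unfold sz
  constructor
  · rw [Int.toNat_of_nonneg (by linarith)]
  · omega

/-- the size of a backtrack is at most its duration -/
lemma sz_le {w : Wo} {q : ℕ × ℕ} (h : VP F w q) : sz F w q ≤ q.2 - q.1 := by
  have h1 := (sz_cast F h).1
  have h2 := pu_sub_ge F w h.1.le
  have h3 := h.1
  omega

end Pool.Agent.SUBB
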