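import Pool.Agent.SUBB.Stmts2
import Pool.Agent.SUBB.Basic

/-!
# SUBB, module BKU: exponential moments of the displacement of the blocks
-/

set_option autoImplicit false

namespace Pool.Agent.SUBB

open Finset Filter Topology
open Pool.Agent.Lib27

lemma bku_length_pos (F : Frame) (w : Wo) (h : Blk F w) : 0 < w.length := by
  classical
  have h0 : (0 : ℕ) ∈ Cut F w := by
    rw [h.1]
    exact Finset.mem_singleton_self 0
  have h1 := (Finset.mem_filter.mp h0).1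
  exact Finset.mem_range.mp h1

theorem t_BKU (hT : TS1_Stmt) (hR : REN1_Stmt) : BKU_Stmt := by
  classical
  intro F v₁ v₂ hv hthin
  have hψ : ∀ w : Wo, |((su F w : ℤ) : ℝ)| ≤ 2 * (w.length : ℝ) := by
    intro w
    have h1 := abs_su_le F w
    have h2 : |((su F w : ℤ) : ℝ)| ≤ (w.length : ℝ) := by exact_mod_cast h1
    have h3 : (0 : ℝ) ≤ (w.length : ℝ) := Nat.cast_nonneg _
    linarith
  obtain ⟨l₀, hl₀, hl⟩ := hT (fun w => ((su F w : ℤ) : ℝ)) hψ v₁ ((v₁ + v₂) / 2)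
    (by linarith) hthin
  refine ⟨l₀, (v₂ - v₁) / 2, hl₀, by linarith, ?_⟩
  intro l hl1 hl2 N
  obtain ⟨B, hB⟩ := hl l hl1 hl2
  have h1 : ∀ N : ℕ, Gs (Blk F) (om F (Lm + l * ((v₁ + v₂) / 2)) l 0) N ≤ 1 := by
    apply hR
    refine ⟨B, fun N => ?_⟩
    have h2 : om F (Lm + l * ((v₁ + v₂) / 2)) l 0 = fun w =>
        Real.exp (-((Lm + l * ((v₁ + v₂) / 2)) * (w.length : ℝ)) + l * ((su F w : ℤ) : ℝ)) := by
      funext w
      unfold om
      rw [zero_mul, add_zero]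
    rw [h2]
    exact hB N
  have h3 : Gs (Blk F) (om F (Lm + l * v₂) l 0) N ≤
      Real.exp (-(l * ((v₂ - v₁) / 2))) * Gs (Blk F) (om F (Lm + l * ((v₁ + v₂) / 2)) l 0) N := by
    unfold Gs
    rw [Finset.mul_sum]
    refine Finset.sum_le_sum fun n _ => ?_
    rw [Finset.mul_sum]
    refine Finset.sum_le_sum fun w hw => ?_
    have hw1 : Blk F w := (Finset.mem_filter.mp hw).2
    have hlen : (1 : ℝ) ≤ (w.length : ℝ) := by
      exact_mod_cast bku_length_pos F w hw1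
    unfold om
    rw [← Real.exp_add]
    apply Real.exp_le_exp.mpr
    have h4 : 0 ≤ l * ((v₂ - v₁) / 2) * ((w.length : ℝ) - 1) :=
      mul_nonneg (mul_nonneg hl1.le (by linarith)) (by linarith)
    nlinarith [h4]
  calc Gs (Blk F) (om F (Lm + l * v₂) l 0) N
      ≤ Real.exp (-(l * ((v₂ - v₁) / 2))) *
          Gs (Blk F) (om F (Lm + l * ((v₁ + v₂) / 2)) l 0) N := h3
    _ ≤ Real.exp (-(l * ((v₂ - v₁) / 2))) * 1 :=
        mul_le_mul_of_nonneg_left (h1 N) (Real.exp_pos _).le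
    _ = Real.exp (-(l * ((v₂ - v₁) / 2))) := mul_one _

end Pool.Agent.SUBB
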