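import Pool.Agent.SUBB.Stmts
import Pool.Agent.SUBB.Basic

/-!
# The total weight of all words from the total weight of the blocks
-/

set_option autoImplicit false

namespace Pool.Agent.SUBB

open Finset Filter Topology
open Pool.Agent.Lib27

/-- self-avoiding words of length at most `N` -/
noncomputable def ren2C (N : ℕ) : Finset Wo := (range (N + 1)).biUnion Cs

lemma ren2_mem (N : ℕ) (w : Wo) : w ∈ ren2C N ↔ w.length ≤ N ∧ SAWs w := by
  unfold ren2C
  rw [mem_biUnion]
  constructor
  · rintro ⟨n, hn, hw⟩
    rw [mem_range] at hn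
    rw [mem_Cs] at hw
    exact ⟨by omega, hw.2⟩
  · rintro ⟨h1, h2⟩
    exact ⟨w.length, by rw [mem_range]; omega, by rw [mem_Cs]; exact ⟨rfl, h2⟩⟩

lemma ren2_Gs (P : Wo → Prop) [DecidablePred P] (ω : Wo → ℝ) (N : ℕ) :
    Gs P ω N = ∑ w ∈ (ren2C N).filter P, ω w := by
  classical
  have e : ∀ n : ℕ, @Finset.filter Wo P (fun a => Classical.propDecidable (P a)) (Cs n)
      = (Cs n).filter P := by
    intro n
    ext w
    simp only [mem_filter]
  unfold Gs ren2C
  simp only [e]
  rw [filter_biUnion, sum_biUnion]
  intro i _ j _ hij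
  rw [Function.onFun, Finset.disjoint_left]
  intro w hw hw'
  exact hij ((Cs_length (mem_filter.1 hw).1).symm.trans (Cs_length (mem_filter.1 hw').1))

/-- splitting words in two pieces -/
lemma ren2_split (F : Frame) (s a b : ℝ) (A X Y : Finset Wo) (ι : Wo → ℕ)
    (h : ∀ w ∈ A, w.take (ι w) ∈ X ∧ w.drop (ι w) ∈ Y) :
    ∑ w ∈ A, om F s a b w ≤ (∑ w ∈ X, om F s a b w) * ∑ w ∈ Y, om F s a b w := by
  classical
  have hinj : Set.InjOn (fun w : Wo => (w.take (ι w), w.drop (ι w))) (A : Set Wo) := by
    intro w _ v _ hwv
    simp only [Prod.mk.injEq] at hwv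
    rw [← List.take_append_drop (ι w) w, ← List.take_append_drop (ι v) v, hwv.1, hwv.2]
  calc ∑ w ∈ A, om F s a b w
      = ∑ w ∈ A, om F s a b (w.take (ι w)) * om F s a b (w.drop (ι w)) := by
        refine sum_congr rfl fun w _ => ?_
        rw [← om_append, List.take_append_drop]
    _ = ∑ y ∈ A.image (fun w : Wo => (w.take (ι w), w.drop (ι w))),
          om F s a b y.1 * om F s a b y.2 := by
        rw [sum_image hinj]
    _ ≤ ∑ y ∈ X ×ˢ Y, om F s a b y.1 * om F s a b y.2 := by
        apply sum_le_sum_of_subset_of_nonneg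
        · intro y hy
          rw [mem_image] at hy
          obtain ⟨w, hw, rfl⟩ := hy
          rw [mem_product]
          exact h w hw
        · intro y _ _
          exact mul_nonneg (om_pos F s a b _).le (om_pos F s a b _).le
    _ = _ := by
        rw [sum_product, sum_mul_sum]

/-- cut times of an initial piece -/
lemma ren2_cut_take (F : Frame) (w : Wo) (i a : ℕ) (hi : i ∈ Cut F w) :
    a ∈ Cut F (w.take i) ↔ a < i ∧ a ∈ Cut F w := by
  have hi' := (mem_Cut F w i).1 hi
  have hl : (w.take i).length = i := by
    rw [List.length_take]; exact min_eq_left hi'.1.le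
  rw [mem_Cut, mem_Cut, hl]
  constructor
  · rintro ⟨h1, h2, h3⟩
    refine ⟨h1, lt_trans h1 hi'.1, ?_, ?_⟩
    · intro b hb
      have := h2 b hb
      rwa [pu_take F w i b (by omega), pu_take F w i a (by omega)] at this
    · intro b hb hbl
      by_cases hbi : b ≤ i
      · have := h3 b hb hbi
        rwa [pu_take F w i b hbi, pu_take F w i a (by omega)] at this
      · have e1 := h3 i h1 le_rfl
        rw [pu_take F w i i le_rfl, pu_take F w i a (by omega)] at e1
        have e2 := hi'.2.2 b (by omega) hbl
        linarith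
  · rintro ⟨h1, h2, h3, h4⟩
    refine ⟨h1, ?_, ?_⟩
    · intro b hb
      rw [pu_take F w i b (by omega), pu_take F w i a (by omega)]
      exact h3 b hb
    · intro b hb hbi
      rw [pu_take F w i b hbi, pu_take F w i a (by omega)]
      exact h4 b hb (by omega)

/-- the final piece starts with a cut -/
lemma ren2_cut_drop (F : Frame) (w : Wo) (i : ℕ) (hi : i ∈ Cut F w) :
    0 ∈ Cut F (w.drop i) := by
  have hi' := (mem_Cut F w i).1 hi
  rw [mem_Cut]
  refine ⟨by rw [List.length_drop]; omega, ?_, ?_⟩
  · intro b hb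
    have : b = 0 := by omega
    rw [this]
  · intro b hb hbl
    rw [List.length_drop] at hbl
    rw [pu_drop F w i b hi'.1.le, pu_zero]
    have := hi'.2.2 (i + b) (by omega) (by omega)
    linarith

/-- no cut after the first one -/
lemma ren2_cut_one (F : Frame) (w : Wo) (h : Cut F w = {0}) : Cut F (w.drop 1) = ∅ := by
  have h0 : 0 ∈ Cut F w := by rw [h]; exact mem_singleton_self 0
  have h0' := (mem_Cut F w 0).1 h0
  rw [eq_empty_iff_forall_notMem]
  intro a ha
  rw [mem_Cut] at ha
  obtain ⟨h1, h2, h3⟩ := ha
  rw [List.length_drop] at h1 h3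
  have hmem : a + 1 ∈ Cut F w := by
    rw [mem_Cut]
    refine ⟨by omega, ?_, ?_⟩
    · intro b hb
      rcases Nat.eq_zero_or_pos b with rfl | hb0
      · exact (h0'.2.2 (a + 1) (by omega) (by omega)).le
      · have := h2 (b - 1) (by omega)
        rw [pu_drop F w 1 _ (by omega), pu_drop F w 1 _ (by omega)] at this
        rw [show 1 + (b - 1) = b by omega, show 1 + a = a + 1 by omega] at this
        linarith
    · intro b hb hbl
      have := h3 (b - 1) (by omega) (by omega)
      rw [pu_drop F w 1 _ (by omega), pu_drop F w 1 _ (by omega)] at this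
      rw [show 1 + (b - 1) = b by omega, show 1 + a = a + 1 by omega] at this
      linarith
  rw [h, mem_singleton] at hmem
  omega

theorem t_REN2 : REN2_Stmt := by
  classical
  intro F s a b ρ hρ hB hE
  obtain ⟨B, hB'⟩ := hE
  set K : ℝ := ∑ w ∈ Cs 1, om F s a b w with hK
  have hK0 : 0 ≤ K := sum_nonneg fun w _ => (om_pos F s a b w).le
  have key : ∀ N : ℕ, Gs (fun _ => True) (om F s a b) N ≤ B + B * ((1 + K * B) / (1 - ρ)) := by
    intro N
    set E : Finset Wo := (ren2C N).filter (fun w => Cut F w = ∅) with hEd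
    set D : Finset Wo := (ren2C N).filter (Blk F) with hD
    set H : Finset Wo := (ren2C N).filter (fun w => w = [] ∨ 0 ∈ Cut F w) with hH
    have hEB : ∑ w ∈ E, om F s a b w ≤ B := by
      rw [hEd, ← ren2_Gs]; exact hB' N
    have hDB : ∑ w ∈ D, om F s a b w ≤ ρ := by
      rw [hD, ← ren2_Gs]; exact hB N
    have hE0 : 0 ≤ ∑ w ∈ E, om F s a b w := sum_nonneg fun w _ => (om_pos F s a b w).le
    have hH0 : 0 ≤ ∑ w ∈ H, om F s a b w := sum_nonneg fun w _ => (om_pos F s a b w).le
    have htd : ∀ w ∈ ren2C N, ∀ i, w.take i ∈ ren2C N ∧ w.drop i ∈ ren2C N := by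
      intro w hw i
      rw [ren2_mem] at hw
      have h2 := hw.2
      rw [← List.take_append_drop i w] at h2
      obtain ⟨h3, h4⟩ := SAWs_append _ _ h2
      rw [ren2_mem, ren2_mem]
      refine ⟨⟨?_, h3⟩, ⟨?_, h4⟩⟩
      · rw [List.length_take]; omega
      · rw [List.length_drop]; omega
    -- splitting H
    set H1 : Finset Wo := H.filter (fun w => Cut F w = {0}) with hH1
    set H2 : Finset Wo := H.filter (fun w => w ≠ [] ∧ Cut F w ≠ {0}) with hH2
    have hsub : H ⊆ {[]} ∪ (H1 ∪ H2) := by
      intro w hw
      by_cases h1 : w = []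
      · exact mem_union_left _ (mem_singleton.2 h1)
      · refine mem_union_right _ ?_
        by_cases h2 : Cut F w = {0}
        · exact mem_union_left _ (mem_filter.2 ⟨hw, h2⟩)
        · exact mem_union_right _ (mem_filter.2 ⟨hw, h1, h2⟩)
    have s1 : ∑ w ∈ H, om F s a b w ≤ 1 + (∑ w ∈ H1, om F s a b w + ∑ w ∈ H2, om F s a b w) := by
      have hnn : ∀ w : Wo, 0 ≤ om F s a b w := fun w => (om_pos F s a b w).le
      calc ∑ w ∈ H, om F s a b w ≤ ∑ w ∈ {[]} ∪ (H1 ∪ H2), om F s a b w :=
            sum_le_sum_of_subset_of_nonneg hsub fun w _ _ => hnn w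
        _ ≤ ∑ w ∈ ({[]} : Finset Wo), om F s a b w + ∑ w ∈ H1 ∪ H2, om F s a b w := by
            rw [← sum_union_inter]
            exact le_add_of_nonneg_right (sum_nonneg fun w _ => hnn w)
        _ ≤ 1 + (∑ w ∈ H1, om F s a b w + ∑ w ∈ H2, om F s a b w) := by
            rw [sum_singleton, om_nil]
            have : ∑ w ∈ H1 ∪ H2, om F s a b w ≤
                ∑ w ∈ H1, om F s a b w + ∑ w ∈ H2, om F s a b w := by
              rw [← sum_union_inter]
              exact le_add_of_nonneg_right (sum_nonneg fun w _ => hnn w)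
            linarith
    have s2 : ∑ w ∈ H1, om F s a b w ≤ K * B := by
      have := ren2_split F s a b H1 (Cs 1) E (fun _ => 1) (by
        intro w hw
        rw [hH1, mem_filter, hH, mem_filter] at hw
        obtain ⟨⟨hw1, -⟩, hw2⟩ := hw
        have h0 : 0 ∈ Cut F w := by rw [hw2]; exact mem_singleton_self 0
        have hl := ((mem_Cut F w 0).1 h0).1
        obtain ⟨t1, t2⟩ := htd w hw1 1
        constructor
        · rw [mem_Cs]
          refine ⟨?_, ((ren2_mem _ _).1 t1).2⟩
          rw [List.length_take]; omega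
        · rw [hEd, mem_filter]
          exact ⟨t2, ren2_cut_one F w hw2⟩)
      exact this.trans (mul_le_mul_of_nonneg_left hEB hK0)
    have s3 : ∑ w ∈ H2, om F s a b w ≤ ρ * ∑ w ∈ H, om F s a b w := by
      have hmin : ∀ w ∈ H2, ((Cut F w).erase 0).Nonempty := by
        intro w hw
        rw [hH2, mem_filter, hH, mem_filter] at hw
        obtain ⟨⟨hw1, hw2⟩, hw3, hw4⟩ := hw
        have h0 : 0 ∈ Cut F w := hw2.resolve_left hw3
        rw [nonempty_iff_ne_empty]
        intro he
        apply hw4
        rw [← insert_erase h0, he]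
        simp
      have := ren2_split F s a b H2 D H
        (fun w => if h : ((Cut F w).erase 0).Nonempty then ((Cut F w).erase 0).min' h else 0) (by
        intro w hw
        have hne := hmin w hw
        rw [hH2, mem_filter, hH, mem_filter] at hw
        obtain ⟨⟨hw1, hw2⟩, hw3, hw4⟩ := hw
        have h0 : 0 ∈ Cut F w := hw2.resolve_left hw3
        simp only [dif_pos hne]
        set i := ((Cut F w).erase 0).min' hne with hi
        have him : i ∈ (Cut F w).erase 0 := min'_mem _ _
        rw [mem_erase] at him
        obtain ⟨t1, t2⟩ := htd w hw1 i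
        have hlen := ((mem_Cut F w i).1 him.2).1
        have hl : (w.take i).length = i := by
          rw [List.length_take]; exact min_eq_left hlen.le
        constructor
        · rw [hD, mem_filter]
          refine ⟨t1, ?_, ?_⟩
          · ext j
            rw [ren2_cut_take F w i j him.2, mem_singleton]
            constructor
            · rintro ⟨h1, h2⟩
              by_contra hj
              have : i ≤ j := min'_le _ _ (by rw [mem_erase]; exact ⟨hj, h2⟩)
              omega
            · rintro rfl
              exact ⟨by omega, h0⟩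
          · intro j hj
            rw [hl] at hj
            rw [pu_take F w i j hj, su_take]
            exact ((mem_Cut F w i).1 him.2).2.1 j hj
        · rw [hH, mem_filter]
          exact ⟨t2, Or.inr (ren2_cut_drop F w i him.2)⟩)
      exact this.trans (mul_le_mul_of_nonneg_right hDB hH0)
    have s4 : ∑ w ∈ H, om F s a b w ≤ (1 + K * B) / (1 - ρ) := by
      rw [le_div_iff₀ (by linarith)]
      nlinarith [s1, s2, s3]
    -- all words
    set R : Finset Wo := (ren2C N).filter (fun w => Cut F w ≠ ∅) with hR
    have hB0 : 0 ≤ B := hE0.trans hEB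
    have s5 : ∑ w ∈ R, om F s a b w ≤ B * ((1 + K * B) / (1 - ρ)) := by
      have := ren2_split F s a b R E H
        (fun w => if h : (Cut F w).Nonempty then (Cut F w).min' h else 0) (by
        intro w hw
        rw [hR, mem_filter] at hw
        obtain ⟨hw1, hw2⟩ := hw
        have hne : (Cut F w).Nonempty := nonempty_iff_ne_empty.2 hw2
        simp only [dif_pos hne]
        set i := (Cut F w).min' hne with hi
        have him : i ∈ Cut F w := min'_mem _ _
        obtain ⟨t1, t2⟩ := htd w hw1 i
        constructor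
        · rw [hEd, mem_filter]
          refine ⟨t1, ?_⟩
          rw [eq_empty_iff_forall_notMem]
          intro j hj
          rw [ren2_cut_take F w i j him] at hj
          have : i ≤ j := min'_le _ _ hj.2
          omega
        · rw [hH, mem_filter]
          exact ⟨t2, Or.inr (ren2_cut_drop F w i him)⟩)
      exact this.trans (mul_le_mul hEB s4 hH0 hB0)
    rw [ren2_Gs]
    calc ∑ w ∈ (ren2C N).filter (fun _ => True), om F s a b w
        = ∑ w ∈ ren2C N, om F s a b w := by
          refine sum_congr ?_ fun _ _ => rfl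
          ext w
          simp only [mem_filter, and_true]
      _ = ∑ w ∈ E, om F s a b w + ∑ w ∈ R, om F s a b w := by
          rw [hEd, hR]
          exact (sum_filter_add_sum_filter_not _ _ _).symm
      _ ≤ _ := add_le_add hEB s5
  exact ⟨_, key⟩

end Pool.Agent.SUBB
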