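import Pool.Agent.SUBB.Stmts2
import Pool.Agent.SUBB.Basic
import Pool.Agent.SUBB.REN2

/-!
# The total weight of the blocks is smaller than one
-/

set_option autoImplicit false

namespace Pool.Agent.SUBB

open Finset Filter Topology
open Pool.Agent.Lib27

lemma blt_su_map (F : Frame) (w : Wo) : su F (w.map F.fT) = su F w := by
  induction w with
  | nil => simp
  | cons s w ih => rw [List.map_cons, su_cons, su_cons, ih, F.U_fT]

lemma blt_st_map (F : Frame) (w : Wo) : st F (w.map F.fT) = - st F w := by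
  induction w with
  | nil => simp
  | cons s w ih => rw [List.map_cons, st_cons, st_cons, ih, F.T_fT]; ring

/-- the symmetrised weight -/
lemma blt_sym (F : Frame) (v l : ℝ) (w : Wo) :
    (om F (Lm + l * v) l l w + om F (Lm + l * v) l l (w.map F.fT)) / 2 =
      Real.exp (-(Lm * w.length)) *
        (Real.exp (l * ((su F w : ℝ) - v * w.length)) * Real.cosh (l * st F w)) := by
  unfold om
  rw [blt_su_map, blt_st_map, List.length_map, Real.cosh_eq]
  have e1 : Real.exp (-((Lm + l * v) * (w.length : ℝ)) + l * (su F w : ℝ) + l * (st F w : ℝ)) =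
      Real.exp (-(Lm * w.length)) * (Real.exp (l * ((su F w : ℝ) - v * w.length)) *
        Real.exp (l * st F w)) := by
    rw [← Real.exp_add, ← Real.exp_add]
    congr 1
    ring
  have e2 : Real.exp (-((Lm + l * v) * (w.length : ℝ)) + l * (su F w : ℝ) +
      l * ((-st F w : ℤ) : ℝ)) =
      Real.exp (-(Lm * w.length)) * (Real.exp (l * ((su F w : ℝ) - v * w.length)) *
        Real.exp (-(l * st F w))) := by
    rw [← Real.exp_add, ← Real.exp_add]
    congr 1
    push_cast
    ring
  rw [e1, e2]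
  ring

lemma blt_cosh_le (x : ℝ) : Real.cosh x ≤ Real.exp |x| := by
  rw [← Real.cosh_abs, Real.cosh_eq]
  have h : Real.exp (-|x|) ≤ Real.exp |x| := Real.exp_le_exp.2 (by linarith [abs_nonneg x])
  linarith

theorem t_BLT (hP : PSB_Stmt) (hR : RBK_Stmt) (hK : BKU_Stmt) (hL : LRB_Stmt) (hI : LIM_Stmt)
    (hT : TRM_Stmt) (hS : BSY_Stmt) : BLT_Stmt := by
  classical
  intro F v₁ v₀ hv1 hv10 hv02 hth hthc l₁ hl₁
  set d : ℝ := (v₀ - v₁) / 8 with hd
  have hd0 : 0 < d := by rw [hd]; linarith
  set v₂ : ℝ := v₁ + 2 * d with hv2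
  set v₃ : ℝ := v₀ - d / 4 with hv3
  have hv3' : v₀ - (v₀ - v₁) / 32 = v₃ := by rw [hv3, hd]; ring
  have h23 : v₂ < v₃ := by rw [hv2, hv3, hd]; linarith
  have hv30 : 0 ≤ v₃ := by rw [hv3, hd]; linarith
  obtain ⟨θ, τ, θ0, θ1, τ0, hTRM⟩ := hT v₂ v₃ (d / 4) (by rw [hv2]; linarith) h23
    (by rw [hv3]; linarith) (by linarith)
  obtain ⟨lB, η, lB0, η0, hBKU⟩ := hK F v₁ v₂ (by rw [hv2]; linarith) hth
  have hthP : Thin (fun w => Blk F w ∧
      (v₀ - d / 2) * (w.length : ℝ) ≤ (su F w : ℝ) + |(st F w : ℝ)|) :=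
    hR F (v₀ - d) (v₀ - d / 2) (by linarith) hthc
  obtain ⟨lR, c, K, lR0, c0, K0, hLRB⟩ := hL _ τ τ0 hthP
  obtain ⟨l, l0, hll, hlt⟩ := hI θ η c K θ0 θ1 η0 c0 K0 (min l₁ (min (θ * lB) lR))
    (lt_min hl₁ (lt_min (mul_pos θ0 lB0) lR0))
  have hl1 : l ≤ l₁ := hll.trans (min_le_left _ _)
  have hl2 : l / θ ≤ lB := by
    rw [div_le_iff₀ θ0, mul_comm]
    exact hll.trans ((min_le_right _ _).trans (min_le_left _ _))
  have hl3 : l ≤ lR := hll.trans ((min_le_right _ _).trans (min_le_right _ _))
  refine ⟨l, _, l0, hl1, hlt, ?_⟩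
  intro N
  rw [hv3']
  have hsymm := (hS F).2 (om F (Lm + l * v₃) l l) N
  set C : Finset Wo := ren2C N with hC
  set Q : Wo → Prop := fun w => (Blk F w ∧
      (v₀ - d / 2) * (w.length : ℝ) ≤ (su F w : ℝ) + |(st F w : ℝ)|) ∧
      τ < l * (w.length : ℝ) with hQ
  set g : Wo → ℝ := fun w => Real.exp (-(Lm * (w.length : ℝ)) + 2 * l * (w.length : ℝ)) with hg
  have b1 := hP F N
  have b2 := hBKU (l / θ) (div_pos l0 θ0) hl2 N
  have b3 : Gs Q g N ≤ K * Real.exp (-(c / l)) := hLRB l l0 hl3 N
  rw [ren2_Gs] at hsymm b1 b2 b3 ⊢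
  rw [ren2_Gs] at hsymm
  have hterm : ∀ w ∈ C.filter (Blk F),
      (om F (Lm + l * v₃) l l w + om F (Lm + l * v₃) l l (w.map F.fT)) / 2 ≤
      (1 - θ) * om F Lm 0 0 w + θ * om F (Lm + l / θ * v₂) (l / θ) 0 w +
        (if Q w then g w else 0) := by
    intro w hw
    have hblk : Blk F w := (mem_filter.1 hw).2
    have hlen : 0 < w.length := by
      have h0 : 0 ∈ Cut F w := by rw [hblk.1]; exact mem_singleton_self 0
      exact ((mem_Cut F w 0).1 h0).1
    have hlen' : (0 : ℝ) < (w.length : ℝ) := by exact_mod_cast hlen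
    have hu : |(su F w : ℝ)| ≤ (w.length : ℝ) := by exact_mod_cast abs_su_le F w
    have ht : |(st F w : ℝ)| ≤ (w.length : ℝ) := by exact_mod_cast abs_st_le F w
    rw [blt_sym]
    have o1 : om F Lm 0 0 w = Real.exp (-(Lm * w.length)) := by
      unfold om; congr 1; ring
    have o2 : om F (Lm + l / θ * v₂) (l / θ) 0 w = Real.exp (-(Lm * w.length)) *
        Real.exp (l / θ * ((su F w : ℝ) - v₂ * w.length)) := by
      unfold om
      rw [← Real.exp_add]
      congr 1
      ring
    by_cases hcase : l * (w.length : ℝ) ≤ τ ∨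
        (su F w : ℝ) + |(st F w : ℝ)| ≤ (v₃ - d / 4) * (w.length : ℝ)
    · have h := hTRM l (w.length : ℝ) (su F w : ℝ) (st F w : ℝ) l0 hlen' hu ht hcase
      have hnn : 0 ≤ (if Q w then g w else 0) := by
        split_ifs
        · exact (Real.exp_pos _).le
        · exact le_rfl
      have h2 := mul_le_mul_of_nonneg_left h (Real.exp_pos (-(Lm * w.length))).le
      rw [o1, o2]
      calc Real.exp (-(Lm * w.length)) * (Real.exp (l * ((su F w : ℝ) - v₃ * w.length)) *
            Real.cosh (l * (st F w : ℝ)))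
          ≤ Real.exp (-(Lm * w.length)) * (1 - θ +
              θ * Real.exp (l / θ * ((su F w : ℝ) - v₂ * w.length))) := h2
        _ = (1 - θ) * Real.exp (-(Lm * w.length)) + θ * (Real.exp (-(Lm * w.length)) *
            Real.exp (l / θ * ((su F w : ℝ) - v₂ * w.length))) := by ring
        _ ≤ _ := le_add_of_nonneg_right hnn
    · push Not at hcase
      have hQw : Q w := by
        refine ⟨⟨hblk, ?_⟩, hcase.1⟩
        have h := hcase.2
        have e : v₃ - d / 4 = v₀ - d / 2 := by rw [hv3]; ring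
        rw [e] at h
        exact h.le
      rw [if_pos hQw]
      have h1 : 0 ≤ (1 - θ) * om F Lm 0 0 w + θ * om F (Lm + l / θ * v₂) (l / θ) 0 w := by
        have := (om_pos F Lm 0 0 w).le
        have := (om_pos F (Lm + l / θ * v₂) (l / θ) 0 w).le
        have : 0 ≤ 1 - θ := by linarith
        positivity
      have h2 : Real.exp (-(Lm * w.length)) *
          (Real.exp (l * ((su F w : ℝ) - v₃ * w.length)) * Real.cosh (l * (st F w : ℝ))) ≤
          g w := by
        rw [hg]
        simp only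
        rw [Real.exp_add]
        apply mul_le_mul_of_nonneg_left _ (Real.exp_pos _).le
        calc Real.exp (l * ((su F w : ℝ) - v₃ * w.length)) * Real.cosh (l * (st F w : ℝ))
            ≤ Real.exp (l * ((su F w : ℝ) - v₃ * w.length)) * Real.exp |l * (st F w : ℝ)| :=
              mul_le_mul_of_nonneg_left (blt_cosh_le _) (Real.exp_pos _).le
          _ = Real.exp (l * ((su F w : ℝ) - v₃ * w.length) + |l * (st F w : ℝ)|) := by
              rw [Real.exp_add]
          _ ≤ Real.exp (2 * l * w.length) := by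
              apply Real.exp_le_exp.2
              rw [abs_mul, abs_of_pos l0]
              have i1 : (su F w : ℝ) ≤ w.length := (abs_le.1 hu).2
              have i2 : 0 ≤ v₃ * (w.length : ℝ) := by positivity
              have i3 : (su F w : ℝ) - v₃ * w.length + |(st F w : ℝ)| ≤ 2 * w.length := by
                linarith
              calc l * ((su F w : ℝ) - v₃ * w.length) + l * |(st F w : ℝ)|
                  = l * ((su F w : ℝ) - v₃ * w.length + |(st F w : ℝ)|) := by ring
                _ ≤ l * (2 * w.length) := mul_le_mul_of_nonneg_left i3 l0.le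
                _ = _ := by ring
      linarith
  have hsum := sum_le_sum hterm
  rw [sum_add_distrib, sum_add_distrib, ← mul_sum, ← mul_sum, ← sum_div, sum_add_distrib,
    hsymm] at hsum
  have hq : ∑ w ∈ C.filter (Blk F), (if Q w then g w else 0) ≤ K * Real.exp (-(c / l)) := by
    rw [← sum_filter]
    refine le_trans ?_ b3
    apply sum_le_sum_of_subset_of_nonneg
    · intro w hw
      rw [mem_filter] at hw
      exact mem_filter.2 ⟨(mem_filter.1 hw.1).1, hw.2⟩
    · intro w _ _
      exact (Real.exp_pos _).le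
  have h1 := mul_le_mul_of_nonneg_left b1 (by linarith : (0 : ℝ) ≤ 1 - θ)
  have h2 := mul_le_mul_of_nonneg_left b2 θ0.le
  linarith

end Pool.Agent.SUBB
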