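import Pool.Agent.SUBB.MAP

set_option autoImplicit false

namespace Pool.Agent.SUBB

open Finset Filter Topology
open Pool.Agent.Lib27

lemma Cut_map_fT (F : Frame) (w : Wo) : Cut F (w.map F.fT) = Cut F w := by
  ext i
  rw [mem_Cut, mem_Cut]
  simp only [pu_map_fT, List.length_map]

lemma map_fT_fT (F : Frame) (w : Wo) : (w.map F.fT).map F.fT = w := by
  rw [List.map_map]
  have : F.fT ∘ F.fT = id := funext fun s => F.fT_fT s
  rw [this, List.map_id]

theorem t_BSY (hM : MAP_Stmt) : BSY_Stmt := by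
  classical
  intro F
  have hB : ∀ w : Wo, Blk F (w.map F.fT) ↔ Blk F w := by
    intro w
    unfold Blk
    rw [Cut_map_fT, List.length_map]
    simp only [pu_map_fT, su_map_fT]
  refine ⟨hB, fun ω N => ?_⟩
  unfold Gs
  refine Finset.sum_congr rfl fun n _ => ?_
  have hmem : ∀ w ∈ (Cs n).filter (Blk F), w.map F.fT ∈ (Cs n).filter (Blk F) := by
    intro w hw
    rw [mem_filter] at hw ⊢
    exact ⟨(hM F n w).1.2 hw.1, (hB w).2 hw.2⟩
  refine Finset.sum_nbij' (fun w => w.map F.fT) (fun w => w.map F.fT) hmem hmem ?_ ?_ ?_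
  · intro w _
    exact map_fT_fT F w
  · intro w _
    exact map_fT_fT F w
  · intro w _
    rfl

end Pool.Agent.SUBB
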