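import Pool.Agent.SUBB.Defs

/-!
# Self-avoiding walks are sub-ballistic: statements of the modules

See `PAPER.md`.
-/

set_option autoImplicit false

namespace Pool.Agent.SUBB

open Finset Filter Topology
open Pool.Agent.Lib27

/-! ### basic facts -/

/-- self-avoidance does not depend on the frame -/
def LNK_Stmt : Prop := ∀ (F : Frame) (w : Wo), SAWs w ↔ SA F w

/-- the lattice symmetries preserve the self-avoiding words -/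
def MAP_Stmt : Prop := ∀ (F : Frame) (n : ℕ) (w : Wo),
  (w.map F.fT ∈ Cs n ↔ w ∈ Cs n) ∧ (w.map F.sw ∈ Cs n ↔ w ∈ Cs n) ∧
    (w.map F.fU ∈ Cs n ↔ w ∈ Cs n)

/-- upper bound for the number of self-avoiding words -/
def CSU_Stmt : Prop := ∀ ε : ℝ, 0 < ε → ∃ C : ℝ, 0 < C ∧ ∀ n : ℕ,
  ((Cs n).card : ℝ) ≤ C * Real.exp ((Lm + ε) * n)

/-! ### unfolding -/

/-- one unfolding: self-avoidance and displacement -/
def UNF_Stmt : Prop := ∀ (F : Frame) (w : Wo) (q : ℕ × ℕ), SA F w → q ∈ V F w →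
  SA F (flp F (Ico q.1 q.2) w) ∧
  su F (flp F (Ico q.1 q.2) w) = su F w + 2 * sz F w q ∧
  st F (flp F (Ico q.1 q.2) w) = st F w

/-- one unfolding: the other backtracks stay -/
def UNV_Stmt : Prop := ∀ (F : Frame) (w : Wo) (q r : ℕ × ℕ), q ∈ V F w → r ∈ V F w → r ≠ q →
  r ∈ V F (flp F (Ico q.1 q.2) w) ∧ sz F (flp F (Ico q.1 q.2) w) r = sz F w r ∧
  Disjoint (Ico q.1 q.2) (Ico r.1 r.2)

/-- one unfolding: the cut times -/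
def UNC_Stmt : Prop := ∀ (F : Frame) (w : Wo) (q : ℕ × ℕ), q ∈ V F w →
  Cut F w ⊆ Cut F (flp F (Ico q.1 q.2) w) ∧
  q.1 ∈ Cut F (flp F (Ico q.1 q.2) w) ∧ q.2 - 1 ∈ Cut F (flp F (Ico q.1 q.2) w) ∧
  (Cut F (flp F (Ico q.1 q.2) w)).card ≤ (Cut F w).card + 3 * sz F w q

/-- several unfoldings at once -/
def MUL_Stmt : Prop := ∀ (F : Frame) (w : Wo) (S : Finset (ℕ × ℕ)), SA F w → S ⊆ V F w →
  SA F (flp F (cov S) w) ∧
  su F (flp F (cov S) w) = su F w + 2 * ((∑ q ∈ S, sz F w q : ℕ) : ℤ) ∧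
  st F (flp F (cov S) w) = st F w ∧
  (∀ q ∈ S, q.1 ∈ Cut F (flp F (cov S) w) ∧ q.2 - 1 ∈ Cut F (flp F (cov S) w)) ∧
  (Cut F (flp F (cov S) w)).card ≤ (Cut F w).card + 3 * ∑ q ∈ S, sz F w q

/-- without cut times the backtracks cover all levels -/
def COV_Stmt : Prop := ∀ (F : Frame) (w : Wo), Cut F w = ∅ →
  su F w ≤ ((∑ q ∈ V F w, sz F w q : ℕ) : ℤ)

/-! ### counting -/

/-- boundaries determine sets of times -/
def BDI_Stmt : Prop := ∀ (N : ℕ) (A B : Finset ℕ), A ⊆ range N → B ⊆ range N →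
  bd A N = bd B N → A = B

/-- the boundary of the set of covered times -/
def BDC_Stmt : Prop := ∀ (N : ℕ) (S : Finset (ℕ × ℕ)), (∀ q ∈ S, q.1 < q.2 ∧ q.2 ≤ N) →
  bd (cov S) N ⊆ S.image Prod.fst ∪ S.image Prod.snd

/-- few small subsets -/
def ENT_Stmt : Prop := ∀ ε : ℝ, 0 < ε → ∃ L₀ : ℕ, 0 < L₀ ∧ ∀ L : ℕ, L₀ ≤ L →
  ∃ C : ℝ, 0 < C ∧ ∀ n : ℕ, (NB (n + 1) (2 * (n / L)) : ℝ) ≤ C * Real.exp (ε * n)

open Classical in
/-- unfolding all large backtracks -/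
def LRG_Stmt : Prop := ∀ (F : Frame) (n L : ℕ), 0 < L → ∀ a D : ℝ,
  ((((Cs n).filter (fun w => a ≤ ((su F w + st F w : ℤ) : ℝ) ∧
      D ≤ ((∑ q ∈ (V F w).filter (fun q => L ≤ sz F w q), sz F w q : ℕ) : ℝ))).card : ℕ) : ℝ) ≤
    (NB (n + 1) (2 * (n / L)) : ℝ) *
      (((Cs n).filter (fun w => a + 2 * D ≤ ((su F w + st F w : ℤ) : ℝ))).card : ℝ)

open Classical in
/-- unfolding some of the small backtracks of the words without cut time -/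
def SML_Stmt : Prop := ∀ (F : Frame) (n L : ℕ), 0 < L →
  ∑ w ∈ (Cs n).filter (fun w => Cut F w = ∅),
    (1 + (1 / 64 : ℝ) ^ L) ^ ((V F w).filter (fun q => sz F w q < L)).card ≤ ((Cs n).card : ℝ)

/-- words without cut times and large displacement are rare -/
def NCT_Stmt : Prop := ∀ (F : Frame) (v₁ v₀ : ℝ), 0 ≤ v₁ → v₁ < v₀ → v₀ ≤ 2 →
  (∀ v, v₁ < v → Thin (fun w => v * (w.length : ℝ) ≤ (su F w : ℝ))) →
  (∀ v, v₀ < v → Thin (fun w => v * (w.length : ℝ) ≤ ((su F w + st F w : ℤ) : ℝ))) →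
  Thin (fun w => Cut F w = ∅ ∧
    (v₀ - (v₀ - v₁) / 8) * (w.length : ℝ) ≤ ((su F w + st F w : ℤ) : ℝ))

/-! ### renewal -/

/-- the total weight of the blocks is at most one as soon as the total weight of all words is
finite -/
def REN1_Stmt : Prop := ∀ (F : Frame) (s a b : ℝ),
  (∃ B : ℝ, ∀ N : ℕ, Gs (fun _ => True) (om F s a b) N ≤ B) →
  ∀ N : ℕ, Gs (Blk F) (om F s a b) N ≤ 1

/-- and conversely -/
def REN2_Stmt : Prop := ∀ (F : Frame) (s a b ρ : ℝ), ρ < 1 →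
  (∀ N : ℕ, Gs (Blk F) (om F s a b) N ≤ ρ) →
  (∃ B : ℝ, ∀ N : ℕ, Gs (fun w => Cut F w = ∅) (om F s a b) N ≤ B) →
  ∃ B : ℝ, ∀ N : ℕ, Gs (fun _ => True) (om F s a b) N ≤ B

/-- the blocks are symmetric -/
def BSY_Stmt : Prop := ∀ (F : Frame),
  (∀ w : Wo, Blk F (w.map F.fT) ↔ Blk F w) ∧
  ∀ (ω : Wo → ℝ) (N : ℕ), Gs (Blk F) (fun w => ω (w.map F.fT)) N = Gs (Blk F) ω N

/-! ### exponential moments -/

/-- rare events have exponential moments -/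
def TS1_Stmt : Prop := ∀ ψ : Wo → ℝ, (∀ w, |ψ w| ≤ 2 * (w.length : ℝ)) → ∀ v v' : ℝ, v < v' →
  (∀ v'', v < v'' → Thin (fun w => v'' * (w.length : ℝ) ≤ ψ w)) →
  ∃ l₀ : ℝ, 0 < l₀ ∧ ∀ l : ℝ, 0 < l → l ≤ l₀ → ∃ B : ℝ, ∀ N : ℕ,
    Gs (fun _ => True)
      (fun w => Real.exp (-((Lm + l * v') * (w.length : ℝ)) + l * ψ w)) N ≤ B

/-- and conversely -/
def TS2_Stmt : Prop := ∀ (ψ : Wo → ℝ) (v l : ℝ), 0 < l →
  (∃ B : ℝ, ∀ N : ℕ, Gs (fun _ => True)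
      (fun w => Real.exp (-((Lm + l * v) * (w.length : ℝ)) + l * ψ w)) N ≤ B) →
  ∀ v', v < v' → Thin (fun w => v' * (w.length : ℝ) ≤ ψ w)

/-- the inequality between exponentials -/
def TRM_Stmt : Prop := ∀ v₂ v₃ δ : ℝ, 0 ≤ v₂ → v₂ < v₃ → v₃ ≤ 2 → 0 < δ →
  ∃ θ τ : ℝ, 0 < θ ∧ θ < 1 ∧ 0 < τ ∧ ∀ lam l u t : ℝ, 0 < lam → 0 < l → |u| ≤ l → |t| ≤ l →
    (lam * l ≤ τ ∨ u + |t| ≤ (v₃ - δ) * l) →
    Real.exp (lam * (u - v₃ * l)) * Real.cosh (lam * t) ≤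
      (1 - θ) + θ * Real.exp (lam / θ * (u - v₂ * l))

/-- one improvement of the threshold of `u + t` -/
def GST_Stmt : Prop := ∀ (F : Frame) (v₁ v₀ : ℝ), 0 ≤ v₁ → v₁ < v₀ → v₀ ≤ 2 →
  (∀ v, v₁ < v → Thin (fun w => v * (w.length : ℝ) ≤ (su F w : ℝ))) →
  (∀ v, v₀ < v → Thin (fun w => v * (w.length : ℝ) ≤ ((su F w + st F w : ℤ) : ℝ))) →
  ∃ δ : ℝ, 0 < δ ∧
    Thin (fun w => (v₀ - δ) * (w.length : ℝ) ≤ ((su F w + st F w : ℤ) : ℝ))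

/-- the threshold of `u + t` is at most the threshold of `u` -/
def THR_Stmt : Prop := ∀ (F : Frame) (v₁ : ℝ), 0 ≤ v₁ →
  (∀ v, v₁ < v → Thin (fun w => v * (w.length : ℝ) ≤ (su F w : ℝ))) →
  ∀ v, v₁ < v → Thin (fun w => v * (w.length : ℝ) ≤ ((su F w + st F w : ℤ) : ℝ))

/-- self-avoiding walks are sub-ballistic -/
def SBW_Stmt : Prop := ∀ v : ℝ, 0 < v →
  Thin (fun w => v * (w.length : ℝ) ≤ (((ep 0 w).1 + (ep 0 w).2 : ℤ) : ℝ))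

end Pool.Agent.SUBB
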