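import Pool.Agent.SUBB.Basic
import Pool.Agent.SUBB.Stmts

/-!
# SUBB, module COV: without cut times the backtracks cover all levels
-/

set_option autoImplicit false

namespace Pool.Agent.SUBB

open Finset Filter Topology
open Pool.Agent.Lib27

/-- every level is covered by a backtrack -/
lemma COV_level (F : Frame) (w : Wo) (hcut : Cut F w = ∅) (c : ℤ) (hc0 : 0 ≤ c)
    (hc : c < su F w) : ∃ q ∈ V F w, pu F w q.2 ≤ c ∧ c < pu F w q.1 := by
  classical
  -- first time above `c`
  have hex : ∃ i, c + 1 ≤ pu F w i := ⟨w.length, by rw [pu_length]; omega⟩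
  obtain ⟨i, hi, hmin⟩ : ∃ i, c + 1 ≤ pu F w i ∧ ∀ a < i, pu F w a ≤ c := by
    refine ⟨Nat.find hex, Nat.find_spec hex, fun a ha => ?_⟩
    have := Nat.find_min hex ha
    omega
  have hin : i ≤ w.length := by
    by_contra h
    have h1 := hmin w.length (by omega)
    rw [pu_length] at h1
    omega
  have hi0 : i ≠ 0 := by
    rintro rfl
    rw [pu_zero] at hi
    omega
  obtain ⟨i', rfl⟩ := Nat.exists_eq_succ_of_ne_zero hi0
  have h1 := hmin i' (Nat.lt_succ_self i')
  have h2 := pu_succ_le F w i'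
  have h2' : pu F w (i' + 1) ≤ pu F w i' + 1 := h2
  have h3 : c + 1 ≤ pu F w (i' + 1) := hi
  have h4 : pu F w i' = c := by omega
  -- a later time below
  obtain ⟨a, ha1, ha2, ha3⟩ : ∃ a, i' < a ∧ a ≤ w.length ∧ pu F w a ≤ c := by
    by_contra hcon
    push Not at hcon
    have h5 : i' ∈ Cut F w := by
      rw [mem_Cut]
      refine ⟨by omega, fun a ha => ?_, fun a ha hb => ?_⟩
      · have := hmin a (by omega)
        omega
      · have := hcon a ha hb
        omega
    rw [hcut] at h5
    exact absurd h5 (notMem_empty _)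
  -- the minimum
  obtain ⟨k1, hk1, hk1min⟩ := Finset.exists_min_image (Icc (i' + 1) w.length) (pu F w)
    ⟨a, by rw [mem_Icc]; omega⟩
  rw [mem_Icc] at hk1
  have hmc : pu F w k1 ≤ c := (hk1min a (by rw [mem_Icc]; omega)).trans ha3
  -- the maximum
  obtain ⟨j1, hj1, hj1max⟩ := Finset.exists_max_image (range (k1 + 1)) (pu F w)
    ⟨0, by rw [mem_range]; omega⟩
  have hMc : c + 1 ≤ pu F w j1 := h3.trans (hj1max (i' + 1) (by rw [mem_range]; omega))
  obtain ⟨j, hj, hjmax⟩ := Finset.exists_max_image
    ((range (k1 + 1)).filter (fun b => pu F w b = pu F w j1)) id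
    ⟨j1, by rw [mem_filter]; exact ⟨hj1, rfl⟩⟩
  rw [mem_filter, mem_range] at hj
  have hji : i' + 1 ≤ j := by
    by_contra h
    have := hmin j (by omega)
    omega
  obtain ⟨k, hk, hkmin⟩ := Finset.exists_min_image
    ((Icc j w.length).filter (fun b => pu F w b = pu F w k1)) id
    ⟨k1, by rw [mem_filter, mem_Icc]; exact ⟨⟨by omega, hk1.2⟩, rfl⟩⟩
  rw [mem_filter, mem_Icc] at hk
  have hkk1 : k ≤ k1 := hkmin k1 (by rw [mem_filter, mem_Icc]; exact ⟨⟨by omega, hk1.2⟩, rfl⟩)
  have hjk : j < k := by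
    rcases Nat.lt_or_ge j k with h | h
    · exact h
    · have : j = k := le_antisymm hk.1.1 h
      subst this
      omega
  refine ⟨(j, k), ?_, ?_, ?_⟩
  · rw [mem_V]
    refine ⟨hjk, hk.1.2, fun b hb => ?_, fun b hb hb2 => ?_, fun b hb hb2 => ?_,
      fun b hb hb2 => ?_⟩
    · have := hj1max b (by rw [mem_range]; have : b ≤ j := hb; omega)
      change pu F w b ≤ pu F w j
      omega
    · change j < b at hb
      change b ≤ k at hb2
      change pu F w b < pu F w j
      have h5 := hj1max b (by rw [mem_range]; omega)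
      rcases lt_or_eq_of_le h5 with h6 | h6
      · omega
      · have h7 := hjmax b (by rw [mem_filter, mem_range]; exact ⟨by omega, h6⟩)
        change b ≤ j at h7
        omega
    · change j ≤ b at hb
      change b < k at hb2
      change pu F w k < pu F w b
      have h5 := hk1min b (by rw [mem_Icc]; omega)
      rcases lt_or_eq_of_le h5 with h6 | h6
      · omega
      · have h7 := hkmin b (by rw [mem_filter, mem_Icc]; exact ⟨⟨hb, by omega⟩, h6.symm⟩)
        change k ≤ b at h7
        omega
    · change k ≤ b at hb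
      change pu F w k ≤ pu F w b
      have h5 := hk1min b (by rw [mem_Icc]; omega)
      omega
  · change pu F w k ≤ c
    omega
  · change c < pu F w j
    omega

theorem t_COV : COV_Stmt := by
  classical
  intro F w hcut
  have h1 : Ico 0 (su F w) ⊆ (V F w).biUnion (fun q => Ico (pu F w q.2) (pu F w q.1)) := by
    intro c hc
    rw [mem_Ico] at hc
    obtain ⟨q, hq, h2, h3⟩ := COV_level F w hcut c hc.1 hc.2
    rw [mem_biUnion]
    exact ⟨q, hq, by rw [mem_Ico]; exact ⟨h2, h3⟩⟩
  have h2 := (card_le_card h1).trans card_biUnion_le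
  have h3 : ∑ q ∈ V F w, (Ico (pu F w q.2) (pu F w q.1)).card = ∑ q ∈ V F w, sz F w q := by
    refine sum_congr rfl fun q _ => ?_
    rw [Int.card_Ico]
    rfl
  rw [h3, Int.card_Ico, sub_zero] at h2
  have h4 : su F w ≤ ((su F w).toNat : ℤ) := Int.self_le_toNat _
  exact h4.trans (by exact_mod_cast h2)

end Pool.Agent.SUBB
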