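import Pool.Agent.SUBB.Stmts
import Pool.Agent.SUBB.Basic

set_option autoImplicit false

namespace Pool.Agent.SUBB

open Finset Filter Topology
open Pool.Agent.Lib27

theorem t_CSU : CSU_Stmt := by
  intro ε hε
  have h1 := tendsto_cs.eventually (gt_mem_nhds (show Lm < Lm + ε by linarith))
  obtain ⟨n0, h2⟩ := eventually_atTop.1 h1
  refine ⟨4 ^ (n0 + 1), by positivity, fun n => ?_⟩
  have hL := Lm_nonneg
  have hC : (1 : ℝ) ≤ 4 ^ (n0 + 1) := one_le_pow₀ (by norm_num)
  by_cases hn : n0 + 1 ≤ n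
  · have h3 := h2 n (by omega)
    have hn0 : (0 : ℝ) < n := by exact_mod_cast (by omega : 0 < n)
    rw [div_lt_iff₀ hn0] at h3
    have hc : (0 : ℝ) < (Cs n).card := by exact_mod_cast (Cs_pos n)
    have h4 : ((Cs n).card : ℝ) ≤ Real.exp ((Lm + ε) * n) := by
      rw [← Real.exp_log hc]
      exact Real.exp_le_exp.2 h3.le
    exact h4.trans (le_mul_of_one_le_left (Real.exp_pos _).le hC)
  · have h5 : ((Cs n).card : ℝ) ≤ 4 ^ n := by exact_mod_cast Cs_le n
    have h6 : (4 : ℝ) ^ n ≤ 4 ^ (n0 + 1) := pow_le_pow_right₀ (by norm_num) (by omega)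
    have h7 : (1 : ℝ) ≤ Real.exp ((Lm + ε) * n) := Real.one_le_exp (by positivity)
    exact (h5.trans h6).trans (le_mul_of_one_le_right (by positivity) h7)

end Pool.Agent.SUBB
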