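import Pool.Agent.SUBB.Stmts

/-!
# Module ENT: few small subsets
-/

set_option autoImplicit false

namespace Pool.Agent.SUBB

open Finset Filter Topology
open Pool.Agent.Lib27

/-- Chernoff bound for the number of small subsets -/
lemma NB_le (N m : ℕ) (x : ℝ) (hx : 0 < x) (hx1 : x ≤ 1) :
    (NB N m : ℝ) * x ^ m ≤ (1 + x) ^ N := by
  classical
  have h1 : ∑ A ∈ (range N).powerset, x ^ A.card = (1 + x) ^ N := by
    have h := Finset.sum_pow_mul_eq_add_pow x 1 (range N)
    simp only [one_pow, mul_one, card_range] at h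
    rw [h, add_comm]
  rw [← h1]
  unfold NB
  rw [← nsmul_eq_mul]
  calc ((range N).powerset.filter (fun A => A.card ≤ m)).card • x ^ m
      ≤ ∑ A ∈ (range N).powerset.filter (fun A => A.card ≤ m), x ^ A.card := by
        apply Finset.card_nsmul_le_sum
        intro A hA
        exact pow_le_pow_of_le_one hx.le hx1 (mem_filter.1 hA).2
    _ ≤ _ := by
        apply Finset.sum_le_sum_of_subset_of_nonneg (filter_subset _ _)
        intro A _ _
        positivity

theorem t_ENT : ENT_Stmt := by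
  intro ε hε
  have hlim : Tendsto (fun L : ℕ => 2 * (Real.log L / L) + 1 / (L : ℝ)) atTop (𝓝 0) := by
    have h1 : Tendsto (fun x : ℝ => Real.log x ^ 1 / (1 * x + 0)) atTop (𝓝 0) :=
      Real.tendsto_pow_log_div_mul_add_atTop 1 0 1 one_ne_zero
    have h2 : Tendsto (fun x : ℝ => Real.log x / x) atTop (𝓝 0) := by
      refine h1.congr fun x => ?_
      simp
    have h3 := (h2.comp tendsto_natCast_atTop_atTop)
    have h4 : Tendsto (fun L : ℕ => 1 / (L : ℝ)) atTop (𝓝 0) := tendsto_one_div_atTop_nhds_zero_nat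
    have h5 := (h3.const_mul 2).add h4
    simpa using h5
  obtain ⟨L₁, hL₁⟩ := eventually_atTop.1 (hlim.eventually (gt_mem_nhds hε))
  refine ⟨max L₁ 1, by positivity, fun L hL => ?_⟩
  have hL1 : L₁ ≤ L := (le_max_left _ _).trans hL
  have hLpos : 0 < L := lt_of_lt_of_le one_pos ((le_max_right _ _).trans hL)
  have hLR : (0 : ℝ) < L := by exact_mod_cast hLpos
  have hL1R : (1 : ℝ) ≤ L := by exact_mod_cast hLpos
  have hb := hL₁ L hL1
  refine ⟨Real.exp 1, Real.exp_pos _, fun n => ?_⟩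
  have h := NB_le (n + 1) (2 * (n / L)) (1 / L) (by positivity) (by
    rw [div_le_one hLR]; exact hL1R)
  have hlog : 0 ≤ Real.log L := Real.log_nonneg hL1R
  -- the power of `L`
  have h1 : ((L : ℝ)) ^ (2 * (n / L)) ≤ Real.exp (2 * (Real.log L / L) * n) := by
    have hq : ((n / L : ℕ) : ℝ) ≤ (n : ℝ) / L := Nat.cast_div_le
    calc ((L : ℝ)) ^ (2 * (n / L)) = Real.exp (Real.log L * ((2 * (n / L) : ℕ) : ℝ)) := by
          rw [mul_comm (Real.log (L : ℝ)), Real.exp_nat_mul, Real.exp_log hLR]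
      _ ≤ _ := by
          apply Real.exp_le_exp.2
          push_cast
          calc Real.log L * (2 * ((n / L : ℕ) : ℝ)) ≤ Real.log L * (2 * ((n : ℝ) / L)) := by
                apply mul_le_mul_of_nonneg_left _ hlog
                linarith
            _ = _ := by ring
  have h2 : (1 + 1 / (L : ℝ)) ^ (n + 1) ≤ Real.exp (1 / (L : ℝ) * (n + 1)) := by
    have h3 : 1 + 1 / (L : ℝ) ≤ Real.exp (1 / (L : ℝ)) := by
      rw [add_comm]; exact Real.add_one_le_exp _
    calc (1 + 1 / (L : ℝ)) ^ (n + 1) ≤ (Real.exp (1 / (L : ℝ))) ^ (n + 1) :=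
          pow_le_pow_left₀ (by positivity) h3 _
      _ = _ := by
          rw [← Real.exp_nat_mul]
          push_cast
          ring_nf
  have h4 : (NB (n + 1) (2 * (n / L)) : ℝ) ≤
      ((L : ℝ)) ^ (2 * (n / L)) * (1 + 1 / (L : ℝ)) ^ (n + 1) := by
    rw [one_div_pow, mul_one_div, div_le_iff₀ (by positivity)] at h
    linarith
  calc (NB (n + 1) (2 * (n / L)) : ℝ)
      ≤ ((L : ℝ)) ^ (2 * (n / L)) * (1 + 1 / (L : ℝ)) ^ (n + 1) := h4
    _ ≤ Real.exp (2 * (Real.log L / L) * n) * Real.exp (1 / (L : ℝ) * (n + 1)) :=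
        mul_le_mul h1 h2 (by positivity) (Real.exp_pos _).le
    _ = Real.exp (2 * (Real.log L / L) * n + 1 / (L : ℝ) * (n + 1)) := by rw [Real.exp_add]
    _ ≤ Real.exp (1 + ε * n) := by
        apply Real.exp_le_exp.2
        have h5 : 1 / (L : ℝ) ≤ 1 := by rw [div_le_one hLR]; exact hL1R
        have h6 : (2 * (Real.log L / L) + 1 / (L : ℝ)) * n ≤ ε * n :=
          mul_le_mul_of_nonneg_right hb.le (Nat.cast_nonneg _)
        nlinarith
    _ = _ := by rw [Real.exp_add]

end Pool.Agent.SUBB
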