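import Pool.Agent.SUBB.Stmts2
import Pool.Agent.SUBB.Basic

/-!
# Improvement of the threshold
-/

set_option autoImplicit false

namespace Pool.Agent.SUBB

open Finset Filter Topology
open Pool.Agent.Lib27

/-- GST. -/
theorem t_GST (hNCT : NCT_Stmt) (hNCF : NCF_Stmt) (hBLT : BLT_Stmt) (hREN2 : REN2_Stmt)
    (hTS2 : TS2_Stmt) : GST_Stmt := by
  intro F v₁ v₀ h1 h10 h0 hU hUT
  have hT := hNCT F v₁ v₀ h1 h10 h0 hU hUT
  obtain ⟨l₀, hl₀, hNC⟩ := hNCF F (v₀ - (v₀ - v₁) / 8) (v₀ - (v₀ - v₁) / 32) (by linarith)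
    (by linarith) hT
  obtain ⟨l, ρ, hl, hll, hρ, hB⟩ := hBLT F v₁ v₀ h1 h10 h0 hU hT l₀ hl₀
  obtain ⟨B, hG⟩ := hREN2 F _ l l ρ hρ hB (hNC l hl hll)
  refine ⟨(v₀ - v₁) / 64, by linarith, ?_⟩
  refine hTS2 (fun w => ((su F w + st F w : ℤ) : ℝ)) (v₀ - (v₀ - v₁) / 32) l hl ⟨B, ?_⟩
    (v₀ - (v₀ - v₁) / 64) (by linarith)
  intro N
  have h2 : (fun w : Wo => Real.exp (-((Lm + l * (v₀ - (v₀ - v₁) / 32)) * (w.length : ℝ)) +
      l * ((su F w + st F w : ℤ) : ℝ))) = om F (Lm + l * (v₀ - (v₀ - v₁) / 32)) l l := by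
    funext w
    unfold om
    congr 1
    push_cast
    ring
  rw [h2]
  exact hG N

end Pool.Agent.SUBB
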