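import Pool.Agent.SUBB.Stmts2

/-! MODULE SUBB_LIM: a one-variable inequality. -/

set_option autoImplicit false

namespace Pool.Agent.SUBB

/-- LIM. -/
theorem t_LIM : LIM_Stmt := by
  intro θ η c K hθ hθ1 hη hc hK l₁ hl₁
  have _ := hθ1
  have hK1 : 0 < 8 * (K + 1) := by linarith
  obtain ⟨l, hl⟩ : ∃ l, l = min l₁ (min (θ / η) (η * c ^ 2 / (8 * (K + 1)))) := ⟨_, rfl⟩
  have hl0 : 0 < l := by
    rw [hl]
    exact lt_min hl₁ (lt_min (by positivity) (by positivity))
  have hl1 : l ≤ l₁ := by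
    rw [hl]
    exact min_le_left _ _
  have hl2 : l ≤ θ / η := by
    rw [hl]
    exact (min_le_right _ _).trans (min_le_left _ _)
  have hl3 : l ≤ η * c ^ 2 / (8 * (K + 1)) := by
    rw [hl]
    exact (min_le_right _ _).trans (min_le_right _ _)
  refine ⟨l, hl0, hl1, ?_⟩
  -- the first exponential
  obtain ⟨x, hx⟩ : ∃ x, x = l / θ * η := ⟨_, rfl⟩
  have hx0 : 0 < x := by rw [hx]; positivity
  have hx1 : x ≤ 1 := by
    rw [le_div_iff₀ hη] at hl2
    rw [hx, div_mul_eq_mul_div, div_le_one hθ]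
    exact hl2
  have h1 : Real.exp (-x) ≤ 1 - x / 2 := by
    have h2 := Real.add_one_le_exp x
    have h3 : Real.exp (-x) * Real.exp x = 1 := by
      rw [← Real.exp_add, neg_add_cancel, Real.exp_zero]
    have h4 : 0 < Real.exp (-x) := Real.exp_pos _
    have h5 : Real.exp (-x) * (x + 1) ≤ 1 :=
      (mul_le_mul_of_nonneg_left h2 h4.le).trans h3.le
    have h6 : 1 ≤ (1 - x / 2) * (x + 1) := by nlinarith
    have h7 : Real.exp (-x) * (x + 1) ≤ (1 - x / 2) * (x + 1) := h5.trans h6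
    exact le_of_mul_le_mul_right h7 (by linarith)
  have h2 : θ * Real.exp (-x) ≤ θ - l * η / 2 := by
    have h3 := mul_le_mul_of_nonneg_left h1 hθ.le
    have h4 : θ * (1 - x / 2) = θ - l * η / 2 := by
      rw [hx]
      field_simp
    rw [h4] at h3
    exact h3
  -- the second exponential
  have h3 : Real.exp (-(c / l)) ≤ 2 * l ^ 2 / c ^ 2 := by
    have hy : 0 ≤ c / l := by positivity
    have h4 := Real.quadratic_le_exp_of_nonneg hy
    have h5 : (c / l) ^ 2 / 2 ≤ Real.exp (c / l) := by linarith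
    rw [Real.exp_neg]
    have h6 : (0 : ℝ) < (c / l) ^ 2 / 2 := by positivity
    refine (inv_anti₀ h6 h5).trans (le_of_eq ?_)
    field_simp
  have h4 : K * Real.exp (-(c / l)) ≤ l * η / 4 := by
    have h5 : K * Real.exp (-(c / l)) ≤ K * (2 * l ^ 2 / c ^ 2) :=
      mul_le_mul_of_nonneg_left h3 hK
    refine h5.trans ?_
    rw [le_div_iff₀ hK1] at hl3
    have h6 : K * (2 * l ^ 2 / c ^ 2) = 2 * K * l ^ 2 / c ^ 2 := by ring
    rw [h6, div_le_iff₀ (by positivity)]
    have h7 : l * (l * (8 * (K + 1))) ≤ l * (η * c ^ 2) := mul_le_mul_of_nonneg_left hl3 hl0.le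
    nlinarith [mul_pos hl0 hl0]
  have h5 : 0 < l * η := by positivity
  rw [← hx]
  linarith

end Pool.Agent.SUBB
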