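import Pool.Agent.SUBB.Stmts
import Pool.Agent.SUBB.Basic

set_option autoImplicit false

namespace Pool.Agent.SUBB

open Finset Filter Topology
open Pool.Agent.Lib27

lemma vt_getElem? (p : ℤ × ℤ) (w : Wo) (i : ℕ) (h : i ≤ w.length) :
    (vt p w)[i]? = some (ep p (w.take i)) := by
  induction w generalizing p i with
  | nil =>
    have : i = 0 := by simpa using h
    subst this
    simp
  | cons s w ih =>
    cases i with
    | zero => simp
    | succ i =>
      rw [vt_cons, List.getElem?_cons_succ, ih _ _ (by simpa using h)]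
      simp

lemma pu_eq_ep (F : Frame) (w : Wo) (p : ℤ × ℤ) :
    F.a * (ep p w).1 + F.b * (ep p w).2 = F.a * p.1 + F.b * p.2 + su F w ∧
    F.c * (ep p w).1 + F.d * (ep p w).2 = F.c * p.1 + F.d * p.2 + st F w := by
  induction w generalizing p with
  | nil => simp
  | cons s w ih =>
    obtain ⟨h1, h2⟩ := ih (p + dv s)
    rw [ep_cons, h1, h2, su_cons, st_cons, F.U_eq, F.T_eq]
    simp only [Prod.fst_add, Prod.snd_add]
    constructor <;> ring

lemma su_eq_ep (F : Frame) (w : Wo) : su F w = F.a * (ep 0 w).1 + F.b * (ep 0 w).2 := by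
  have := (pu_eq_ep F w 0).1
  simp at this
  linarith

lemma st_eq_ep (F : Frame) (w : Wo) : st F w = F.c * (ep 0 w).1 + F.d * (ep 0 w).2 := by
  have := (pu_eq_ep F w 0).2
  simp at this
  linarith

lemma ep_eq_iff (F : Frame) (v w : Wo) : ep 0 v = ep 0 w ↔ (su F v = su F w ∧ st F v = st F w) := by
  constructor
  · intro h
    rw [su_eq_ep, su_eq_ep, st_eq_ep, st_eq_ep, h]
    exact ⟨rfl, rfl⟩
  · rintro ⟨h1, h2⟩
    rw [su_eq_ep, su_eq_ep] at h1
    rw [st_eq_ep, st_eq_ep] at h2
    have hd := F.det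
    set x := ep 0 v
    set y := ep 0 w
    have e1 : F.a * (x.1 - y.1) + F.b * (x.2 - y.2) = 0 := by linarith
    have e2 : F.c * (x.1 - y.1) + F.d * (x.2 - y.2) = 0 := by linarith
    have e3 : (F.a * F.d - F.b * F.c) * (x.1 - y.1) = 0 := by
      have : (F.a * F.d - F.b * F.c) * (x.1 - y.1) =
          F.d * (F.a * (x.1 - y.1) + F.b * (x.2 - y.2)) -
          F.b * (F.c * (x.1 - y.1) + F.d * (x.2 - y.2)) := by ring
      rw [this, e1, e2]; ring
    have e4 : (F.a * F.d - F.b * F.c) * (x.2 - y.2) = 0 := by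
      have : (F.a * F.d - F.b * F.c) * (x.2 - y.2) =
          F.a * (F.c * (x.1 - y.1) + F.d * (x.2 - y.2)) -
          F.c * (F.a * (x.1 - y.1) + F.b * (x.2 - y.2)) := by ring
      rw [this, e1, e2]; ring
    have e5 := (mul_eq_zero.1 e3).resolve_left hd
    have e6 := (mul_eq_zero.1 e4).resolve_left hd
    exact Prod.ext (by linarith) (by linarith)

theorem t_LNK : LNK_Stmt := by
  intro F w
  unfold SAWs SA
  rw [List.nodup_iff_getElem?_ne_getElem?]
  constructor
  · intro h i j hij hj hc
    refine h i j hij (by rw [vt_length]; omega) ?_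
    rw [vt_getElem? 0 w i (by omega), vt_getElem? 0 w j hj]
    congr 1
    rw [ep_eq_iff F]
    exact hc
  · intro h i j hij hj hc
    rw [vt_length] at hj
    rw [vt_getElem? 0 w i (by omega), vt_getElem? 0 w j (by omega)] at hc
    have hc' := Option.some.inj hc
    rw [ep_eq_iff F] at hc'
    exact h i j hij (by omega) hc'

end Pool.Agent.SUBB
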