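import Pool.Agent.SUBB.Stmts2
import Pool.Agent.SUBB.Basic

/-!
# SUBB, module LRB: long rare blocks (helper22)
-/

set_option autoImplicit false

namespace Pool.Agent.SUBB

open Finset Filter Topology
open Pool.Agent.Lib27

open Classical in
theorem t_LRB : LRB_Stmt := by
  rintro P τ hτ ⟨c₀, hc₀, C, hC⟩
  have hC0 : 0 ≤ C := by
    have h1 := hC 0
    have h2 : (0 : ℝ) ≤ (((Cs 0).filter P).card : ℝ) := Nat.cast_nonneg _
    rw [Nat.cast_zero, mul_zero, Real.exp_zero, mul_one] at h1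
    exact h2.trans h1
  have hq1 : Real.exp (-(c₀ / 4)) < 1 := Real.exp_lt_one_iff.2 (by linarith)
  have hq : 0 < 1 - Real.exp (-(c₀ / 4)) := sub_pos.2 hq1
  refine ⟨c₀ / 4, c₀ * τ / 4, C / (1 - Real.exp (-(c₀ / 4))), by positivity, by positivity,
    div_nonneg hC0 hq.le, ?_⟩
  intro l hl hl0 N
  obtain ⟨Q, hQ⟩ : ∃ Q : Wo → Prop, Q = fun w => P w ∧ τ < l * (w.length : ℝ) := ⟨_, rfl⟩
  rw [← hQ]
  unfold Gs
  have hQ' : ∀ w, Q w ↔ P w ∧ τ < l * (w.length : ℝ) := fun w => by rw [hQ]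
  have hterm : ∀ n ∈ range (N + 1),
      ∑ w ∈ (Cs n).filter Q,
        Real.exp (-(Lm * (w.length : ℝ)) + 2 * l * (w.length : ℝ)) ≤
      (C * Real.exp (-(c₀ * τ / 4 / l))) * Real.exp (-(c₀ / 4)) ^ n := by
    intro n _
    by_cases hn : τ < l * (n : ℝ)
    · calc ∑ w ∈ (Cs n).filter Q,
            Real.exp (-(Lm * (w.length : ℝ)) + 2 * l * (w.length : ℝ))
          = ∑ w ∈ (Cs n).filter Q,
            Real.exp (-(Lm * (n : ℝ)) + 2 * l * (n : ℝ)) := by
              refine Finset.sum_congr rfl fun w hw => ?_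
              rw [Cs_length (Finset.mem_filter.1 hw).1]
        _ ≤ ∑ w ∈ (Cs n).filter P, Real.exp (-(Lm * (n : ℝ)) + 2 * l * (n : ℝ)) := by
              refine Finset.sum_le_sum_of_subset_of_nonneg (fun w hw => ?_)
                (fun w _ _ => (Real.exp_pos _).le)
              obtain ⟨h1, h2⟩ := Finset.mem_filter.1 hw
              exact Finset.mem_filter.2 ⟨h1, ((hQ' w).1 h2).1⟩
        _ = (((Cs n).filter P).card : ℝ) * Real.exp (-(Lm * (n : ℝ)) + 2 * l * (n : ℝ)) := by
              rw [Finset.sum_const, nsmul_eq_mul]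
        _ ≤ (C * Real.exp ((Lm - c₀) * n)) * Real.exp (-(Lm * (n : ℝ)) + 2 * l * (n : ℝ)) :=
              mul_le_mul_of_nonneg_right (hC n) (Real.exp_pos _).le
        _ = C * Real.exp (-(c₀ * n) + 2 * l * n) := by
              rw [mul_assoc, ← Real.exp_add]
              congr 2
              ring
        _ ≤ C * Real.exp (-(c₀ * τ / 4 / l) + n * (-(c₀ / 4))) := by
              refine mul_le_mul_of_nonneg_left (Real.exp_le_exp.2 ?_) hC0
              have hn0 : (0 : ℝ) ≤ n := Nat.cast_nonneg n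
              have h1 : l * n ≤ c₀ / 4 * n := mul_le_mul_of_nonneg_right hl0 hn0
              have h2 : τ / l ≤ n := (div_le_iff₀ hl).2 (by linarith)
              have h3 : c₀ * τ / 4 / l = c₀ / 4 * (τ / l) := by ring
              have h4 : c₀ / 4 * (τ / l) ≤ c₀ / 4 * n :=
                mul_le_mul_of_nonneg_left h2 (by positivity)
              rw [h3]
              linarith
        _ = _ := by
              rw [Real.exp_add, Real.exp_nat_mul, mul_assoc]
    · have h0 : (Cs n).filter Q = ∅ := by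
        rw [Finset.filter_eq_empty_iff]
        intro w hw h1
        have h2 := ((hQ' w).1 h1).2
        rw [Cs_length hw] at h2
        exact hn h2
      rw [h0, Finset.sum_empty]
      positivity
  have hgeo : ∑ n ∈ range (N + 1), Real.exp (-(c₀ / 4)) ^ n ≤ (1 - Real.exp (-(c₀ / 4)))⁻¹ := by
    rw [← tsum_geometric_of_lt_one (Real.exp_pos _).le hq1]
    exact (summable_geometric_of_lt_one (Real.exp_pos _).le hq1).sum_le_tsum _
      (fun n _ => pow_nonneg (Real.exp_pos _).le n)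
  refine (Finset.sum_le_sum hterm).trans ?_
  calc ∑ n ∈ range (N + 1),
        (C * Real.exp (-(c₀ * τ / 4 / l))) * Real.exp (-(c₀ / 4)) ^ n =
          (C * Real.exp (-(c₀ * τ / 4 / l))) * ∑ n ∈ range (N + 1), Real.exp (-(c₀ / 4)) ^ n := by
        rw [Finset.mul_sum]
    _ ≤ (C * Real.exp (-(c₀ * τ / 4 / l))) * (1 - Real.exp (-(c₀ / 4)))⁻¹ :=
        mul_le_mul_of_nonneg_left hgeo (mul_nonneg hC0 (Real.exp_pos _).le)
    _ = C / (1 - Real.exp (-(c₀ / 4))) * Real.exp (-(c₀ * τ / 4 / l)) := by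
        rw [div_eq_mul_inv]
        ring

end Pool.Agent.SUBB
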