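import Pool.Agent.SUBB.Stmts
import Pool.Agent.SUBB.Basic

/-!
# Module LRG: unfolding all large backtracks
-/

set_option autoImplicit false

namespace Pool.Agent.SUBB

open Finset Filter Topology
open Pool.Agent.Lib27

/-- backtracks which are at least `L` high are few -/
lemma lrg_card (hUNV : UNV_Stmt) (F : Frame) (w : Wo) (L : ℕ) (hL : 0 < L)
    (S : Finset (ℕ × ℕ)) (hS : S ⊆ V F w) (hS2 : ∀ q ∈ S, L ≤ sz F w q) :
    S.card ≤ w.length / L := by
  rw [Nat.le_div_iff_mul_le hL]
  have hV : ∀ q ∈ S, VP F w q := fun q hq => (mem_V F w q).1 (hS hq)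
  have h1 : (cov S).card = ∑ q ∈ S, (Ico q.1 q.2).card := by
    unfold cov
    rw [Finset.card_biUnion]
    intro q hq r hr hqr
    exact (hUNV F w q r (hS hq) (hS hr) (Ne.symm hqr)).2.2
  have h2 : (cov S).card ≤ w.length := by
    rw [← card_range w.length]
    apply card_le_card
    intro i hi
    unfold cov at hi
    rw [mem_biUnion] at hi
    obtain ⟨q, hq, hi⟩ := hi
    rw [mem_Ico] at hi
    rw [mem_range]
    exact lt_of_lt_of_le hi.2 (hV q hq).2.1
  have h3 : S.card * L ≤ ∑ q ∈ S, (Ico q.1 q.2).card := by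
    rw [← smul_eq_mul]
    apply Finset.card_nsmul_le_sum
    intro q hq
    rw [Nat.card_Ico]
    exact (hS2 q hq).trans (sz_le F (hV q hq))
  omega

theorem t_LRG (hLNK : LNK_Stmt) (hMUL : MUL_Stmt) (hBDI : BDI_Stmt) (hBDC : BDC_Stmt)
    (hUNV : UNV_Stmt) : LRG_Stmt := by
  classical
  intro F n L hL a D
  set S : Wo → Finset (ℕ × ℕ) := fun w => (V F w).filter (fun q => L ≤ sz F w q) with hSdef
  have hSV : ∀ w, S w ⊆ V F w := fun w => filter_subset _ _
  have hS2 : ∀ w, ∀ q ∈ S w, L ≤ sz F w q := fun w q hq => (mem_filter.1 hq).2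
  have hcov : ∀ w ∈ Cs n, cov (S w) ⊆ range n := by
    intro w hw i hi
    unfold cov at hi
    rw [mem_biUnion] at hi
    obtain ⟨q, hq, hi⟩ := hi
    rw [mem_Ico] at hi
    rw [mem_range]
    have h := ((mem_V F w q).1 (hSV w hq)).2.1
    rw [Cs_length hw] at h
    omega
  have hbd : ∀ w ∈ Cs n, (bd (cov (S w)) n).card ≤ 2 * (n / L) := by
    intro w hw
    have h1 : bd (cov (S w)) n ⊆ (S w).image Prod.fst ∪ (S w).image Prod.snd := by
      apply hBDC
      intro q hq
      have h := (mem_V F w q).1 (hSV w hq)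
      have h2 := h.2.1
      rw [Cs_length hw] at h2
      exact ⟨h.1, h2⟩
    have h2 : (S w).card ≤ n / L := by
      have := lrg_card hUNV F w L hL (S w) (hSV w) (hS2 w)
      rwa [Cs_length hw] at this
    calc (bd (cov (S w)) n).card ≤ ((S w).image Prod.fst ∪ (S w).image Prod.snd).card :=
          card_le_card h1
      _ ≤ ((S w).image Prod.fst).card + ((S w).image Prod.snd).card := card_union_le _ _
      _ ≤ (S w).card + (S w).card := add_le_add card_image_le card_image_le
      _ ≤ _ := by omega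
  have key : ((Cs n).filter (fun w => a ≤ ((su F w + st F w : ℤ) : ℝ) ∧
      D ≤ ((∑ q ∈ S w, sz F w q : ℕ) : ℝ))).card ≤
      (((range (n + 1)).powerset.filter (fun A => A.card ≤ 2 * (n / L))) ×ˢ
        ((Cs n).filter (fun w => a + 2 * D ≤ ((su F w + st F w : ℤ) : ℝ)))).card := by
    apply card_le_card_of_injOn (fun w => (bd (cov (S w)) n, flp F (cov (S w)) w))
    · intro w hw
      rw [mem_coe, mem_filter] at hw
      obtain ⟨hw, h1, h2⟩ := hw
      have hsa : SA F w := (hLNK F w).1 ((mem_Cs n w).1 hw).2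
      obtain ⟨m1, m2, m3, -, -⟩ := hMUL F w (S w) hsa (hSV w)
      rw [mem_coe, mem_product, mem_filter, mem_powerset, mem_filter]
      refine ⟨⟨?_, hbd w hw⟩, ?_, ?_⟩
      · exact filter_subset _ _
      · rw [mem_Cs]
        exact ⟨by rw [flp_length, Cs_length hw], (hLNK F _).2 m1⟩
      · rw [m2, m3]
        push_cast at h1 h2 ⊢
        linarith
    · intro w hw w' hw' he
      rw [mem_coe, mem_filter] at hw hw'
      simp only [Prod.mk.injEq] at he
      obtain ⟨he1, he2⟩ := he
      have h3 := hBDI n _ _ (hcov w hw.1) (hcov w' hw'.1) he1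
      rw [h3] at he2
      have h4 := congrArg (flp F (cov (S w'))) he2
      rwa [flp_flp, flp_flp] at h4
  rw [card_product] at key
  unfold NB
  exact_mod_cast key

end Pool.Agent.SUBB
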