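import Pool.Agent.SUBB.Stmts
import Pool.Agent.SUBB.Basic

set_option autoImplicit false

namespace Pool.Agent.SUBB

open Finset Filter Topology
open Pool.Agent.Lib27

lemma pu_map_fT (F : Frame) (w : Wo) (i : ℕ) : pu F (w.map F.fT) i = pu F w i := by
  unfold pu su
  rw [← List.map_take, List.map_map]
  congr 1
  exact List.map_congr_left fun s _ => F.U_fT s

lemma pt_map_fT (F : Frame) (w : Wo) (i : ℕ) : pt F (w.map F.fT) i = -pt F w i := by
  unfold pt st
  rw [← List.map_take, List.map_map]
  have : (w.take i).map (F.T ∘ F.fT) = (w.take i).map (fun s => -F.T s) :=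
    List.map_congr_left fun s _ => F.T_fT s
  rw [this]
  induction w.take i with
  | nil => simp
  | cons s l ih => simp only [List.map_cons, List.sum_cons, ih]; ring

lemma pu_map_fU (F : Frame) (w : Wo) (i : ℕ) : pu F (w.map F.fU) i = -pu F w i := by
  unfold pu su
  rw [← List.map_take, List.map_map]
  have : (w.take i).map (F.U ∘ F.fU) = (w.take i).map (fun s => -F.U s) :=
    List.map_congr_left fun s _ => F.U_fU s
  rw [this]
  induction w.take i with
  | nil => simp
  | cons s l ih => simp only [List.map_cons, List.sum_cons, ih]; ring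

lemma pt_map_fU (F : Frame) (w : Wo) (i : ℕ) : pt F (w.map F.fU) i = pt F w i := by
  unfold pt st
  rw [← List.map_take, List.map_map]
  congr 1
  exact List.map_congr_left fun s _ => F.T_fU s

lemma pu_map_sw (F : Frame) (w : Wo) (i : ℕ) : pu F (w.map F.sw) i = pt F w i := by
  unfold pu pt su st
  rw [← List.map_take, List.map_map]
  congr 1
  exact List.map_congr_left fun s _ => F.U_sw s

lemma pt_map_sw (F : Frame) (w : Wo) (i : ℕ) : pt F (w.map F.sw) i = pu F w i := by
  unfold pu pt su st
  rw [← List.map_take, List.map_map]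
  congr 1
  exact List.map_congr_left fun s _ => F.T_sw s

lemma SA_map_fT (F : Frame) (w : Wo) : SA F (w.map F.fT) ↔ SA F w := by
  unfold SA
  simp only [pu_map_fT, pt_map_fT, List.length_map, neg_inj]

lemma SA_map_fU (F : Frame) (w : Wo) : SA F (w.map F.fU) ↔ SA F w := by
  unfold SA
  simp only [pu_map_fU, pt_map_fU, List.length_map, neg_inj]

lemma SA_map_sw (F : Frame) (w : Wo) : SA F (w.map F.sw) ↔ SA F w := by
  unfold SA
  simp only [pu_map_sw, pt_map_sw, List.length_map]
  constructor
  · intro h i j hij hj hc
    exact h i j hij hj ⟨hc.2, hc.1⟩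
  · intro h i j hij hj hc
    exact h i j hij hj ⟨hc.2, hc.1⟩

lemma su_map_fT (F : Frame) (w : Wo) : su F (w.map F.fT) = su F w := by
  have := pu_map_fT F w w.length
  rwa [pu_length, ← List.length_map (f := F.fT) (as := w), pu_length] at this

lemma st_map_fT (F : Frame) (w : Wo) : st F (w.map F.fT) = -st F w := by
  have := pt_map_fT F w w.length
  rwa [pt_length, ← List.length_map (f := F.fT) (as := w), pt_length] at this

lemma su_map_fU (F : Frame) (w : Wo) : su F (w.map F.fU) = -su F w := by
  have := pu_map_fU F w w.length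
  rwa [pu_length, ← List.length_map (f := F.fU) (as := w), pu_length] at this

lemma st_map_fU (F : Frame) (w : Wo) : st F (w.map F.fU) = st F w := by
  have := pt_map_fU F w w.length
  rwa [pt_length, ← List.length_map (f := F.fU) (as := w), pt_length] at this

lemma su_map_sw (F : Frame) (w : Wo) : su F (w.map F.sw) = st F w := by
  have := pu_map_sw F w w.length
  rwa [pt_length, ← List.length_map (f := F.sw) (as := w), pu_length] at this

lemma st_map_sw (F : Frame) (w : Wo) : st F (w.map F.sw) = su F w := by
  have := pt_map_sw F w w.length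
  rwa [pu_length, ← List.length_map (f := F.sw) (as := w), pt_length] at this

theorem t_MAP (h : LNK_Stmt) : MAP_Stmt := by
  intro F n w
  simp only [mem_Cs, h F, SA_map_fT, SA_map_fU, SA_map_sw, List.length_map, and_self]

end Pool.Agent.SUBB
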