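import Pool.Agent.SUBB.Stmts
import Pool.Agent.SUBB.Basic

/-!
# MUL: several unfoldings at once
-/

set_option autoImplicit false

namespace Pool.Agent.SUBB

open Finset
open Pool.Agent.Lib27

namespace MUL

lemma cov_insert (q : ℕ × ℕ) (S : Finset (ℕ × ℕ)) :
    cov (insert q S) = Ico q.1 q.2 ∪ cov S := by
  unfold cov
  rw [biUnion_insert]

/-- the statement with the additional clause about the cut times -/
lemma main (hUNF : UNF_Stmt) (hUNV : UNV_Stmt) (hUNC : UNC_Stmt) (F : Frame)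
    (S : Finset (ℕ × ℕ)) : ∀ w : Wo, SA F w → S ⊆ V F w →
    SA F (flp F (cov S) w) ∧
    su F (flp F (cov S) w) = su F w + 2 * ((∑ q ∈ S, sz F w q : ℕ) : ℤ) ∧
    st F (flp F (cov S) w) = st F w ∧
    (∀ q ∈ S, q.1 ∈ Cut F (flp F (cov S) w) ∧ q.2 - 1 ∈ Cut F (flp F (cov S) w)) ∧
    (Cut F (flp F (cov S) w)).card ≤ (Cut F w).card + 3 * ∑ q ∈ S, sz F w q ∧
    Cut F w ⊆ Cut F (flp F (cov S) w) := by
  classical
  induction S using Finset.induction_on with
  | empty =>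
    intro w hw _
    have h : cov (∅ : Finset (ℕ × ℕ)) = ∅ := rfl
    rw [h, flp_empty]
    refine ⟨hw, by simp, rfl, fun q hq => absurd hq (notMem_empty q), by simp, subset_rfl⟩
  | insert q S hq ih =>
    intro w hw hS
    have hqV : q ∈ V F w := hS (mem_insert_self q S)
    obtain ⟨a1, a2, a3⟩ := hUNF F w q hw hqV
    obtain ⟨c1, c2, c3, c4⟩ := hUNC F w q hqV
    have hr : ∀ r ∈ S, r ∈ V F (flp F (Ico q.1 q.2) w) ∧
        sz F (flp F (Ico q.1 q.2) w) r = sz F w r ∧ Disjoint (Ico q.1 q.2) (Ico r.1 r.2) :=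
      fun r hr => hUNV F w q r hqV (hS (mem_insert_of_mem hr)) fun h => hq (h ▸ hr)
    obtain ⟨b1, b2, b3, b4, b5, b6⟩ := ih _ a1 fun r h => (hr r h).1
    have hsum : ∑ r ∈ S, sz F (flp F (Ico q.1 q.2) w) r = ∑ r ∈ S, sz F w r :=
      sum_congr rfl fun r h => (hr r h).2.1
    have hdis : Disjoint (Ico q.1 q.2) (cov S) := by
      unfold cov
      rw [disjoint_biUnion_right]
      exact fun r h => (hr r h).2.2
    rw [flp_union F _ _ hdis, ← cov_insert] at b1 b2 b3 b4 b5 b6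
    rw [hsum] at b2 b5
    refine ⟨b1, ?_, b3.trans a3, ?_, ?_, c1.trans b6⟩
    · rw [b2, a2, sum_insert hq]
      push_cast
      ring
    · intro r h
      rcases mem_insert.1 h with rfl | h
      · exact ⟨b6 c2, b6 c3⟩
      · exact b4 r h
    · rw [sum_insert hq]
      omega

end MUL

/-- MUL: several unfoldings at once. -/
theorem t_MUL (hUNF : UNF_Stmt) (hUNV : UNV_Stmt) (hUNC : UNC_Stmt) : MUL_Stmt := by
  intro F w S hw hS
  obtain ⟨h1, h2, h3, h4, h5, -⟩ := MUL.main hUNF hUNV hUNC F S w hw hS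
  exact ⟨h1, h2, h3, h4, h5⟩

end Pool.Agent.SUBB
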