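import Pool.Agent.SUBB.Stmts2
import Pool.Agent.SUBB.Basic

/-!
# NCF: the total weight of the words without cut times
-/

set_option autoImplicit false

namespace Pool.Agent.SUBB

open Finset Filter Topology
open Pool.Agent.Lib27

namespace NCFW

/-- the geometric series -/
lemma geo (c : ℝ) (hc : 0 < c) (N : ℕ) :
    ∑ n ∈ range (N + 1), Real.exp (-(c * (n : ℝ))) ≤ (1 - Real.exp (-c))⁻¹ := by
  have h0 : Real.exp (-c) < 1 := by
    have := Real.exp_lt_exp.2 (show -c < 0 by linarith)
    rwa [Real.exp_zero] at this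
  have h1 : ∀ n : ℕ, Real.exp (-(c * (n : ℝ))) = Real.exp (-c) ^ n := by
    intro n
    rw [← Real.exp_nat_mul]
    congr 1
    ring
  rw [Finset.sum_congr rfl fun n _ => h1 n, ← tsum_geometric_of_lt_one (Real.exp_pos _).le h0]
  exact (summable_geometric_of_lt_one (Real.exp_pos _).le h0).sum_le_tsum _
    (fun n _ => pow_nonneg (Real.exp_pos _).le n)

open Classical in
lemma one_len (F : Frame) (v v₃ l c C C1 : ℝ) (hv3 : 0 ≤ v₃) (hl : 0 < l)
    (hl0 : l ≤ c / 4) (hC0 : 0 ≤ C) (n : ℕ)
    (hC : (((Cs n).filter (fun w => Cut F w = ∅ ∧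
      v * (w.length : ℝ) ≤ ((su F w + st F w : ℤ) : ℝ))).card : ℝ) ≤
      C * Real.exp ((Lm - c) * n))
    (h1 : ((Cs n).card : ℝ) ≤ C1 * Real.exp ((Lm + l * (v₃ - v) / 2) * n)) :
    ∑ w ∈ (Cs n).filter (fun w => Cut F w = ∅), om F (Lm + l * v₃) l l w ≤
      C1 * Real.exp (-(l * (v₃ - v) / 2 * n)) + C * Real.exp (-(c / 2 * n)) := by
  have hn : (0 : ℝ) ≤ n := Nat.cast_nonneg n
  have h2 : ∑ w ∈ (Cs n).filter (fun w => Cut F w = ∅), om F (Lm + l * v₃) l l w ≤
      ∑ w ∈ Cs n, (Real.exp (-((Lm + l * (v₃ - v)) * n)) +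
        if Cut F w = ∅ ∧ v * (w.length : ℝ) ≤ ((su F w + st F w : ℤ) : ℝ) then
          Real.exp (-((Lm - 2 * l) * n)) else 0) := by
    refine (Finset.sum_le_sum (g := fun w => (Real.exp (-((Lm + l * (v₃ - v)) * n)) +
        if Cut F w = ∅ ∧ v * (w.length : ℝ) ≤ ((su F w + st F w : ℤ) : ℝ) then
          Real.exp (-((Lm - 2 * l) * n)) else 0)) ?_).trans
      (Finset.sum_le_sum_of_subset_of_nonneg (Finset.filter_subset _ _) ?_)
    · intro w hw
      rw [mem_filter] at hw
      have hlen := Cs_length hw.1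
      have hom : om F (Lm + l * v₃) l l w =
          Real.exp (-((Lm + l * v₃) * n) + l * (((su F w + st F w : ℤ)) : ℝ)) := by
        unfold om
        rw [hlen]
        push_cast
        congr 1
        ring
      rw [hom]
      by_cases hc : v * (w.length : ℝ) ≤ ((su F w + st F w : ℤ) : ℝ)
      · rw [if_pos ⟨hw.2, hc⟩]
        have e1 : Real.exp (-((Lm + l * v₃) * n) + l * (((su F w + st F w : ℤ)) : ℝ)) ≤
            Real.exp (-((Lm - 2 * l) * n)) := by
          refine Real.exp_le_exp.2 ?_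
          have a1 := (abs_le.1 (abs_su_le F w)).2
          have a2 := (abs_le.1 (abs_st_le F w)).2
          have a3 : ((su F w + st F w : ℤ) : ℝ) ≤ 2 * n := by
            have : su F w + st F w ≤ 2 * (n : ℤ) := by rw [hlen] at a1 a2; linarith
            exact_mod_cast this
          have a4 := mul_le_mul_of_nonneg_left a3 hl.le
          have a5 : 0 ≤ l * v₃ * n := by positivity
          linarith [a4, a5, mul_comm l (2 * (n : ℝ))]
        have e2 := (Real.exp_pos (-((Lm + l * (v₃ - v)) * n))).le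
        linarith
      · rw [if_neg (fun h => hc h.2), add_zero]
        refine Real.exp_le_exp.2 ?_
        rw [not_le, hlen] at hc
        have a4 := mul_le_mul_of_nonneg_left hc.le hl.le
        nlinarith [a4]
    · intro w _ _
      have e2 := (Real.exp_pos (-((Lm + l * (v₃ - v)) * n))).le
      split_ifs
      · have e3 := (Real.exp_pos (-((Lm - 2 * l) * n))).le
        linarith
      · linarith
  refine h2.trans ?_
  rw [Finset.sum_add_distrib, Finset.sum_const, nsmul_eq_mul, ← Finset.sum_filter,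
    Finset.sum_const, nsmul_eq_mul]
  refine add_le_add ?_ ?_
  · refine (mul_le_mul_of_nonneg_right h1 (Real.exp_pos _).le).trans (le_of_eq ?_)
    rw [mul_assoc, ← Real.exp_add]
    congr 2
    ring
  · refine (mul_le_mul_of_nonneg_right hC (Real.exp_pos _).le).trans ?_
    rw [mul_assoc, ← Real.exp_add]
    refine mul_le_mul_of_nonneg_left (Real.exp_le_exp.2 ?_) hC0
    nlinarith [mul_le_mul_of_nonneg_right hl0 hn]

end NCFW

/-- NCF. The total weight of the words without cut times -/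
theorem t_NCF (hCSU : CSU_Stmt) : NCF_Stmt := by
  classical
  intro F v v₃ hv hv3 ⟨c, hc, C, hC⟩
  refine ⟨c / 4, by positivity, fun l hl hl0 => ?_⟩
  have hε : 0 < l * (v₃ - v) / 2 := by
    have : 0 < v₃ - v := by linarith
    positivity
  obtain ⟨C1, hC1, h1⟩ := hCSU (l * (v₃ - v) / 2) hε
  have hC0 : 0 ≤ C := by
    have h := hC 0
    rw [Nat.cast_zero, mul_zero, Real.exp_zero, mul_one] at h
    exact le_trans (Nat.cast_nonneg _) h
  refine ⟨C1 * (1 - Real.exp (-(l * (v₃ - v) / 2)))⁻¹ + C * (1 - Real.exp (-(c / 2)))⁻¹,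
    fun N => ?_⟩
  unfold Gs
  calc _ ≤ ∑ n ∈ range (N + 1), (C1 * Real.exp (-(l * (v₃ - v) / 2 * (n : ℝ))) +
        C * Real.exp (-(c / 2 * (n : ℝ)))) := by
        refine Finset.sum_le_sum fun n _ => ?_
        have h9 := NCFW.one_len F v v₃ l c C C1 hv3 hl hl0 hC0 n (by convert hC n) (h1 n)
        refine le_trans (le_of_eq ?_) h9
        exact Finset.sum_congr (by ext w; simp [mem_filter]) fun _ _ => rfl
    _ = C1 * ∑ n ∈ range (N + 1), Real.exp (-(l * (v₃ - v) / 2 * (n : ℝ))) +
        C * ∑ n ∈ range (N + 1), Real.exp (-(c / 2 * (n : ℝ))) := by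
        rw [Finset.sum_add_distrib, Finset.mul_sum, Finset.mul_sum]
    _ ≤ _ := by
        refine add_le_add (mul_le_mul_of_nonneg_left (NCFW.geo _ hε N) hC1.le)
          (mul_le_mul_of_nonneg_left (NCFW.geo _ (by positivity) N) hC0)

end Pool.Agent.SUBB
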