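import Pool.Agent.SUBB.Stmts
import Pool.Agent.SUBB.Basic

/-!
# Module NCT: words without cut times and large displacement are rare
-/

set_option autoImplicit false

namespace Pool.Agent.SUBB

open Finset Filter Topology
open Pool.Agent.Lib27

/-- `Thin` for any decidability instance -/
lemma Thin_iff_nct (P : Wo → Prop) [DecidablePred P] : Thin P ↔ ∃ c : ℝ, 0 < c ∧ ∃ C : ℝ,
    ∀ n : ℕ, (((Cs n).filter P).card : ℝ) ≤ C * Real.exp ((Lm - c) * n) := by
  unfold Thin
  have h : ∀ n, (@Finset.filter Wo P (fun a => Classical.propDecidable (P a)) (Cs n)) =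
      (Cs n).filter P := by
    intro n
    ext w
    simp
  constructor
  · rintro ⟨c, hc, C, hC⟩
    refine ⟨c, hc, C, fun n => ?_⟩
    have := hC n
    rwa [h n] at this
  · rintro ⟨c, hc, C, hC⟩
    refine ⟨c, hc, C, fun n => ?_⟩
    rw [h n]
    exact hC n

lemma Thin_mono_nct {P Q : Wo → Prop} (h : ∀ w, P w → Q w) (hQ : Thin Q) : Thin P := by
  classical
  obtain ⟨c, hc, C, hC⟩ := (Thin_iff_nct _).1 hQ
  refine (Thin_iff_nct _).2 ⟨c, hc, C, fun n => le_trans ?_ (hC n)⟩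
  exact_mod_cast card_le_card (fun w hw => mem_filter.2
    ⟨(mem_filter.1 hw).1, h w (mem_filter.1 hw).2⟩)

lemma Thin_or_nct {P Q : Wo → Prop} (hP : Thin P) (hQ : Thin Q) : Thin (fun w => P w ∨ Q w) := by
  classical
  obtain ⟨c₁, hc₁, C₁, h₁⟩ := (Thin_iff_nct _).1 hP
  obtain ⟨c₂, hc₂, C₂, h₂⟩ := (Thin_iff_nct _).1 hQ
  refine (Thin_iff_nct _).2 ⟨min c₁ c₂, lt_min hc₁ hc₂, C₁ + C₂, fun n => ?_⟩
  have hC₁ : 0 ≤ C₁ := by
    have := h₁ 0
    simp only [CharP.cast_eq_zero, mul_zero, Real.exp_zero, mul_one] at this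
    exact le_trans (Nat.cast_nonneg _) this
  have hC₂ : 0 ≤ C₂ := by
    have := h₂ 0
    simp only [CharP.cast_eq_zero, mul_zero, Real.exp_zero, mul_one] at this
    exact le_trans (Nat.cast_nonneg _) this
  have hn : (0 : ℝ) ≤ n := Nat.cast_nonneg n
  have e₁ : Real.exp ((Lm - c₁) * n) ≤ Real.exp ((Lm - min c₁ c₂) * n) := by
    apply Real.exp_le_exp.2
    apply mul_le_mul_of_nonneg_right _ hn
    linarith [min_le_left c₁ c₂]
  have e₂ : Real.exp ((Lm - c₂) * n) ≤ Real.exp ((Lm - min c₁ c₂) * n) := by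
    apply Real.exp_le_exp.2
    apply mul_le_mul_of_nonneg_right _ hn
    linarith [min_le_right c₁ c₂]
  have hu : ((Cs n).filter (fun w => P w ∨ Q w)).card ≤
      ((Cs n).filter P).card + ((Cs n).filter Q).card := by
    rw [filter_or]
    exact card_union_le _ _
  calc ((((Cs n).filter (fun w => P w ∨ Q w)).card : ℕ) : ℝ)
      ≤ ((((Cs n).filter P).card + ((Cs n).filter Q).card : ℕ) : ℝ) := by exact_mod_cast hu
    _ = (((Cs n).filter P).card : ℝ) + (((Cs n).filter Q).card : ℝ) := by push_cast; ring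
    _ ≤ C₁ * Real.exp ((Lm - c₁) * n) + C₂ * Real.exp ((Lm - c₂) * n) := add_le_add (h₁ n) (h₂ n)
    _ ≤ C₁ * Real.exp ((Lm - min c₁ c₂) * n) + C₂ * Real.exp ((Lm - min c₁ c₂) * n) :=
        add_le_add (mul_le_mul_of_nonneg_left e₁ hC₁) (mul_le_mul_of_nonneg_left e₂ hC₂)
    _ = _ := by ring

lemma su_map_sw (F : Frame) (w : Wo) : su F (w.map F.sw) = st F w := by
  induction w with
  | nil => simp
  | cons s w ih => simp [ih, F.U_sw]

lemma map_sw_sw (F : Frame) (w : Wo) : (w.map F.sw).map F.sw = w := by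
  rw [List.map_map]
  conv_rhs => rw [← List.map_id w]
  apply List.map_congr_left
  intro s _
  simp [F.sw_sw]

/-- large displacements in the `t`-direction are rare -/
lemma Thin_st (hMAP : MAP_Stmt) (F : Frame) (v : ℝ)
    (h : Thin (fun w => v * (w.length : ℝ) ≤ (su F w : ℝ))) :
    Thin (fun w => v * (w.length : ℝ) ≤ (st F w : ℝ)) := by
  classical
  obtain ⟨c, hc, C, hC⟩ := (Thin_iff_nct _).1 h
  refine (Thin_iff_nct _).2 ⟨c, hc, C, fun n => le_trans ?_ (hC n)⟩
  have : ((Cs n).filter (fun w => v * (w.length : ℝ) ≤ (st F w : ℝ))).card ≤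
      ((Cs n).filter (fun w => v * (w.length : ℝ) ≤ (su F w : ℝ))).card := by
    apply card_le_card_of_injOn (fun w => w.map F.sw)
    · intro w hw
      rw [mem_coe, mem_filter] at hw ⊢
      refine ⟨((hMAP F n w).2.1).2 hw.1, ?_⟩
      rw [List.length_map, su_map_sw]
      exact hw.2
    · intro w _ w' _ he
      have he' : (w.map F.sw).map F.sw = (w'.map F.sw).map F.sw := congrArg _ he
      rwa [map_sw_sw, map_sw_sw] at he'
  exact_mod_cast this

/-- words with many large backtracks are rare -/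
lemma Thin_large (hENT : ENT_Stmt) (hLRG : LRG_Stmt) (F : Frame) (a d : ℝ)
    (h : Thin (fun w => (a + 2 * d) * (w.length : ℝ) ≤ ((su F w + st F w : ℤ) : ℝ))) :
    ∃ L : ℕ, 0 < L ∧ Thin (fun w => a * (w.length : ℝ) ≤ ((su F w + st F w : ℤ) : ℝ) ∧
      d * (w.length : ℝ) ≤
        ((∑ q ∈ (V F w).filter (fun q => L ≤ sz F w q), sz F w q : ℕ) : ℝ)) := by
  classical
  obtain ⟨c, hc, C, hC⟩ := (Thin_iff_nct _).1 h
  obtain ⟨L₀, hL₀, hE⟩ := hENT (c / 2) (by positivity)
  obtain ⟨C', hC', hE'⟩ := hE L₀ le_rfl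
  refine ⟨L₀, hL₀, (Thin_iff_nct _).2 ⟨c / 2, by positivity, C' * C, fun n => ?_⟩⟩
  have hl : ((((Cs n).filter (fun w => a * (n : ℝ) ≤ ((su F w + st F w : ℤ) : ℝ) ∧
      d * (n : ℝ) ≤ ((∑ q ∈ (V F w).filter (fun q => L₀ ≤ sz F w q), sz F w q : ℕ) : ℝ))).card
        : ℕ) : ℝ) ≤ (NB (n + 1) (2 * (n / L₀)) : ℝ) *
      (((Cs n).filter (fun w => a * (n : ℝ) + 2 * (d * n) ≤
        ((su F w + st F w : ℤ) : ℝ))).card : ℝ) := by
    convert hLRG F n L₀ hL₀ (a * n) (d * n) using 3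
  have e1 : (Cs n).filter (fun w => a * (w.length : ℝ) ≤ ((su F w + st F w : ℤ) : ℝ) ∧
      d * (w.length : ℝ) ≤
        ((∑ q ∈ (V F w).filter (fun q => L₀ ≤ sz F w q), sz F w q : ℕ) : ℝ)) =
      (Cs n).filter (fun w => a * (n : ℝ) ≤ ((su F w + st F w : ℤ) : ℝ) ∧
      d * (n : ℝ) ≤
        ((∑ q ∈ (V F w).filter (fun q => L₀ ≤ sz F w q), sz F w q : ℕ) : ℝ)) := by
    apply filter_congr
    intro w hw
    rw [Cs_length hw]
  have e2 : (Cs n).filter (fun w => a * (n : ℝ) + 2 * (d * n) ≤ ((su F w + st F w : ℤ) : ℝ)) =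
      (Cs n).filter (fun w => (a + 2 * d) * (w.length : ℝ) ≤ ((su F w + st F w : ℤ) : ℝ)) := by
    apply filter_congr
    intro w hw
    rw [Cs_length hw]
    have : a * (n : ℝ) + 2 * (d * n) = (a + 2 * d) * n := by ring
    rw [this]
  rw [e1]
  rw [e2] at hl
  refine hl.trans ?_
  calc (NB (n + 1) (2 * (n / L₀)) : ℝ) *
        (((Cs n).filter (fun w => (a + 2 * d) * (w.length : ℝ) ≤
          ((su F w + st F w : ℤ) : ℝ))).card : ℝ)
      ≤ (C' * Real.exp (c / 2 * n)) * (C * Real.exp ((Lm - c) * n)) :=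
        mul_le_mul (hE' n) (hC n) (Nat.cast_nonneg _) (by positivity)
    _ = C' * C * (Real.exp (c / 2 * n) * Real.exp ((Lm - c) * n)) := by ring
    _ = C' * C * Real.exp ((Lm - c / 2) * n) := by
        rw [← Real.exp_add]
        ring_nf

/-- words without cut times, large displacement, and mostly small backtracks are rare -/
lemma Thin_small (hCSU : CSU_Stmt) (hCOV : COV_Stmt) (hSML : SML_Stmt) (F : Frame) (d : ℝ)
    (hd : 0 < d) (L : ℕ) (hL : 0 < L) :
    Thin (fun w => Cut F w = ∅ ∧ 6 * d * (w.length : ℝ) ≤ (su F w : ℝ) ∧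
      ((∑ q ∈ (V F w).filter (fun q => L ≤ sz F w q), sz F w q : ℕ) : ℝ) ≤
        d * (w.length : ℝ)) := by
  classical
  have hLR : (0 : ℝ) < L := by exact_mod_cast hL
  set x : ℝ := (1 / 64 : ℝ) ^ L with hx
  have hxpos : 0 < x := by positivity
  set κ : ℝ := 5 * d / L * Real.log (1 + x) with hκ
  have hlog : 0 < Real.log (1 + x) := Real.log_pos (by linarith)
  have hκpos : 0 < κ := by positivity
  obtain ⟨C, hC, hCs⟩ := hCSU (κ / 2) (by positivity)
  refine (Thin_iff_nct _).2 ⟨κ / 2, by positivity, C, fun n => ?_⟩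
  set G : Finset Wo := (Cs n).filter (fun w => Cut F w = ∅ ∧
    6 * d * (w.length : ℝ) ≤ (su F w : ℝ) ∧
      ((∑ q ∈ (V F w).filter (fun q => L ≤ sz F w q), sz F w q : ℕ) : ℝ) ≤
        d * (w.length : ℝ)) with hG
  have hGs : G ⊆ (Cs n).filter (fun w => Cut F w = ∅) := by
    intro w hw
    rw [hG, mem_filter] at hw
    rw [mem_filter]
    exact ⟨hw.1, hw.2.1⟩
  have hterm : ∀ w ∈ G, Real.exp (κ * n) ≤
      (1 + x) ^ ((V F w).filter (fun q => sz F w q < L)).card := by
    intro w hw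
    rw [hG, mem_filter] at hw
    obtain ⟨hw, h1, h2, h3⟩ := hw
    rw [Cs_length hw] at h2 h3
    have h4 : (su F w : ℝ) ≤ ((∑ q ∈ V F w, sz F w q : ℕ) : ℝ) := by
      have := hCOV F w h1
      exact_mod_cast this
    have h5 : ∑ q ∈ V F w, sz F w q =
        ∑ q ∈ (V F w).filter (fun q => L ≤ sz F w q), sz F w q +
          ∑ q ∈ (V F w).filter (fun q => sz F w q < L), sz F w q := by
      rw [← Finset.sum_filter_add_sum_filter_not (V F w) (fun q => L ≤ sz F w q)]
      congr 1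
      apply Finset.sum_congr _ (fun _ _ => rfl)
      apply filter_congr
      intro q _
      exact not_le
    have h6 : ∑ q ∈ (V F w).filter (fun q => sz F w q < L), sz F w q ≤
        ((V F w).filter (fun q => sz F w q < L)).card * L := by
      rw [← smul_eq_mul]
      apply Finset.sum_le_card_nsmul
      intro q hq
      exact (mem_filter.1 hq).2.le
    have h7 : ((∑ q ∈ V F w, sz F w q : ℕ) : ℝ) ≤
        ((∑ q ∈ (V F w).filter (fun q => L ≤ sz F w q), sz F w q : ℕ) : ℝ) +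
          (((V F w).filter (fun q => sz F w q < L)).card : ℝ) * L := by
      rw [h5]
      push_cast
      have h8 : ((∑ q ∈ (V F w).filter (fun q => sz F w q < L), sz F w q : ℕ) : ℝ) ≤
          ((((V F w).filter (fun q => sz F w q < L)).card * L : ℕ) : ℝ) := by exact_mod_cast h6
      push_cast at h8
      linarith
    have h9 : 5 * d * n ≤ (((V F w).filter (fun q => sz F w q < L)).card : ℝ) * L := by
      nlinarith
    have h10 : 5 * d / L * n ≤ (((V F w).filter (fun q => sz F w q < L)).card : ℝ) := by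
      rw [div_mul_eq_mul_div, div_le_iff₀ hLR]
      exact h9
    calc Real.exp (κ * n) ≤
        Real.exp ((((V F w).filter (fun q => sz F w q < L)).card : ℝ) * Real.log (1 + x)) := by
          apply Real.exp_le_exp.2
          rw [hκ]
          calc 5 * d / L * Real.log (1 + x) * n = 5 * d / L * n * Real.log (1 + x) := by ring
            _ ≤ _ := mul_le_mul_of_nonneg_right h10 hlog.le
      _ = _ := by
          rw [Real.exp_nat_mul, Real.exp_log (by linarith)]
  have hsum : (G.card : ℝ) * Real.exp (κ * n) ≤ ((Cs n).card : ℝ) := by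
    calc (G.card : ℝ) * Real.exp (κ * n) = ∑ w ∈ G, Real.exp (κ * n) := by
          rw [Finset.sum_const, nsmul_eq_mul]
      _ ≤ ∑ w ∈ G, (1 + x) ^ ((V F w).filter (fun q => sz F w q < L)).card :=
          Finset.sum_le_sum hterm
      _ ≤ ∑ w ∈ (Cs n).filter (fun w => Cut F w = ∅),
            (1 + x) ^ ((V F w).filter (fun q => sz F w q < L)).card := by
          apply Finset.sum_le_sum_of_subset_of_nonneg hGs
          intro w _ _
          positivity
      _ ≤ _ := hSML F n L hL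
  have h11 : (G.card : ℝ) * Real.exp (κ * n) ≤ C * Real.exp ((Lm + κ / 2) * n) :=
    hsum.trans (hCs n)
  have h12 : (G.card : ℝ) ≤ C * Real.exp ((Lm + κ / 2) * n) / Real.exp (κ * n) := by
    rw [le_div_iff₀ (Real.exp_pos _)]
    exact h11
  refine h12.trans (le_of_eq ?_)
  rw [mul_div_assoc, ← Real.exp_sub]
  congr 2
  ring

theorem t_NCT (hMAP : MAP_Stmt) (hCSU : CSU_Stmt) (hCOV : COV_Stmt) (hENT : ENT_Stmt)
    (hLRG : LRG_Stmt) (hSML : SML_Stmt) : NCT_Stmt := by
  classical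
  intro F v₁ v₀ hv₁ hlt hv₀ hU hUT
  set d : ℝ := (v₀ - v₁) / 8 with hd
  have hdpos : 0 < d := by rw [hd]; linarith
  have hA : Thin (fun w => (v₁ + d) * (w.length : ℝ) ≤ (st F w : ℝ)) :=
    Thin_st hMAP F (v₁ + d) (hU _ (by linarith))
  obtain ⟨L, hL, hB⟩ := Thin_large hENT hLRG F (v₀ - d) d (by
    have := hUT (v₀ + d) (by linarith)
    have e : v₀ - d + 2 * d = v₀ + d := by ring
    rw [e]
    exact this)
  have hC := Thin_small hCSU hCOV hSML F d hdpos L hL
  refine Thin_mono_nct ?_ (Thin_or_nct (Thin_or_nct hA hB) hC)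
  rintro w ⟨h1, h2⟩
  by_cases hA' : (v₁ + d) * (w.length : ℝ) ≤ (st F w : ℝ)
  · exact Or.inl (Or.inl hA')
  by_cases hB' : d * (w.length : ℝ) ≤
      ((∑ q ∈ (V F w).filter (fun q => L ≤ sz F w q), sz F w q : ℕ) : ℝ)
  · exact Or.inl (Or.inr ⟨h2, hB'⟩)
  refine Or.inr ⟨h1, ?_, (not_le.1 hB').le⟩
  rw [not_le] at hA'
  push_cast at h2
  have e : v₀ = v₁ + 8 * d := by rw [hd]; ring
  rw [e] at h2
  nlinarith

end Pool.Agent.SUBB
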