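import Pool.Agent.SUBB.Stmts2
import Pool.Agent.SUBB.Basic

/-!
# Module PSB: at the critical point the total weight of the blocks is at most one
-/

set_option autoImplicit false

namespace Pool.Agent.SUBB

open Finset Filter Topology
open Pool.Agent.Lib27

namespace PSB

/-- the weight of a word of `Cs n` -/
theorem om_eq (F : Frame) (s : ℝ) {n : ℕ} {w : Wo} (h : w ∈ Cs n) :
    om F s 0 0 w = Real.exp (-(s * n)) := by
  unfold om
  rw [Cs_length h, zero_mul, zero_mul, add_zero, add_zero]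

theorem filter_all {α : Type*} (s : Finset α) (P : α → Prop) (inst : DecidablePred P)
    (h : ∀ x, P x) : @Finset.filter α P inst s = s :=
  Finset.filter_true_of_mem fun x _ => h x

/-- the total weight is finite above the critical point -/
theorem fin (hCSU : CSU_Stmt) (F : Frame) {ε : ℝ} (hε : 0 < ε) :
    ∃ B : ℝ, ∀ N : ℕ, Gs (fun _ => True) (om F (Lm + ε) 0 0) N ≤ B := by
  classical
  obtain ⟨C, hC, hCs⟩ := hCSU (ε / 2) (by linarith)
  obtain ⟨r, hr⟩ : ∃ r : ℝ, r = Real.exp (-(ε / 2)) := ⟨_, rfl⟩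
  have hr0 : 0 < r := by rw [hr]; exact Real.exp_pos _
  have hr1 : r < 1 := by
    rw [hr]
    rw [Real.exp_lt_one_iff]
    linarith
  refine ⟨C * (1 / (1 - r)), fun N => ?_⟩
  have h0 : Gs (fun _ => True) (om F (Lm + ε) 0 0) N =
      ∑ n ∈ range (N + 1), ∑ w ∈ Cs n, om F (Lm + ε) 0 0 w := by
    unfold Gs
    exact sum_congr rfl fun n _ => sum_congr (filter_all _ _ _ fun _ => trivial) fun _ _ => rfl
  rw [h0]
  have h1 : ∀ n ∈ range (N + 1), ∑ w ∈ Cs n, om F (Lm + ε) 0 0 w ≤ C * r ^ n := by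
    intro n _
    have h2 : ∑ w ∈ Cs n, om F (Lm + ε) 0 0 w =
        ((Cs n).card : ℝ) * Real.exp (-((Lm + ε) * n)) := by
      rw [← nsmul_eq_mul, ← sum_const]
      exact sum_congr rfl fun w hw => om_eq F (Lm + ε) hw
    have h3 : r ^ n = Real.exp ((Lm + ε / 2) * n) * Real.exp (-((Lm + ε) * n)) := by
      rw [hr, ← Real.exp_nat_mul, ← Real.exp_add]
      congr 1
      ring
    rw [h2, h3, ← mul_assoc]
    exact mul_le_mul_of_nonneg_right (hCs n) (Real.exp_pos _).le
  refine (sum_le_sum h1).trans ?_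
  rw [← mul_sum]
  refine mul_le_mul_of_nonneg_left ?_ hC.le
  have h4 : (0 : ℝ) < 1 - r := by linarith
  rw [geom_sum_eq hr1.ne, ← neg_div_neg_eq]
  apply div_le_div₀ zero_le_one _ h4 (by linarith)
  have := pow_nonneg hr0.le (N + 1)
  linarith

/-- comparison of the weights -/
theorem comp (F : Frame) {ε : ℝ} (hε : 0 < ε) (P : Wo → Prop) (N : ℕ) :
    Gs P (om F Lm 0 0) N ≤ Real.exp (ε * N) * Gs P (om F (Lm + ε) 0 0) N := by
  classical
  unfold Gs
  rw [mul_sum]
  refine sum_le_sum fun n hn => ?_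
  rw [mul_sum]
  refine sum_le_sum fun w hw => ?_
  rw [mem_filter] at hw
  rw [mem_range] at hn
  rw [om_eq F Lm hw.1, om_eq F (Lm + ε) hw.1, ← Real.exp_add]
  apply Real.exp_le_exp.2
  have h1 : (n : ℝ) ≤ N := by exact_mod_cast Nat.lt_succ_iff.1 hn
  nlinarith

end PSB

theorem t_PSB (hCSU : CSU_Stmt) (hREN1 : REN1_Stmt) : PSB_Stmt := by
  intro F N
  by_contra hcon
  push Not at hcon
  obtain ⟨X, hX⟩ : ∃ X, X = Gs (Blk F) (om F Lm 0 0) N := ⟨_, rfl⟩
  rw [← hX] at hcon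
  have hl : 0 < Real.log X := Real.log_pos hcon
  have hN : (0 : ℝ) < 2 * (N + 1) := by positivity
  obtain ⟨ε, hε⟩ : ∃ ε : ℝ, ε = Real.log X / (2 * (N + 1)) := ⟨_, rfl⟩
  have hε0 : 0 < ε := by rw [hε]; exact div_pos hl hN
  have h1 := PSB.comp F hε0 (Blk F) N
  have h2 := hREN1 F (Lm + ε) 0 0 (PSB.fin hCSU F hε0) N
  have h3 : X ≤ Real.exp (ε * N) := by
    rw [hX]
    refine h1.trans ?_
    calc Real.exp (ε * N) * Gs (Blk F) (om F (Lm + ε) 0 0) N ≤ Real.exp (ε * N) * 1 :=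
          mul_le_mul_of_nonneg_left h2 (Real.exp_pos _).le
      _ = Real.exp (ε * N) := mul_one _
  have h4 : ε * N < Real.log X := by
    have h5 : ε * (2 * (N + 1)) = Real.log X := by
      rw [hε]
      exact div_mul_cancel₀ _ hN.ne'
    have h6 : (0 : ℝ) ≤ N := Nat.cast_nonneg N
    nlinarith
  have h5 : Real.exp (ε * N) < X := by
    calc Real.exp (ε * N) < Real.exp (Real.log X) := Real.exp_lt_exp.2 h4
      _ = X := Real.exp_log (by linarith)
  linarith

end Pool.Agent.SUBB
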