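import Pool.Agent.SUBB.Stmts2
import Pool.Agent.SUBB.Basic

/-!
# Self-avoiding walks are sub-ballistic, module RBK: blocks with large displacement are rare
-/

set_option autoImplicit false

namespace Pool.Agent.SUBB

open Finset Filter Topology
open Pool.Agent.Lib27

open Classical in
/-- number of self-avoiding words of length `n` with the property `P` -/
noncomputable def RBK_N (P : Wo → Prop) (n : ℕ) : ℕ := ((Cs n).filter P).card

lemma RBK_thin (P : Wo → Prop) : Thin P ↔ ∃ c : ℝ, 0 < c ∧ ∃ C : ℝ, ∀ n : ℕ,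
    (RBK_N P n : ℝ) ≤ C * Real.exp ((Lm - c) * n) := Iff.rfl

lemma RBK_le (P : Wo → Prop) (n : ℕ) : RBK_N P n ≤ (Cs n).card := by
  classical
  exact card_le_card (filter_subset _ _)

lemma RBK_inj (P Q : Wo → Prop) (m n : ℕ) (κ : Type) [Fintype κ] (f : κ × Wo → Wo)
    (h : ∀ w ∈ Cs n, P w → ∃ x : κ, ∃ p ∈ Cs m, Q p ∧ f (x, p) = w) :
    RBK_N P n ≤ Fintype.card κ * RBK_N Q m := by
  classical
  unfold RBK_N
  have hsub : (Cs n).filter P ⊆ (univ ×ˢ (Cs m).filter Q).image f := by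
    intro w hw
    rw [mem_filter] at hw
    obtain ⟨x, p, hp, hQ, hf⟩ := h w hw.1 hw.2
    exact mem_image.2 ⟨(x, p), mem_product.2 ⟨mem_univ _, mem_filter.2 ⟨hp, hQ⟩⟩, hf⟩
  refine (card_le_card hsub).trans (card_image_le.trans (le_of_eq ?_))
  rw [card_product, card_univ]

lemma RBK_su (F : Frame) (w : Wo) : su F (w.map F.fT) = su F w := by
  induction w with
  | nil => rfl
  | cons s w ih => rw [List.map_cons, su_cons, su_cons, ih, F.U_fT]

lemma RBK_st (F : Frame) (w : Wo) : st F (w.map F.fT) = -st F w := by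
  induction w with
  | nil => rfl
  | cons s w ih =>
    rw [List.map_cons, st_cons, st_cons, ih, F.T_fT]
    ring

lemma RBK_map_map (F : Frame) (w : Wo) : (w.map F.fT).map F.fT = w := by
  rw [List.map_map]
  have : F.fT ∘ F.fT = id := funext F.fT_fT
  rw [this, List.map_id]

/-- the word of a block without its first letter has no cut time -/
lemma RBK_cut (F : Frame) (e : Fin 4) (p : Wo) (h : Cut F (e :: p) = {0}) : Cut F p = ∅ := by
  rw [eq_empty_iff_forall_notMem]
  intro a ha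
  rw [mem_Cut] at ha
  obtain ⟨h1, h2, h3⟩ := ha
  have h0 : 0 ∈ Cut F (e :: p) := by
    rw [h]
    exact mem_singleton_self 0
  rw [mem_Cut] at h0
  have h4 : a + 1 ∈ Cut F (e :: p) := by
    rw [mem_Cut]
    refine ⟨by rw [List.length_cons]; omega, ?_, ?_⟩
    · intro b hb
      rcases b with _ | b
      · exact (h0.2.2 (a + 1) (by omega) (by rw [List.length_cons]; omega)).le
      · rw [pu_cons_succ, pu_cons_succ]
        have := h2 b (by omega)
        omega
    · intro b hb hb'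
      rcases b with _ | b
      · omega
      · rw [List.length_cons] at hb'
        rw [pu_cons_succ, pu_cons_succ]
        have := h3 b (by omega) (by omega)
        omega
  rw [h, mem_singleton] at h4
  omega

/-- Module RBK. -/
theorem t_RBK (hM : MAP_Stmt) (hB : BSY_Stmt) : RBK_Stmt := by
  intro F v v' hv hthin
  rw [RBK_thin] at hthin ⊢
  obtain ⟨c, hc, C, hC⟩ := hthin
  obtain ⟨P, hP⟩ : ∃ P : Wo → Prop, P = fun w => Blk F w ∧
      v' * (w.length : ℝ) ≤ (su F w : ℝ) + |(st F w : ℝ)| := ⟨_, rfl⟩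
  obtain ⟨Q, hQ⟩ : ∃ Q : Wo → Prop, Q = fun w => Blk F w ∧
      v' * (w.length : ℝ) ≤ ((su F w + st F w : ℤ) : ℝ) := ⟨_, rfl⟩
  obtain ⟨R, hR⟩ : ∃ R : Wo → Prop, R = fun w => Cut F w = ∅ ∧
      v * (w.length : ℝ) ≤ ((su F w + st F w : ℤ) : ℝ) := ⟨_, rfl⟩
  rw [← hR] at hC
  rw [← hP]
  have hC0 : 0 ≤ C := by
    have h1 := hC 0
    have h2 : (0 : ℝ) ≤ (RBK_N R 0 : ℝ) := Nat.cast_nonneg _
    simp only [Nat.cast_zero, mul_zero, Real.exp_zero, mul_one] at h1
    linarith
  -- sign of `t`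
  have s1 : ∀ n, RBK_N P n ≤ 2 * RBK_N Q n := by
    intro n
    refine RBK_inj P Q n n Bool (fun x => if x.1 then x.2.map F.fT else x.2) ?_
    intro w hw hw'
    rw [hP] at hw'
    obtain ⟨h1, h2⟩ := hw'
    rcases le_total 0 (st F w) with h | h
    · refine ⟨false, w, hw, ?_, by simp⟩
      rw [hQ]
      refine ⟨h1, ?_⟩
      have h3 : (0 : ℝ) ≤ (st F w : ℝ) := by exact_mod_cast h
      rw [abs_of_nonneg h3] at h2
      push_cast
      exact h2
    · refine ⟨true, w.map F.fT, ((hM F n w).1).2 hw, ?_, RBK_map_map F w⟩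
      rw [hQ]
      refine ⟨((hB F).1 w).2 h1, ?_⟩
      have h3 : (st F w : ℝ) ≤ 0 := by exact_mod_cast h
      rw [abs_of_nonpos h3] at h2
      rw [RBK_su, RBK_st, List.length_map]
      push_cast
      exact h2
  -- the first letter
  have s2 : ∀ m : ℕ, v * (m : ℝ) ≤ v' * ((m : ℝ) + 1) - 2 → RBK_N Q (m + 1) ≤ 4 * RBK_N R m := by
    intro m hm
    have h0 := RBK_inj Q R m (m + 1) (Fin 4) (fun x => x.1 :: x.2) ?_
    · rwa [Fintype.card_fin] at h0
    intro w hw hw'
    rw [hQ] at hw'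
    obtain ⟨h1, h2⟩ := hw'
    have hlen := Cs_length hw
    rcases w with _ | ⟨e, p⟩
    · simp at hlen
    have hlen' : p.length = m := by
      rw [List.length_cons] at hlen
      omega
    have hp : p ∈ Cs m := by
      have := Cs_drop hw 1
      simpa using this
    refine ⟨e, p, hp, ?_, rfl⟩
    rw [hR]
    refine ⟨RBK_cut F e p h1.1, ?_⟩
    rw [hlen, su_cons, st_cons] at h2
    rw [hlen']
    have h3 : (F.U e : ℝ) ≤ 1 := by exact_mod_cast (abs_le.1 (F.absU e)).2
    have h4 : (F.T e : ℝ) ≤ 1 := by exact_mod_cast (abs_le.1 (F.absT e)).2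
    push_cast at h2 ⊢
    linarith
  -- large `m`
  obtain ⟨m0, hm0⟩ := exists_nat_gt ((2 - v') / (v' - v))
  have hlarge : ∀ m : ℕ, m0 ≤ m → v * (m : ℝ) ≤ v' * ((m : ℝ) + 1) - 2 := by
    intro m hm
    have h1 : (2 - v') / (v' - v) < m := hm0.trans_le (by exact_mod_cast hm)
    rw [div_lt_iff₀ (by linarith)] at h1
    nlinarith
  refine ⟨c, hc, 8 * C * Real.exp (-(Lm - c)) +
    ∑ n ∈ range (m0 + 1), ((Cs n).card : ℝ) * Real.exp (-((Lm - c) * n)), ?_⟩
  have hsum : 0 ≤ ∑ n ∈ range (m0 + 1), ((Cs n).card : ℝ) * Real.exp (-((Lm - c) * n)) :=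
    sum_nonneg fun n _ => by positivity
  have hfirst : 0 ≤ 8 * C * Real.exp (-(Lm - c)) := by positivity
  intro n
  by_cases hn : n ≤ m0
  · have h1 : (RBK_N P n : ℝ) ≤ ((Cs n).card : ℝ) := by exact_mod_cast RBK_le P n
    have h2 : ((Cs n).card : ℝ) * Real.exp (-((Lm - c) * n)) ≤
        ∑ n ∈ range (m0 + 1), ((Cs n).card : ℝ) * Real.exp (-((Lm - c) * n)) :=
      single_le_sum (f := fun n : ℕ => ((Cs n).card : ℝ) * Real.exp (-((Lm - c) * n)))
        (fun _ _ => by positivity) (mem_range.2 (by omega))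
    have h3 : ((Cs n).card : ℝ) =
        ((Cs n).card : ℝ) * Real.exp (-((Lm - c) * n)) * Real.exp ((Lm - c) * n) := by
      rw [mul_assoc, ← Real.exp_add, neg_add_cancel, Real.exp_zero, mul_one]
    refine h1.trans ?_
    rw [h3]
    exact mul_le_mul_of_nonneg_right (by linarith) (Real.exp_pos _).le
  · obtain ⟨m, rfl⟩ : ∃ m, n = m + 1 := ⟨n - 1, by omega⟩
    have h1 := s1 (m + 1)
    have h2 := s2 m (hlarge m (by omega))
    have h3 : RBK_N P (m + 1) ≤ 8 * RBK_N R m := by omega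
    have h4 : (RBK_N P (m + 1) : ℝ) ≤ 8 * (RBK_N R m : ℝ) := by exact_mod_cast h3
    have h5 : 8 * (RBK_N R m : ℝ) ≤ 8 * (C * Real.exp ((Lm - c) * m)) := by
      linarith [hC m]
    have h6 : 8 * (C * Real.exp ((Lm - c) * m)) =
        8 * C * Real.exp (-(Lm - c)) * Real.exp ((Lm - c) * ((m + 1 : ℕ) : ℝ)) := by
      have h7 : Real.exp ((Lm - c) * m) =
          Real.exp (-(Lm - c)) * Real.exp ((Lm - c) * ((m + 1 : ℕ) : ℝ)) := by
        rw [← Real.exp_add]
        congr 1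
        push_cast
        ring
      rw [h7]
      ring
    refine h4.trans (h5.trans ?_)
    rw [h6]
    exact mul_le_mul_of_nonneg_right (by linarith) (Real.exp_pos _).le

end Pool.Agent.SUBB
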