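import Pool.Agent.SUBB.Stmts
import Pool.Agent.SUBB.Basic

/-!
# The total weight of the blocks is at most one
-/

set_option autoImplicit false

namespace Pool.Agent.SUBB

open Finset Filter Topology
open Pool.Agent.Lib27

/-- self-avoiding words of length at most `N` -/
noncomputable def ren1C (N : ℕ) : Finset Wo := (range (N + 1)).biUnion Cs

lemma ren1_mem (N : ℕ) (w : Wo) : w ∈ ren1C N ↔ w.length ≤ N ∧ SAWs w := by
  unfold ren1C
  rw [mem_biUnion]
  constructor
  · rintro ⟨n, hn, hw⟩
    rw [mem_range] at hn
    rw [mem_Cs] at hw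
    exact ⟨by omega, hw.2⟩
  · rintro ⟨h1, h2⟩
    exact ⟨w.length, by rw [mem_range]; omega, by rw [mem_Cs]; exact ⟨rfl, h2⟩⟩

lemma ren1_Gs (P : Wo → Prop) [DecidablePred P] (ω : Wo → ℝ) (N : ℕ) :
    Gs P ω N = ∑ w ∈ (ren1C N).filter P, ω w := by
  classical
  have e : ∀ n : ℕ, @Finset.filter Wo P (fun a => Classical.propDecidable (P a)) (Cs n)
      = (Cs n).filter P := by
    intro n
    ext w
    simp only [mem_filter]
  unfold Gs ren1C
  simp only [e]
  rw [filter_biUnion, sum_biUnion]
  intro i _ j _ hij
  rw [Function.onFun, Finset.disjoint_left]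
  intro w hw hw'
  exact hij ((Cs_length (mem_filter.1 hw).1).symm.trans (Cs_length (mem_filter.1 hw').1))

/-- bridges -/
def ren1B (F : Frame) (w : Wo) : Prop :=
  (∀ i, 0 < i → i ≤ w.length → 0 < pu F w i) ∧ ∀ i ≤ w.length, pu F w i ≤ su F w

lemma ren1B_nonneg {F : Frame} {w : Wo} (h : ren1B F w) (i : ℕ) (hi : i ≤ w.length) :
    0 ≤ pu F w i := by
  rcases Nat.eq_zero_or_pos i with rfl | h0
  · rw [pu_zero]
  · exact (h.1 i h0 hi).le

lemma ren1_blk {F : Frame} {x : Wo} (h : Blk F x) :
    0 < x.length ∧ (∀ a, 0 < a → a ≤ x.length → 0 < pu F x a) ∧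
      ∀ a ≤ x.length, pu F x a ≤ su F x := by
  have h0 : 0 ∈ Cut F x := by rw [h.1]; exact mem_singleton_self 0
  have h1 := (mem_Cut F x 0).1 h0
  refine ⟨h1.1, fun a ha hl => ?_, h.2⟩
  have := h1.2.2 a ha hl
  rwa [pu_zero] at this

/-- a block followed by a bridge: values of `u` -/
lemma ren1_val {F : Frame} {x y : Wo} (i : ℕ) (hi : x.length ≤ i) :
    pu F (x ++ y) i = su F x + pu F y (i - x.length) := by
  have := pu_append_right F x y (i - x.length)
  rwa [show x.length + (i - x.length) = i by omega] at this

lemma ren1_valt {F : Frame} {x y : Wo} (i : ℕ) (hi : x.length ≤ i) :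
    pt F (x ++ y) i = st F x + pt F y (i - x.length) := by
  have := pt_append_right F x y (i - x.length)
  rwa [show x.length + (i - x.length) = i by omega] at this

lemma ren1_bridge {F : Frame} {x y : Wo} (hx : Blk F x) (hy : ren1B F y) :
    ren1B F (x ++ y) := by
  obtain ⟨h1, h2, h3⟩ := ren1_blk hx
  have hsx : 0 < su F x := by
    have := h2 x.length h1 le_rfl
    rwa [pu_length] at this
  have hsy : 0 ≤ su F y := by
    have := hy.2 0 (Nat.zero_le _)
    rwa [pu_zero] at this
  constructor
  · intro i h0 hi
    rw [List.length_append] at hi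
    rcases le_total i x.length with h | h
    · rw [pu_append_left F x y i h]
      exact h2 i h0 h
    · rw [ren1_val i h]
      have := ren1B_nonneg hy (i - x.length) (by omega)
      linarith
  · intro i hi
    rw [List.length_append] at hi
    rw [su_append]
    rcases le_total i x.length with h | h
    · rw [pu_append_left F x y i h]
      have := h3 i h
      linarith
    · rw [ren1_val i h]
      have := hy.2 (i - x.length) (by omega)
      linarith

lemma ren1_SA {F : Frame} {x y : Wo} (hx : Blk F x) (hy : ren1B F y) (h1 : SA F x)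
    (h2 : SA F y) : SA F (x ++ y) := by
  obtain ⟨b1, b2, b3⟩ := ren1_blk hx
  intro i j hij hj
  rw [List.length_append] at hj
  rcases le_or_gt j x.length with h | h
  · rw [pu_append_left F x y i (hij.le.trans h), pu_append_left F x y j h,
      pt_append_left F x y i (hij.le.trans h), pt_append_left F x y j h]
    exact h1 i j hij h
  · rcases le_or_gt i x.length with h' | h'
    · rw [pu_append_left F x y i h', ren1_val j h.le]
      rintro ⟨e1, -⟩
      have e2 := b3 i h'
      have e3 := hy.1 (j - x.length) (by omega) (by omega)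
      linarith
    · rw [ren1_val i h'.le, ren1_val j h.le, ren1_valt i h'.le, ren1_valt j h.le]
      rintro ⟨e1, e2⟩
      exact h2 (i - x.length) (j - x.length) (by omega) (by omega) ⟨by linarith, by linarith⟩

/-- the block is determined by the word -/
lemma ren1_not_lt {F : Frame} {x y x' y' : Wo} (hx : Blk F x) (hy : ren1B F y)
    (hx' : Blk F x') (he : x ++ y = x' ++ y') : ¬ x.length < x'.length := by
  intro hlt
  obtain ⟨b1, b2, b3⟩ := ren1_blk hx
  have hlen : x.length + y.length = x'.length + y'.length := by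
    rw [← List.length_append, ← List.length_append, he]
  have hmem : x.length ∈ Cut F x' := by
    rw [mem_Cut]
    have e0 : ∀ a ≤ x'.length, pu F x' a = pu F (x ++ y) a := by
      intro a ha
      rw [he, pu_append_left F x' y' a ha]
    refine ⟨hlt, fun a ha => ?_, fun a ha hl => ?_⟩
    · rw [e0 a (by omega), e0 x.length (by omega), pu_append_left F x y a ha,
        pu_append_left F x y _ le_rfl, pu_length]
      exact b3 a ha
    · rw [e0 a hl, e0 x.length (by omega), pu_append_left F x y _ le_rfl, pu_length,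
        ren1_val a ha.le]
      have := hy.1 (a - x.length) (by omega) (by omega)
      linarith
  rw [hx'.1, mem_singleton] at hmem
  omega

theorem t_REN1 (hL : LNK_Stmt) : REN1_Stmt := by
  classical
  rintro F s a b ⟨B, hB⟩ M
  set ω := om F s a b with hω
  have hω0 : ∀ w, 0 ≤ ω w := fun w => (om_pos F s a b w).le
  -- one step
  have hstep : ∀ N, Gs (Blk F) ω M * Gs (ren1B F) ω N ≤ Gs (ren1B F) ω (N + M) := by
    intro N
    rw [ren1_Gs, ren1_Gs, ren1_Gs, sum_mul_sum, ← sum_product']
    have hinj : Set.InjOn (fun z : Wo × Wo => z.1 ++ z.2)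
        (((ren1C M).filter (Blk F) ×ˢ (ren1C N).filter (ren1B F) : Finset (Wo × Wo)) :
          Set (Wo × Wo)) := by
      rintro ⟨x, y⟩ h ⟨x', y'⟩ h' he
      rw [mem_coe, mem_product, mem_filter, mem_filter] at h h'
      simp only at h h' he
      have hl : x.length = x'.length := by
        rcases lt_trichotomy x.length x'.length with hlt | heq | hgt
        · exact absurd hlt (ren1_not_lt h.1.2 h.2.2 h'.1.2 he)
        · exact heq
        · exact absurd hgt (ren1_not_lt h'.1.2 h'.2.2 h.1.2 he.symm)
      obtain ⟨e1, e2⟩ := List.append_inj he hl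
      rw [e1, e2]
    calc ∑ z ∈ (ren1C M).filter (Blk F) ×ˢ (ren1C N).filter (ren1B F), ω z.1 * ω z.2
        = ∑ z ∈ (ren1C M).filter (Blk F) ×ˢ (ren1C N).filter (ren1B F), ω (z.1 ++ z.2) := by
          refine sum_congr rfl fun z _ => ?_
          rw [hω, om_append]
      _ = ∑ w ∈ ((ren1C M).filter (Blk F) ×ˢ (ren1C N).filter (ren1B F)).image
            (fun z : Wo × Wo => z.1 ++ z.2), ω w := by
          rw [sum_image hinj]
      _ ≤ _ := by
          apply sum_le_sum_of_subset_of_nonneg
          · intro w hw
            rw [mem_image] at hw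
            obtain ⟨⟨x, y⟩, hz, rfl⟩ := hw
            rw [mem_product, mem_filter, mem_filter, ren1_mem, ren1_mem] at hz
            simp only at hz
            obtain ⟨⟨⟨l1, s1⟩, p1⟩, ⟨⟨l2, s2⟩, p2⟩⟩ := hz
            rw [mem_filter, ren1_mem]
            refine ⟨⟨?_, ?_⟩, ren1_bridge p1 p2⟩
            · change (x ++ y).length ≤ N + M
              rw [List.length_append]
              omega
            · rw [hL F]
              exact ren1_SA p1 p2 ((hL F x).1 s1) ((hL F y).1 s2)
          · intro w _ _
            exact hω0 w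
  have hg0 : 0 ≤ Gs (Blk F) ω M := by
    rw [ren1_Gs]
    exact sum_nonneg fun w _ => hω0 w
  have h0 : 1 ≤ Gs (ren1B F) ω 0 := by
    rw [ren1_Gs]
    have hmem : ([] : Wo) ∈ (ren1C 0).filter (ren1B F) := by
      rw [mem_filter, ren1_mem]
      refine ⟨⟨le_rfl, ?_⟩, ?_, ?_⟩
      · have : ([] : Wo) ∈ Cs 0 := by rw [Cs_zero]; exact mem_singleton_self _
        exact ((mem_Cs 0 []).1 this).2
      · intro i h1 h2
        simp only [List.length_nil] at h2
        omega
      · intro i hi
        simp only [List.length_nil] at hi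
        have : i = 0 := by omega
        rw [this]
        simp
    calc (1 : ℝ) = ω [] := by rw [hω, om_nil]
      _ ≤ _ := single_le_sum (f := ω) (fun w _ => hω0 w) hmem
  have hpow : ∀ k : ℕ, Gs (Blk F) ω M ^ k ≤ Gs (ren1B F) ω (k * M) := by
    intro k
    induction k with
    | zero =>
      rw [pow_zero, Nat.zero_mul]
      exact h0
    | succ k ih =>
      rw [pow_succ, mul_comm, Nat.succ_mul]
      exact (mul_le_mul_of_nonneg_left ih hg0).trans (hstep (k * M))
  have hle : ∀ N, Gs (ren1B F) ω N ≤ B := by
    intro N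
    refine le_trans ?_ (hB N)
    rw [ren1_Gs, ren1_Gs]
    apply sum_le_sum_of_subset_of_nonneg
    · intro w hw
      rw [mem_filter] at hw ⊢
      exact ⟨hw.1, trivial⟩
    · intro w _ _
      exact hω0 w
  by_contra hgt
  rw [not_le] at hgt
  obtain ⟨k, hk⟩ := pow_unbounded_of_one_lt B hgt
  have := hpow k
  have := hle (k * M)
  linarith

end Pool.Agent.SUBB
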