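import Pool.Agent.SUBB.Basic
import Pool.Agent.SUBB.LNK
import Pool.Agent.SUBB.Stmts

/-!
# SUBB, module SBW: self-avoiding walks are sub-ballistic
-/

set_option autoImplicit false

namespace Pool.Agent.SUBB

open Finset Filter Topology
open Pool.Agent.Lib27

lemma SBW_mono {P Q : Wo → Prop} (h : ∀ w, Q w → P w) (hP : Thin P) : Thin Q := by
  classical
  obtain ⟨c, hc, C, hC⟩ := hP
  refine ⟨c, hc, C, fun n => le_trans ?_ (hC n)⟩
  have h1 : (Cs n).filter Q ⊆ (Cs n).filter P := by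
    intro w hw
    rw [mem_filter] at hw ⊢
    exact ⟨hw.1, h w hw.2⟩
  exact_mod_cast card_le_card h1

/-- the displacement is at most the length -/
lemma SBW_base (v : ℝ) (hv : 1 < v) :
    Thin (fun w => v * (w.length : ℝ) ≤ (su axF w : ℝ)) := by
  classical
  refine ⟨1, one_pos, 1, fun n => ?_⟩
  rcases Nat.eq_zero_or_pos n with rfl | hn
  · have h1 : (((Cs 0).filter (fun w : Wo => v * (w.length : ℝ) ≤ (su axF w : ℝ))).card : ℝ) ≤
        ((Cs 0).card : ℝ) := by exact_mod_cast card_filter_le _ _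
    refine h1.trans ?_
    rw [Cs_zero]
    simp
  · have h1 : (Cs n).filter (fun w : Wo => v * (w.length : ℝ) ≤ (su axF w : ℝ)) = ∅ := by
      rw [filter_eq_empty_iff]
      intro w hw hcon
      have h2 := Cs_length hw
      have h3 := (abs_le.1 (abs_su_le axF w)).2
      have h4 : (su axF w : ℝ) ≤ (w.length : ℝ) := by exact_mod_cast h3
      have h5 : (0 : ℝ) < (w.length : ℝ) := by rw [h2]; exact_mod_cast hn
      nlinarith
    rw [h1]
    simp only [card_empty, Nat.cast_zero]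
    positivity

lemma SBW_su_dgF (w : Wo) : su dgF w = su axF w + st axF w := by
  rw [su_eq_ep, su_eq_ep, st_eq_ep]
  simp [dgF, axF]

lemma SBW_st_dgF (w : Wo) : st dgF w = su axF w - st axF w := by
  rw [st_eq_ep, su_eq_ep, st_eq_ep]
  simp [dgF, axF]
  ring

/-- one halving -/
lemma SBW_step (hT : THR_Stmt) (v₁ : ℝ) (hv₁ : 0 ≤ v₁)
    (h : ∀ v, v₁ < v → Thin (fun w => v * (w.length : ℝ) ≤ (su axF w : ℝ))) :
    ∀ v, v₁ / 2 < v → Thin (fun w => v * (w.length : ℝ) ≤ (su axF w : ℝ)) := by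
  intro v hv
  have h1 := hT axF v₁ hv₁ h
  have h2 : ∀ v, v₁ < v → Thin (fun w => v * (w.length : ℝ) ≤ (su dgF w : ℝ)) := by
    intro v hv
    refine SBW_mono (fun w hw => ?_) (h1 v hv)
    rw [SBW_su_dgF] at hw
    exact hw
  have h3 := hT dgF v₁ hv₁ h2 (2 * v) (by linarith)
  refine SBW_mono (fun w hw => ?_) h3
  have h4 : su dgF w + st dgF w = 2 * su axF w := by
    rw [SBW_su_dgF, SBW_st_dgF]
    ring
  rw [h4]
  push_cast
  linarith

theorem t_SBW (hT : THR_Stmt) : SBW_Stmt := by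
  have h1 : ∀ k : ℕ, ∀ v : ℝ, (1 / 2 : ℝ) ^ k < v →
      Thin (fun w => v * (w.length : ℝ) ≤ (su axF w : ℝ)) := by
    intro k
    induction k with
    | zero =>
      intro v hv
      rw [pow_zero] at hv
      exact SBW_base v hv
    | succ k ih =>
      intro v hv
      refine SBW_step hT ((1 / 2 : ℝ) ^ k) (by positivity) ih v ?_
      rw [pow_succ] at hv
      linarith
  have h2 : ∀ v : ℝ, 0 < v → Thin (fun w => v * (w.length : ℝ) ≤ (su axF w : ℝ)) := by
    intro v hv
    obtain ⟨k, hk⟩ := exists_pow_lt_of_lt_one hv (by norm_num : (1 / 2 : ℝ) < 1)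
    exact h1 k v hk
  intro v hv
  refine SBW_mono (fun w hw => ?_) (hT axF 0 le_rfl h2 v hv)
  have h3 : su axF w + st axF w = (ep 0 w).1 + (ep 0 w).2 := by
    rw [su_eq_ep, st_eq_ep]
    simp [axF]
  rw [h3]
  exact hw

end Pool.Agent.SUBB
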