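import Pool.Agent.SUBB.Stmts
import Pool.Agent.SUBB.Basic

/-!
# Weighted unfolding of the small backtracks
-/

set_option autoImplicit false

namespace Pool.Agent.SUBB

open Finset Filter Topology
open Pool.Agent.Lib27

/-- sets of backtracks are determined by the set of covered times -/
lemma sml_cov_inj (hUV : UNV_Stmt) (F : Frame) (w : Wo) (S T : Finset (ℕ × ℕ))
    (hS : S ⊆ V F w) (hT : T ⊆ V F w) (h : cov S = cov T) : S ⊆ T := by
  intro q hq
  have hqV := hS hq
  have hvp := (mem_V F w q).1 hqV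
  have h1 : q.1 ∈ cov S := by
    unfold cov
    rw [mem_biUnion]
    exact ⟨q, hq, by rw [mem_Ico]; exact ⟨le_rfl, hvp.1⟩⟩
  rw [h] at h1
  unfold cov at h1
  rw [mem_biUnion] at h1
  obtain ⟨r, hr, hr2⟩ := h1
  by_cases hrq : r = q
  · rw [← hrq]; exact hr
  · have h3 := (hUV F w q r hqV (hT hr) hrq).2.2
    exact absurd hr2 ((Finset.disjoint_left.1 h3) (by rw [mem_Ico]; exact ⟨le_rfl, hvp.1⟩))

open Classical in
/-- the admissible sets of covered times for a given unfolded word -/
noncomputable def smlA (F : Frame) (n : ℕ) (w : Wo) : Finset (Finset ℕ) :=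
  (range n).powerset.filter (fun A => bd A n ⊆ Cut F w ∪ (Cut F w).image (fun i => i + 1))

lemma smlA_card (hBI : BDI_Stmt) (F : Frame) (n : ℕ) (w : Wo) :
    (smlA F n w).card ≤ 4 ^ (Cut F w).card := by
  classical
  set Z : Finset ℕ := Cut F w ∪ (Cut F w).image (fun i => i + 1) with hZ
  have hZc : Z.card ≤ 2 * (Cut F w).card := by
    calc Z.card ≤ (Cut F w).card + ((Cut F w).image (fun i => i + 1)).card := card_union_le _ _
      _ ≤ (Cut F w).card + (Cut F w).card := by
        have := card_image_le (s := Cut F w) (f := fun i => i + 1)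
        omega
      _ = _ := by ring
  calc (smlA F n w).card ≤ Z.powerset.card := by
        apply card_le_card_of_injOn (fun A => bd A n)
        · intro A hA
          rw [mem_coe] at hA
          unfold smlA at hA
          rw [mem_filter] at hA
          rw [mem_coe, mem_powerset]
          exact hA.2
        · intro A hA B hB hAB
          rw [mem_coe] at hA hB
          unfold smlA at hA hB
          rw [mem_filter, mem_powerset] at hA hB
          exact hBI n A B hA.1 hB.1 hAB
    _ = 2 ^ Z.card := card_powerset _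
    _ ≤ 2 ^ (2 * (Cut F w).card) := Nat.pow_le_pow_right (by norm_num) hZc
    _ = 4 ^ (Cut F w).card := by rw [pow_mul]; norm_num

theorem t_SML (hL : LNK_Stmt) (hM : MUL_Stmt) (hBI : BDI_Stmt) (hBC : BDC_Stmt)
    (hUV : UNV_Stmt) : SML_Stmt := by
  classical
  intro F n L hLpos
  set x : ℝ := (1 / 64 : ℝ) ^ L with hx
  have hx0 : 0 < x := by rw [hx]; positivity
  set W : Finset Wo := (Cs n).filter (fun w => Cut F w = ∅) with hW
  let T : Wo → Finset (ℕ × ℕ) := fun w => (V F w).filter (fun q => sz F w q < L)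
  have e1 : ∀ w : Wo, (1 + x) ^ ((V F w).filter (fun q => sz F w q < L)).card
      = ∑ S ∈ (T w).powerset, x ^ S.card := by
    intro w
    have h := Finset.sum_pow_mul_eq_add_pow x (1 : ℝ) (T w)
    simp only [one_pow, mul_one] at h
    rw [h, add_comm]
  let P : Finset (Σ _ : Wo, Finset (ℕ × ℕ)) := W.sigma fun w => (T w).powerset
  let Φ : (Σ _ : Wo, Finset (ℕ × ℕ)) → (Σ _ : Wo, Finset ℕ) :=
    fun p => ⟨flp F (cov p.2) p.1, cov p.2⟩
  let g : (Σ _ : Wo, Finset ℕ) → ℝ := fun y => (1 / 4 : ℝ) ^ (Cut F y.1).card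
  let Q : Finset (Σ _ : Wo, Finset ℕ) := (Cs n).sigma fun w => smlA F n w
  have hPmem : ∀ p ∈ P, p.1 ∈ Cs n ∧ Cut F p.1 = ∅ ∧ p.2 ⊆ V F p.1 ∧
      ∀ q ∈ p.2, sz F p.1 q < L := by
    intro p hp
    rw [mem_sigma, hW, mem_filter, mem_powerset] at hp
    refine ⟨hp.1.1, hp.1.2, ?_, ?_⟩
    · exact hp.2.trans (filter_subset _ _)
    · intro q hq
      exact (mem_filter.1 (hp.2 hq)).2
  have hinj : Set.InjOn Φ (P : Set (Σ _ : Wo, Finset (ℕ × ℕ))) := by
    rintro ⟨w, S⟩ hp ⟨w1, S1⟩ hp1 h
    have a1 := hPmem _ (mem_coe.1 hp)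
    have a2 := hPmem _ (mem_coe.1 hp1)
    simp only at a1 a2
    have h2 : flp F (cov S) w = flp F (cov S1) w1 ∧ cov S = cov S1 := by
      simpa [Φ] using h
    have h3 : w = w1 := by
      have := congrArg (flp F (cov S)) h2.1
      rw [flp_flp, h2.2, flp_flp] at this
      exact this
    subst h3
    have h4 : S = S1 :=
      Subset.antisymm (sml_cov_inj hUV F w S S1 a1.2.2.1 a2.2.2.1 h2.2)
        (sml_cov_inj hUV F w S1 S a2.2.2.1 a1.2.2.1 h2.2.symm)
    rw [h4]
  have hmaps : ∀ p ∈ P, Φ p ∈ Q ∧ x ^ p.2.card ≤ g (Φ p) := by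
    intro p hp
    obtain ⟨h1, h2, h3, h4⟩ := hPmem p hp
    obtain ⟨w, S⟩ := p
    simp only at h1 h2 h3 h4
    have hlen : w.length = n := Cs_length h1
    have hSA : SA F w := (hL F w).1 ((mem_Cs n w).1 h1).2
    obtain ⟨m1, m2, m3, m4, m5⟩ := hM F w S hSA h3
    have hvp : ∀ q ∈ S, q.1 < q.2 ∧ q.2 ≤ n := by
      intro q hq
      have := (mem_V F w q).1 (h3 hq)
      exact ⟨this.1, hlen ▸ this.2.1⟩
    constructor
    · simp only [Q, Φ]
      rw [mem_sigma]
      constructor
      · rw [mem_Cs]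
        exact ⟨by rw [flp_length]; exact hlen, (hL F _).2 m1⟩
      · simp only [smlA]
        rw [mem_filter, mem_powerset]
        constructor
        · intro i hi
          unfold cov at hi
          rw [mem_biUnion] at hi
          obtain ⟨q, hq, hqi⟩ := hi
          rw [mem_Ico] at hqi
          rw [mem_range]
          have := hvp q hq
          omega
        · refine (hBC n S hvp).trans ?_
          intro i hi
          rw [mem_union] at hi ⊢
          rcases hi with hi | hi
          · left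
            rw [mem_image] at hi
            obtain ⟨q, hq, rfl⟩ := hi
            exact (m4 q hq).1
          · right
            rw [mem_image] at hi
            obtain ⟨q, hq, rfl⟩ := hi
            rw [mem_image]
            refine ⟨q.2 - 1, (m4 q hq).2, ?_⟩
            have := hvp q hq
            omega
    · simp only [g, Φ]
      have hs : ∑ q ∈ S, sz F w q ≤ S.card * L := by
        calc ∑ q ∈ S, sz F w q ≤ ∑ _q ∈ S, L := sum_le_sum fun q hq => (h4 q hq).le
          _ = S.card * L := by rw [sum_const, smul_eq_mul]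
      have hc : (Cut F (flp F (cov S) w)).card ≤ 3 * (L * S.card) := by
        rw [h2, card_empty] at m5
        have : L * S.card = S.card * L := mul_comm _ _
        omega
      calc x ^ S.card = (1 / 64 : ℝ) ^ (L * S.card) := by rw [hx, pow_mul]
        _ = (1 / 4 : ℝ) ^ (3 * (L * S.card)) := by
          rw [pow_mul (1 / 4 : ℝ) 3]
          norm_num
        _ ≤ (1 / 4 : ℝ) ^ (Cut F (flp F (cov S) w)).card :=
          pow_le_pow_of_le_one (by norm_num) (by norm_num) hc
  calc ∑ w ∈ W, (1 + x) ^ ((V F w).filter (fun q => sz F w q < L)).card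
      = ∑ w ∈ W, ∑ S ∈ (T w).powerset, x ^ S.card := sum_congr rfl fun w _ => e1 w
    _ = ∑ p ∈ P, x ^ p.2.card := by
      rw [sum_sigma]
    _ ≤ ∑ p ∈ P, g (Φ p) := sum_le_sum fun p hp => (hmaps p hp).2
    _ = ∑ y ∈ P.image Φ, g y := (sum_image hinj).symm
    _ ≤ ∑ y ∈ Q, g y := by
      apply sum_le_sum_of_subset_of_nonneg
      · intro y hy
        rw [mem_image] at hy
        obtain ⟨p, hp, rfl⟩ := hy
        exact (hmaps p hp).1
      · intro y _ _
        simp only [g]
        positivity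
    _ = ∑ w ∈ Cs n, ∑ _A ∈ smlA F n w, (1 / 4 : ℝ) ^ (Cut F w).card := by
      rw [sum_sigma]
    _ ≤ ∑ _w ∈ Cs n, (1 : ℝ) := by
      apply sum_le_sum
      intro w _
      rw [sum_const, nsmul_eq_mul]
      have h := smlA_card hBI F n w
      have h' : ((smlA F n w).card : ℝ) ≤ (4 : ℝ) ^ (Cut F w).card := by exact_mod_cast h
      calc ((smlA F n w).card : ℝ) * (1 / 4 : ℝ) ^ (Cut F w).card
          ≤ (4 : ℝ) ^ (Cut F w).card * (1 / 4 : ℝ) ^ (Cut F w).card :=
            mul_le_mul_of_nonneg_right h' (by positivity)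
        _ = 1 := by rw [← mul_pow]; norm_num
    _ = ((Cs n).card : ℝ) := by simp

end Pool.Agent.SUBB
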