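import Pool.Agent.SUBB.Stmts
import Pool.Agent.SUBB.Basic

/-!
# SUBB, module THR: the threshold of `u + t` is at most the threshold of `u`
-/

set_option autoImplicit false

namespace Pool.Agent.SUBB

open Finset Filter Topology
open Pool.Agent.Lib27

namespace THR

lemma thin_mono {P Q : Wo → Prop} (h : ∀ w, P w → Q w) (hQ : Thin Q) : Thin P := by
  classical
  obtain ⟨c, hc, C, hC⟩ := hQ
  refine ⟨c, hc, C, fun n => le_trans ?_ (hC n)⟩
  norm_cast
  refine card_le_card fun w hw => ?_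
  rw [mem_filter] at hw ⊢
  exact ⟨hw.1, h w hw.2⟩

lemma thin_mono_v (ψ : Wo → ℝ) {v v' : ℝ} (h : v ≤ v')
    (hv : Thin (fun w => v * (w.length : ℝ) ≤ ψ w)) :
    Thin (fun w => v' * (w.length : ℝ) ≤ ψ w) := by
  refine thin_mono (fun w hw => le_trans ?_ hw) hv
  exact mul_le_mul_of_nonneg_right h (Nat.cast_nonneg _)

/-- above `2` there is only the empty word -/
lemma thin_two (F : Frame) (v : ℝ) (hv : 2 < v) :
    Thin (fun w => v * (w.length : ℝ) ≤ ((su F w + st F w : ℤ) : ℝ)) := by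
  classical
  refine ⟨1, one_pos, 1, fun n => ?_⟩
  rcases Nat.eq_zero_or_pos n with rfl | hn
  · have h1 : (((Cs 0).filter (fun w => v * (w.length : ℝ) ≤ ((su F w + st F w : ℤ) : ℝ))).card :
        ℝ) ≤ ((Cs 0).card : ℝ) := by
      exact_mod_cast card_le_card (filter_subset _ _)
    have h2 : ((Cs 0).card : ℝ) ≤ 1 := by
      have := Cs_le 0
      exact_mod_cast this
    have h3 := h1.trans h2
    simpa using h3
  · have h1 : (Cs n).filter (fun w => v * (w.length : ℝ) ≤ ((su F w + st F w : ℤ) : ℝ)) = ∅ := by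
      rw [filter_eq_empty_iff]
      intro w hw hcon
      have hl := ((mem_Cs n w).1 hw).1
      have h2 := (abs_le.1 (abs_su_le F w)).2
      have h3 := (abs_le.1 (abs_st_le F w)).2
      have h4 : ((su F w + st F w : ℤ) : ℝ) ≤ 2 * w.length := by
        have : su F w + st F w ≤ 2 * (w.length : ℤ) := by linarith
        exact_mod_cast this
      have h5 : (0 : ℝ) < w.length := by
        rw [hl]
        exact_mod_cast hn
      nlinarith
    rw [h1]
    simp only [card_empty, Nat.cast_zero]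
    positivity

end THR

open THR in
/-- the threshold of `u + t` is at most the threshold of `u` -/
theorem t_THR (hG : GST_Stmt) : THR_Stmt := by
  intro F v₁ hv₁ hu
  obtain ⟨S, hS⟩ : ∃ S : Set ℝ, S = {v | v₁ ≤ v ∧
    ∀ v', v < v' → Thin (fun w => v' * (w.length : ℝ) ≤ ((su F w + st F w : ℤ) : ℝ))} := ⟨_, rfl⟩
  have hmem : ∀ v, v ∈ S ↔ v₁ ≤ v ∧
      ∀ v', v < v' → Thin (fun w => v' * (w.length : ℝ) ≤ ((su F w + st F w : ℤ) : ℝ)) := by
    intro v
    rw [hS]
    exact Iff.rfl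
  have hne : S.Nonempty := ⟨max 2 v₁, (hmem _).2 ⟨le_max_right _ _, fun v' hv' =>
    thin_two F v' ((le_max_left _ _).trans_lt hv')⟩⟩
  have hbd : BddBelow S := ⟨v₁, fun v hv => ((hmem v).1 hv).1⟩
  have hab : ∀ v, sInf S < v →
      Thin (fun w => v * (w.length : ℝ) ≤ ((su F w + st F w : ℤ) : ℝ)) := by
    intro v hv
    obtain ⟨s, hs, hsv⟩ := exists_lt_of_csInf_lt hne hv
    exact ((hmem s).1 hs).2 v hsv
  have hle : sInf S ≤ v₁ := by
    by_contra hcon
    push Not at hcon
    have h2 : sInf S ≤ 2 := by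
      rcases le_total 2 v₁ with h | h
      · have h3 : v₁ ∈ S := (hmem _).2 ⟨le_rfl, fun v' hv' => thin_two F v' (h.trans_lt hv')⟩
        exact absurd (csInf_le hbd h3) (not_le.2 hcon)
      · exact csInf_le hbd ((hmem _).2 ⟨h, fun v' hv' => thin_two F v' hv'⟩)
    obtain ⟨δ, hδ, hT⟩ := hG F v₁ (sInf S) hv₁ hcon h2 hu hab
    have h3 : max (sInf S - δ) v₁ ∈ S := (hmem _).2 ⟨le_max_right _ _, fun v' hv' =>
      thin_mono_v (fun w => ((su F w + st F w : ℤ) : ℝ)) ((le_max_left _ _).trans hv'.le) hT⟩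
    have h4 := csInf_le hbd h3
    have h5 : max (sInf S - δ) v₁ < sInf S := max_lt (by linarith) hcon
    linarith
  intro v hv
  exact hab v (hle.trans_lt hv)

end Pool.Agent.SUBB
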