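import Pool.Agent.SUBB.Stmts
import Pool.Agent.SUBB.Basic

set_option autoImplicit false

namespace Pool.Agent.SUBB

open Finset Filter Topology
open Pool.Agent.Lib27

theorem t_TRM : TRM_Stmt := by
  intro v2 v3 δ hv2 h23 hv3 hδ
  have hη : 0 < v3 - v2 := by linarith
  have hη2 : v3 - v2 ≤ 2 := by linarith
  set τ : ℝ := (v3 - v2) / 13 with hτdef
  have hτ : 0 < τ := by positivity
  have hτ1 : τ ≤ 2 / 13 := by rw [hτdef]; linarith
  set θ : ℝ := 1 - Real.exp (-(τ * δ)) with hθdef
  have hexp : Real.exp (-(τ * δ)) < 1 := by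
    rw [Real.exp_lt_one_iff]
    have := mul_pos hτ hδ
    linarith
  have hθ : 0 < θ := by rw [hθdef]; linarith
  have hθ1 : θ < 1 := by rw [hθdef]; linarith [Real.exp_pos (-(τ * δ))]
  refine ⟨θ, τ, hθ, hθ1, hτ, ?_⟩
  intro lam l u t hlam hl hu ht hor
  have hT0 : 0 < lam * l := mul_pos hlam hl
  have hR : 1 + lam * (u - v2 * l) ≤ (1 - θ) + θ * Real.exp (lam / θ * (u - v2 * l)) := by
    have h1 := Real.add_one_le_exp (lam / θ * (u - v2 * l))
    have h2 := mul_le_mul_of_nonneg_left h1 hθ.le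
    have h3 : θ * (lam / θ * (u - v2 * l) + 1) = lam * (u - v2 * l) + θ := by
      field_simp
    rw [h3] at h2
    linarith
  by_cases hT : lam * l ≤ τ
  · refine le_trans ?_ hR
    have hc : Real.cosh (lam * t) ≤ Real.exp ((lam * l) ^ 2 / 2) := by
      refine (Real.cosh_le_exp_half_sq _).trans (Real.exp_le_exp.2 ?_)
      have h1 : |lam * t| ≤ lam * l := by
        rw [abs_mul, abs_of_pos hlam]
        exact mul_le_mul_of_nonneg_left ht hlam.le
      have h2 : (lam * t) ^ 2 ≤ (lam * l) ^ 2 := by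
        rw [← sq_abs (lam * t)]
        exact pow_le_pow_left₀ (abs_nonneg _) h1 2
      linarith
    set x : ℝ := lam * (u - v3 * l) + (lam * l) ^ 2 / 2 with hx
    have h1 : Real.exp (lam * (u - v3 * l)) * Real.cosh (lam * t) ≤ Real.exp x := by
      rw [hx, Real.exp_add]
      exact mul_le_mul_of_nonneg_left hc (Real.exp_pos _).le
    refine h1.trans ?_
    have hu1 := abs_le.1 hu
    have hTu : |lam * u| ≤ lam * l := by
      rw [abs_mul, abs_of_pos hlam]
      exact mul_le_mul_of_nonneg_left hu hlam.le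
    have hTu1 := abs_le.1 hTu
    have hv3T : lam * (v3 * l) = v3 * (lam * l) := by ring
    have hv3a : 0 ≤ v3 * (lam * l) := by
      have : 0 ≤ v3 := by linarith
      positivity
    have hv3b : v3 * (lam * l) ≤ 2 * (lam * l) := mul_le_mul_of_nonneg_right hv3 hT0.le
    have hTsq : (lam * l) ^ 2 ≤ lam * l := by
      rw [sq]
      exact mul_le_of_le_one_left hT0.le (by linarith)
    have hTsq0 : 0 ≤ (lam * l) ^ 2 := sq_nonneg _
    have hxe : x = lam * u - v3 * (lam * l) + (lam * l) ^ 2 / 2 := by rw [hx]; ring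
    have hxa : |x| ≤ 7 / 2 * (lam * l) := by
      rw [abs_le]
      constructor <;> rw [hxe] <;> linarith [hTu1.1, hTu1.2]
    have hx1 : |x| ≤ 1 := by linarith
    have h2 := (abs_le.1 (Real.abs_exp_sub_one_sub_id_le hx1)).2
    have h3 : x ^ 2 ≤ (7 / 2 * (lam * l)) ^ 2 := by
      rw [← sq_abs x]
      exact pow_le_pow_left₀ (abs_nonneg _) hxa 2
    have h4 : 13 * (lam * l) * (lam * l) ≤ (v3 - v2) * (lam * l) := by
      refine mul_le_mul_of_nonneg_right ?_ hT0.le
      rw [hτdef] at hT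
      linarith
    have h5 : lam * (u - v2 * l) = lam * u - v3 * (lam * l) + (v3 - v2) * (lam * l) := by ring
    rw [h5]
    have h6 : (7 / 2 * (lam * l)) ^ 2 = 49 / 4 * (lam * l) ^ 2 := by ring
    have h7 : 13 * (lam * l) * (lam * l) = 13 * (lam * l) ^ 2 := by ring
    rw [h6] at h3
    rw [h7] at h4
    linarith
  · have hor' := hor.resolve_left hT
    rw [not_le] at hT
    have hc : Real.cosh (lam * t) ≤ Real.exp (lam * |t|) := by
      rw [← Real.cosh_abs, abs_mul, abs_of_pos hlam, Real.cosh_eq]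
      have h0 : 0 ≤ lam * |t| := by positivity
      have h1 : Real.exp (-(lam * |t|)) ≤ Real.exp (lam * |t|) := Real.exp_le_exp.2 (by linarith)
      linarith
    have h1 : Real.exp (lam * (u - v3 * l)) * Real.cosh (lam * t) ≤ Real.exp (-(τ * δ)) := by
      refine (mul_le_mul_of_nonneg_left hc (Real.exp_pos _).le).trans ?_
      rw [← Real.exp_add]
      refine Real.exp_le_exp.2 ?_
      have h2 := mul_le_mul_of_nonneg_left hor' hlam.le
      have h3 := mul_le_mul_of_nonneg_right hT.le hδ.le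
      nlinarith [h2, h3]
    have h2 : 0 ≤ θ * Real.exp (lam / θ * (u - v2 * l)) := by positivity
    have h3 : 1 - θ = Real.exp (-(τ * δ)) := by rw [hθdef]; ring
    linarith

end Pool.Agent.SUBB
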