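import Pool.Agent.SUBB.Stmts
import Pool.Agent.SUBB.Basic

/-!
# Module TS1 (project SUBB, helper83): rare events have exponential moments
-/

set_option autoImplicit false

namespace Pool.Agent.SUBB

open Finset Filter Topology
open Pool.Agent.Lib27

/-- geometric sums of exponentials -/
theorem ts1_geom (δ : ℝ) (hδ : 0 < δ) (N : ℕ) :
    ∑ n ∈ range (N + 1), Real.exp (-(δ * n)) ≤ (1 - Real.exp (-δ))⁻¹ := by
  have h1 : Real.exp (-δ) < 1 := by
    rw [Real.exp_lt_one_iff]
    linarith
  have h0 : 0 ≤ Real.exp (-δ) := (Real.exp_pos _).le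
  have h2 : ∀ n : ℕ, Real.exp (-(δ * n)) = Real.exp (-δ) ^ n := by
    intro n
    rw [← Real.exp_nat_mul]
    congr 1
    ring
  rw [Finset.sum_congr rfl fun n _ => h2 n]
  exact sum_le_hasSum _ (fun n _ => pow_nonneg h0 n) (hasSum_geometric_of_lt_one h0 h1)

theorem ts1_all {α : Type*} (s : Finset α) (P : α → Prop) (inst : DecidablePred P)
    (h : ∀ x, P x) : @Finset.filter α P inst s = s :=
  Finset.filter_true_of_mem fun x _ => h x

theorem t_TS1 (hCSU : CSU_Stmt) : TS1_Stmt := by
  classical
  intro ψ hψ v v' hv hthin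
  have hv2 : v < (v + v') / 2 := by linarith
  obtain ⟨c, hc, C, hC⟩ := hthin _ hv2
  have hden : 0 < 2 * (2 + |v'|) := by
    have := abs_nonneg v'
    linarith
  refine ⟨c / (2 * (2 + |v'|)), div_pos hc hden, ?_⟩
  intro l hl hl0
  rw [le_div_iff₀ hden] at hl0
  have hε : 0 < l * (v' - v) / 4 := by
    have : 0 < v' - v := by linarith
    positivity
  obtain ⟨C1, hC1, hCs⟩ := hCSU _ hε
  have hC0 : 0 ≤ C := by
    have h := hC 0
    have h1 : (0 : ℝ) ≤ C * Real.exp ((Lm - c) * (0 : ℕ)) := le_trans (Nat.cast_nonneg _) h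
    simpa using h1
  refine ⟨C * (1 - Real.exp (-(c / 2)))⁻¹ + C1 * (1 - Real.exp (-(l * (v' - v) / 4)))⁻¹, ?_⟩
  intro N
  unfold Gs
  have key : ∀ n : ℕ, ∑ w ∈ Cs n,
      Real.exp (-((Lm + l * v') * (w.length : ℝ)) + l * ψ w) ≤
      C * Real.exp (-(c / 2 * n)) + C1 * Real.exp (-(l * (v' - v) / 4 * n)) := by
    intro n
    have hn : (0 : ℝ) ≤ n := Nat.cast_nonneg n
    rw [← Finset.sum_filter_add_sum_filter_not _
      (fun w : Wo => (v + v') / 2 * (w.length : ℝ) ≤ ψ w)]
    have hmem : ∀ w ∈ Cs n, w.length = n := fun w hw => Cs_length hw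
    apply add_le_add
    · have hcard : (((Cs n).filter
          (fun w : Wo => (v + v') / 2 * (w.length : ℝ) ≤ ψ w)).card : ℝ) ≤
          C * Real.exp ((Lm - c) * n) := by
        refine le_trans (le_of_eq ?_) (hC n)
        congr 2
      calc ∑ w ∈ (Cs n).filter
            (fun w : Wo => (v + v') / 2 * (w.length : ℝ) ≤ ψ w),
            Real.exp (-((Lm + l * v') * (w.length : ℝ)) + l * ψ w)
          ≤ ∑ _w ∈ (Cs n).filter
            (fun w : Wo => (v + v') / 2 * (w.length : ℝ) ≤ ψ w),
            Real.exp ((-Lm + c / 2) * n) := by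
            apply Finset.sum_le_sum
            intro w hw
            have hlen := hmem w (mem_filter.mp hw).1
            rw [hlen]
            apply Real.exp_le_exp.mpr
            have h1 : ψ w ≤ 2 * (n : ℝ) := by
              have := (abs_le.mp (hψ w)).2
              rwa [hlen] at this
            have h2 : -v' ≤ |v'| := neg_le_abs v'
            have h3 : l * ψ w ≤ l * (2 * (n : ℝ)) := mul_le_mul_of_nonneg_left h1 hl.le
            have h4 : l * (-v') * n ≤ l * |v'| * n :=
              mul_le_mul_of_nonneg_right (mul_le_mul_of_nonneg_left h2 hl.le) hn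
            have h5 : l * (2 * (2 + |v'|)) * n ≤ c * n := mul_le_mul_of_nonneg_right hl0 hn
            nlinarith
        _ = (((Cs n).filter
            (fun w : Wo => (v + v') / 2 * (w.length : ℝ) ≤ ψ w)).card : ℝ) *
            Real.exp ((-Lm + c / 2) * n) := by rw [Finset.sum_const, nsmul_eq_mul]
        _ ≤ (C * Real.exp ((Lm - c) * n)) * Real.exp ((-Lm + c / 2) * n) :=
            mul_le_mul_of_nonneg_right hcard (Real.exp_pos _).le
        _ = C * Real.exp (-(c / 2 * n)) := by
            rw [mul_assoc, ← Real.exp_add]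
            congr 2
            ring
    · have hcard : (((Cs n).filter
          (fun w : Wo => ¬ (v + v') / 2 * (w.length : ℝ) ≤ ψ w)).card : ℝ) ≤
          C1 * Real.exp ((Lm + l * (v' - v) / 4) * n) := by
        refine le_trans ?_ (hCs n)
        exact_mod_cast Finset.card_le_card (Finset.filter_subset _ _)
      calc ∑ w ∈ (Cs n).filter
            (fun w : Wo => ¬ (v + v') / 2 * (w.length : ℝ) ≤ ψ w),
            Real.exp (-((Lm + l * v') * (w.length : ℝ)) + l * ψ w)
          ≤ ∑ _w ∈ (Cs n).filter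
            (fun w : Wo => ¬ (v + v') / 2 * (w.length : ℝ) ≤ ψ w),
            Real.exp ((-Lm - 2 * (l * (v' - v) / 4)) * n) := by
            apply Finset.sum_le_sum
            intro w hw
            have hlen := hmem w (mem_filter.mp hw).1
            have h1 := (mem_filter.mp hw).2
            rw [hlen] at h1 ⊢
            apply Real.exp_le_exp.mpr
            have h2 : l * ψ w ≤ l * ((v + v') / 2 * n) :=
              mul_le_mul_of_nonneg_left (not_le.mp h1).le hl.le
            nlinarith
        _ = (((Cs n).filter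
            (fun w : Wo => ¬ (v + v') / 2 * (w.length : ℝ) ≤ ψ w)).card : ℝ) *
            Real.exp ((-Lm - 2 * (l * (v' - v) / 4)) * n) := by
            rw [Finset.sum_const, nsmul_eq_mul]
        _ ≤ (C1 * Real.exp ((Lm + l * (v' - v) / 4) * n)) *
            Real.exp ((-Lm - 2 * (l * (v' - v) / 4)) * n) :=
            mul_le_mul_of_nonneg_right hcard (Real.exp_pos _).le
        _ = C1 * Real.exp (-(l * (v' - v) / 4 * n)) := by
            rw [mul_assoc, ← Real.exp_add]
            congr 2
            ring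
  have hsum : ∑ n ∈ range (N + 1), ∑ w ∈ Cs n,
      Real.exp (-((Lm + l * v') * (w.length : ℝ)) + l * ψ w) ≤
      ∑ n ∈ range (N + 1), (C * Real.exp (-(c / 2 * n)) +
        C1 * Real.exp (-(l * (v' - v) / 4 * n))) := Finset.sum_le_sum fun n _ => key n
  have hfin : ∑ n ∈ range (N + 1), (C * Real.exp (-(c / 2 * n)) +
        C1 * Real.exp (-(l * (v' - v) / 4 * n))) ≤
      C * (1 - Real.exp (-(c / 2)))⁻¹ + C1 * (1 - Real.exp (-(l * (v' - v) / 4)))⁻¹ := by
    rw [Finset.sum_add_distrib, ← Finset.mul_sum, ← Finset.mul_sum]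
    apply add_le_add
    · exact mul_le_mul_of_nonneg_left (ts1_geom _ (by linarith) N) hC0
    · exact mul_le_mul_of_nonneg_left (ts1_geom _ hε N) hC1.le
  refine le_trans ?_ (hsum.trans hfin)
  apply le_of_eq
  refine Finset.sum_congr rfl fun n _ => Finset.sum_congr ?_ fun _ _ => rfl
  exact ts1_all _ _ _ fun _ => trivial

end Pool.Agent.SUBB
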