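import Pool.Agent.SUBB.Stmts
import Pool.Agent.SUBB.Basic

set_option autoImplicit false

namespace Pool.Agent.SUBB

open Finset Filter Topology
open Pool.Agent.Lib27

lemma filter_all {α : Type*} (s : Finset α) (P : α → Prop) (inst : DecidablePred P)
    (h : ∀ x, P x) : @Finset.filter α P inst s = s :=
  Finset.filter_true_of_mem fun x _ => h x

/-- the sum over all self-avoiding words -/
lemma Gs_true (ω : Wo → ℝ) (N : ℕ) :
    Gs (fun _ => True) ω N = ∑ n ∈ range (N + 1), ∑ w ∈ Cs n, ω w := by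
  classical
  unfold Gs
  refine Finset.sum_congr rfl fun n _ => Finset.sum_congr ?_ fun _ _ => rfl
  exact filter_all _ _ _ fun _ => trivial

theorem t_TS2 : TS2_Stmt := by
  classical
  intro ψ v l hl ⟨B, hB⟩ v' hv
  refine ⟨l * (v' - v), mul_pos hl (by linarith), B, fun n => ?_⟩
  have h1 := hB n
  rw [Gs_true] at h1
  have h2 : ∑ w ∈ Cs n,
      Real.exp (-((Lm + l * v) * (w.length : ℝ)) + l * ψ w) ≤ B := by
    refine le_trans ?_ h1
    exact Finset.single_le_sum (f := fun m => ∑ w ∈ Cs m,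
      Real.exp (-((Lm + l * v) * (w.length : ℝ)) + l * ψ w))
      (fun m _ => Finset.sum_nonneg fun w _ => (Real.exp_pos _).le)
      (mem_range.2 (Nat.lt_succ_self n))
  have h3 : ∑ w ∈ (Cs n).filter (fun w => v' * (w.length : ℝ) ≤ ψ w),
      Real.exp (-((Lm - l * (v' - v)) * n)) ≤ B := by
    refine le_trans ?_ h2
    refine (Finset.sum_le_sum (g := fun w =>
      Real.exp (-((Lm + l * v) * (w.length : ℝ)) + l * ψ w)) ?_).trans
      (Finset.sum_le_sum_of_subset_of_nonneg (Finset.filter_subset _ _)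
        fun w _ _ => (Real.exp_pos _).le)
    intro w hw
    rw [mem_filter] at hw
    have hlen := Cs_length hw.1
    refine Real.exp_le_exp.2 ?_
    have h4 := mul_le_mul_of_nonneg_left hw.2 hl.le
    rw [hlen] at h4 ⊢
    linarith [h4, mul_comm l (v' * (n : ℝ))]
  rw [Finset.sum_const, nsmul_eq_mul] at h3
  have h5 : (((Cs n).filter (fun w => v' * (w.length : ℝ) ≤ ψ w)).card : ℝ) ≤
      B * Real.exp ((Lm - l * (v' - v)) * n) := by
    calc (((Cs n).filter (fun w => v' * (w.length : ℝ) ≤ ψ w)).card : ℝ)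
        = (((Cs n).filter (fun w => v' * (w.length : ℝ) ≤ ψ w)).card : ℝ) *
            Real.exp (-((Lm - l * (v' - v)) * n)) * Real.exp ((Lm - l * (v' - v)) * n) := by
          rw [mul_assoc, ← Real.exp_add]
          simp
      _ ≤ B * Real.exp ((Lm - l * (v' - v)) * n) :=
          mul_le_mul_of_nonneg_right h3 (Real.exp_pos _).le
  convert h5

end Pool.Agent.SUBB
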