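import Pool.Agent.SUBB.Stmts
import Pool.Agent.SUBB.Basic

/-!
# Self-avoiding walks are sub-ballistic: one unfolding, the cut times (`UNC_Stmt`)
-/

set_option autoImplicit false

namespace Pool.Agent.SUBB

open Finset Filter Topology
open Pool.Agent.Lib27

/-- Module UNC. -/
theorem t_UNC : UNC_Stmt := by
  classical
  intro F w q hq
  rw [mem_V] at hq
  obtain ⟨hsz, hsz0⟩ := sz_cast F hq
  obtain ⟨h1, h2, h3, h4, h5, h6⟩ := hq
  obtain ⟨j, k⟩ := q
  simp only at *
  have lo : ∀ i, i ≤ j → pu F (flp F (Ico j k) w) i = pu F w i := fun i hi =>
    pu_flp_lo F w j k i hi
  have mid : ∀ i, j ≤ i → i ≤ k → pu F (flp F (Ico j k) w) i = 2 * pu F w j - pu F w i :=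
    fun i hi hk => pu_flp_mid F w j k i hi hk
  have hi' : ∀ i, k ≤ i → pu F (flp F (Ico j k) w) i = pu F w i + 2 * (pu F w j - pu F w k) :=
    fun i hi => pu_flp_hi F w j k i h1.le hi
  have hjk : pu F w k < pu F w j := h5 j le_rfl h1
  have h4' : ∀ a, j ≤ a → a ≤ k → pu F w a ≤ pu F w j := by
    intro a ha hak
    rcases Nat.eq_or_lt_of_le ha with rfl | h
    · exact le_rfl
    · exact (h4 a h hak).le
  have h5' : ∀ a, j ≤ a → a ≤ k → pu F w k ≤ pu F w a := by
    intro a ha hak
    rcases Nat.eq_or_lt_of_le hak with rfl | h
    · exact le_rfl
    · exact (h5 a ha h).le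
  refine ⟨?_, ?_, ?_, ?_⟩
  · -- the old cut times
    intro i hi
    rw [mem_Cut] at hi ⊢
    obtain ⟨c1, c2, c3⟩ := hi
    rw [flp_length]
    have hnot : ¬ (j ≤ i ∧ i < k) := by
      rintro ⟨a1, a2⟩
      have b1 := c3 k a2 h2
      have b2 := h5 i a1 a2
      linarith
    rcases lt_or_ge i j with hij | hij
    · have hM := c3 j hij (by omega)
      refine ⟨c1, fun a ha => ?_, fun a ha han => ?_⟩
      · rw [lo a (by omega), lo i hij.le]
        exact c2 a ha
      · rw [lo i hij.le]
        rcases le_total a j with haj | haj
        · rw [lo a haj]
          exact c3 a ha han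
        · rcases le_total a k with hak | hak
          · rw [mid a haj hak]
            have := h4' a haj hak
            linarith
          · rw [hi' a hak]
            have := c3 a ha han
            linarith
    · have hik : k ≤ i := by omega
      have hm := h6 i hik c1.le
      refine ⟨c1, fun a ha => ?_, fun a ha han => ?_⟩
      · rw [hi' i hik]
        rcases le_total a j with haj | haj
        · rw [lo a haj]
          have := c2 a ha
          linarith
        · rcases le_total a k with hak | hak
          · rw [mid a haj hak]
            have := h5' a haj hak
            linarith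
          · rw [hi' a hak]
            have := c2 a ha
            linarith
      · rw [hi' i hik, hi' a (by omega)]
        have := c3 a ha han
        linarith
  · -- the time `j`
    rw [mem_Cut, flp_length]
    refine ⟨by omega, fun a ha => ?_, fun a ha han => ?_⟩
    · rw [lo a ha, lo j le_rfl]
      exact h3 a ha
    · rw [lo j le_rfl]
      rcases le_total a k with hak | hak
      · rw [mid a ha.le hak]
        have := h4 a ha hak
        linarith
      · rw [hi' a hak]
        have := h6 a hak han
        linarith
  · -- the time `k - 1`
    have hk1 : pu F w (k - 1) = pu F w k + 1 := by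
      have b1 := h5 (k - 1) (by omega) (by omega)
      have b2 := pu_succ_ge F w (k - 1)
      rw [Nat.sub_add_cancel (by omega)] at b2
      omega
    rw [mem_Cut, flp_length]
    refine ⟨by omega, fun a ha => ?_, fun a ha han => ?_⟩
    · rw [mid (k - 1) (by omega) (by omega), hk1]
      rcases le_total a j with haj | haj
      · rw [lo a haj]
        have := h3 a haj
        omega
      · rw [mid a haj (by omega)]
        have := h5 a haj (by omega)
        omega
    · rw [mid (k - 1) (by omega) (by omega), hk1, hi' a (by omega)]
      have := h6 a (by omega) han
      omega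
  · -- the number of the cut times
    have hinj : Set.InjOn (fun i => pu F (flp F (Ico j k) w) i)
        ((Cut F (flp F (Ico j k) w) \ Cut F w : Finset ℕ) : Set ℕ) := by
      intro x hx y hy hxy
      rw [Finset.mem_coe, Finset.mem_sdiff, mem_Cut] at hx hy
      rcases lt_trichotomy x y with h | h | h
      · have := hx.1.2.2 y h hy.1.1.le
        simp only at hxy
        omega
      · exact h
      · have := hy.1.2.2 x h hx.1.1.le
        simp only at hxy
        omega
    have hmaps : ∀ i ∈ Cut F (flp F (Ico j k) w) \ Cut F w,
        pu F (flp F (Ico j k) w) i ∈ Finset.Ico (pu F w k) (pu F w k + 3 * (sz F w (j, k) : ℤ)) := by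
      intro i hi
      rw [Finset.mem_sdiff, mem_Cut, mem_Cut, flp_length] at hi
      obtain ⟨⟨c1, c2, c3⟩, hn⟩ := hi
      rw [Finset.mem_Ico]
      rcases lt_or_ge i j with hij | hij
      · rw [lo i hij.le] at c3 ⊢
        have hM := c3 j hij (by omega)
        rw [lo j le_rfl] at hM
        refine ⟨?_, by omega⟩
        by_contra hlt
        refine hn ⟨c1, fun a ha => ?_, fun a ha han => ?_⟩
        · have := c2 a ha
          rwa [lo a (by omega), lo i hij.le] at this
        · rcases le_total a j with haj | haj
          · have := c3 a ha han
            rwa [lo a haj] at this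
          · rcases le_total a k with hak | hak
            · have := h5' a haj hak
              omega
            · have := h6 a hak han
              omega
      · rcases lt_or_ge i k with hik | hik
        · rw [mid i hij hik.le]
          have b1 := h4' i hij hik.le
          have b2 := h5 i hij hik
          constructor <;> omega
        · rw [hi' i hik]
          have b1 := h6 i hik c1.le
          refine ⟨by omega, ?_⟩
          by_contra hlt
          refine hn ⟨c1, fun a ha => ?_, fun a ha han => ?_⟩
          · rcases le_total a j with haj | haj
            · have := h3 a haj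
              omega
            · rcases le_total a k with hak | hak
              · have := h4' a haj hak
                omega
              · have := c2 a ha
                rw [hi' a hak, hi' i hik] at this
                omega
          · have := c3 a ha han
            rw [hi' i hik, hi' a (by omega)] at this
            omega
    have hcard : (Cut F (flp F (Ico j k) w) \ Cut F w).card ≤ 3 * sz F w (j, k) := by
      have := Finset.card_le_card_of_injOn _ hmaps hinj
      rw [Int.card_Ico] at this
      omega
    have hsub : Cut F (flp F (Ico j k) w) ⊆
        Cut F w ∪ (Cut F (flp F (Ico j k) w) \ Cut F w) := by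
      intro i hi
      by_cases h : i ∈ Cut F w
      · exact Finset.mem_union_left _ h
      · exact Finset.mem_union_right _ (Finset.mem_sdiff.2 ⟨hi, h⟩)
    calc (Cut F (flp F (Ico j k) w)).card ≤ _ := Finset.card_le_card hsub
      _ ≤ _ := Finset.card_union_le _ _
      _ ≤ _ := by omega

end Pool.Agent.SUBB
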