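import Pool.Agent.SUBB.Stmts
import Pool.Agent.SUBB.Basic

/-!
# SUBB, module UNF: one unfolding
-/

set_option autoImplicit false

namespace Pool.Agent.SUBB

open Finset Filter Topology
open Pool.Agent.Lib27

theorem t_UNF : UNF_Stmt := by
  intro F w q hSA hq
  obtain ⟨j, k⟩ := q
  have hq' : VP F w (j, k) := by
    classical
    exact (Finset.mem_filter.mp hq).2
  obtain ⟨hjk, hkn, h1, h2, h3, h4⟩ := hq'
  simp only at hjk hkn h1 h2 h3 h4
  have hmM : pu F w k < pu F w j := h3 j le_rfl hjk
  have hsz : ((sz F w (j, k) : ℕ) : ℤ) = pu F w j - pu F w k := by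
    unfold sz
    exact Int.toNat_of_nonneg (by simp only; linarith)
  refine ⟨?_, ?_, st_flp F _ w⟩
  · intro a b hab hb hne
    rw [flp_length] at hb
    rw [pt_flp, pt_flp] at hne
    obtain ⟨hu, ht⟩ := hne
    simp only at hu
    have hnot : pu F w a ≠ pu F w b := fun h => hSA a b hab hb ⟨h, ht⟩
    by_cases hak : a ≤ k
    · by_cases haj : a ≤ j
      · rw [pu_flp_lo F w j k a haj] at hu
        by_cases hbj : b ≤ j
        · rw [pu_flp_lo F w j k b hbj] at hu
          exact hnot hu
        · by_cases hbk : b ≤ k
          · rw [pu_flp_mid F w j k b (by omega) hbk] at hu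
            have h5 := h1 a haj
            have h6 := h2 b (by omega) hbk
            linarith
          · rw [pu_flp_hi F w j k b hjk.le (by omega)] at hu
            have h5 := h1 a haj
            have h6 := h4 b (by omega) hb
            linarith
      · rw [pu_flp_mid F w j k a (by omega) hak] at hu
        by_cases hbk : b ≤ k
        · rw [pu_flp_mid F w j k b (by omega) hbk] at hu
          apply hnot
          linarith
        · rw [pu_flp_hi F w j k b hjk.le (by omega)] at hu
          have h6 := h4 b (by omega) hb
          rcases Nat.lt_or_ge a k with hlt | hge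
          · have h5 := h3 a (by omega) hlt
            linarith
          · have hak' : a = k := le_antisymm hak hge
            subst hak'
            apply hnot
            linarith
    · rw [pu_flp_hi F w j k a hjk.le (by omega), pu_flp_hi F w j k b hjk.le (by omega)] at hu
      apply hnot
      linarith
  · have h5 := pu_flp_hi F w j k w.length hjk.le hkn
    have h6 := pu_length F (flp F (Ico j k) w)
    rw [flp_length] at h6
    rw [← h6, h5, pu_length, hsz]

end Pool.Agent.SUBB
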