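import Pool.Agent.SUBB.Stmts
import Pool.Agent.SUBB.Basic

/-!
# Self-avoiding walks are sub-ballistic, module UNV: one unfolding, the other backtracks stay
-/

set_option autoImplicit false

namespace Pool.Agent.SUBB

open Finset

/-- two different backtracks are disjoint -/
lemma UNV_sep (F : Frame) {w : Wo} {q r : ℕ × ℕ} (hq : VP F w q) (hr : VP F w r) (hne : r ≠ q) :
    q.2 ≤ r.1 ∨ r.2 ≤ q.1 := by
  obtain ⟨j, k⟩ := q
  obtain ⟨j', k'⟩ := r
  obtain ⟨a1, a2, a3, a4, a5, a6⟩ := hq
  obtain ⟨b1, b2, b3, b4, b5, b6⟩ := hr
  simp only at a1 a2 a3 a4 a5 a6 b1 b2 b3 b4 b5 b6 ⊢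
  by_contra hcon
  push Not at hcon
  obtain ⟨h1, h2⟩ := hcon
  rcases lt_trichotomy j j' with h | h | h
  · have e1 := a4 j' h h1.le
    have e2 := b3 j h.le
    omega
  · subst h
    rcases lt_trichotomy k k' with h3 | h3 | h3
    · have e1 := b5 k h1.le h3
      have e2 := a6 k' h3.le b2
      omega
    · subst h3
      exact hne rfl
    · have e1 := a5 k' h2.le h3
      have e2 := b6 k h3.le a2
      omega
  · have e1 := b4 j h h2.le
    have e2 := a3 j' h.le
    omega

/-- Module UNV. -/
theorem t_UNV : UNV_Stmt := by
  intro F w q r hq hr hne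
  rw [mem_V] at hq hr
  have hsep := UNV_sep F hq hr hne
  have hdis : Disjoint (Ico q.1 q.2) (Ico r.1 r.2) := by
    rw [Finset.disjoint_left]
    intro a ha hb
    rw [mem_Ico] at ha hb
    omega
  rw [mem_V]
  obtain ⟨j, k⟩ := q
  obtain ⟨j', k'⟩ := r
  obtain ⟨a1, a2, a3, a4, a5, a6⟩ := hq
  obtain ⟨b1, b2, b3, b4, b5, b6⟩ := hr
  simp only at a1 a2 a3 a4 a5 a6 b1 b2 b3 b4 b5 b6 hsep hdis ⊢
  have hMm := a4 k a1 le_rfl
  have lo := pu_flp_lo F w j k
  have mid := pu_flp_mid F w j k
  have hi := fun i h => pu_flp_hi F w j k i a1.le h
  refine ⟨?_, ?_, hdis⟩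
  · rcases hsep with h | h
    · have ej := hi j' h
      have ek := hi k' (by omega)
      refine ⟨b1, by rw [flp_length]; exact b2, ?_, ?_, ?_, ?_⟩
      · intro a ha
        simp only at ha ⊢
        rw [ej]
        have e0 := a6 j' h (by omega)
        rcases le_total a j with h1 | h1
        · rw [lo a h1]
          have e1 := b3 a ha
          omega
        · rcases le_total a k with h2 | h2
          · rw [mid a h1 h2]
            have e1 : pu F w k ≤ pu F w a := by
              rcases lt_or_eq_of_le h2 with h3 | h3
              · exact (a5 a h1 h3).le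
              · rw [h3]
            omega
          · rw [hi a h2]
            have e1 := b3 a ha
            omega
      · intro a h1 h2
        simp only at h1 h2 ⊢
        rw [ej, hi a (by omega)]
        have e1 := b4 a h1 h2
        omega
      · intro a h1 h2
        simp only at h1 h2 ⊢
        rw [ek, hi a (by omega)]
        have e1 := b5 a h1 h2
        omega
      · intro a h1 h2
        simp only at h1 h2 ⊢
        rw [flp_length] at h2
        rw [ek, hi a (by omega)]
        have e1 := b6 a h1 h2
        omega
    · have ej := lo j' (by omega)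
      have ek := lo k' (by omega)
      refine ⟨b1, by rw [flp_length]; exact b2, ?_, ?_, ?_, ?_⟩
      · intro a ha
        simp only at ha ⊢
        rw [ej, lo a (by omega)]
        exact b3 a ha
      · intro a h1 h2
        simp only at h1 h2 ⊢
        rw [ej, lo a (by omega)]
        exact b4 a h1 h2
      · intro a h1 h2
        simp only at h1 h2 ⊢
        rw [ek, lo a (by omega)]
        exact b5 a h1 h2
      · intro a h1 h2
        simp only at h1 h2 ⊢
        rw [flp_length] at h2
        rw [ek]
        have e0 := b6 j h (by omega)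
        rcases le_total a j with h3 | h3
        · rw [lo a h3]
          exact b6 a h1 h2
        · rcases le_total a k with h4 | h4
          · rw [mid a h3 h4]
            have e1 : pu F w a ≤ pu F w j := by
              rcases lt_or_eq_of_le h3 with h5 | h5
              · exact (a4 a h5 h4).le
              · rw [h5]
            omega
          · rw [hi a h4]
            have e1 := b6 a h1 h2
            omega
  · unfold sz
    simp only
    rcases hsep with h | h
    · rw [hi j' h, hi k' (by omega)]
      congr 1
      ring
    · rw [lo j' (by omega), lo k' (by omega)]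

end Pool.Agent.SUBB
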