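import Pool.Agent.SUBB.BDC
import Pool.Agent.SUBB.BDI
import Pool.Agent.SUBB.BKU
import Pool.Agent.SUBB.BLT
import Pool.Agent.SUBB.BSY
import Pool.Agent.SUBB.COV
import Pool.Agent.SUBB.CSU
import Pool.Agent.SUBB.ENT
import Pool.Agent.SUBB.GST
import Pool.Agent.SUBB.LIM
import Pool.Agent.SUBB.LNK
import Pool.Agent.SUBB.LRB
import Pool.Agent.SUBB.LRG
import Pool.Agent.SUBB.MAP
import Pool.Agent.SUBB.MUL
import Pool.Agent.SUBB.NCF
import Pool.Agent.SUBB.NCT
import Pool.Agent.SUBB.POL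
import Pool.Agent.SUBB.PSB
import Pool.Agent.SUBB.RBK
import Pool.Agent.SUBB.REN1
import Pool.Agent.SUBB.REN2
import Pool.Agent.SUBB.SBW
import Pool.Agent.SUBB.SML
import Pool.Agent.SUBB.THR
import Pool.Agent.SUBB.TRM
import Pool.Agent.SUBB.TS1
import Pool.Agent.SUBB.TS2
import Pool.Agent.SUBB.UNC
import Pool.Agent.SUBB.UNF
import Pool.Agent.SUBB.UNV

/-!
# Self-avoiding walks and polygons are sub-ballistic

Assembly of the modules.  The theorem is due to Duminil-Copin and Hammond (2013); the proof here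
is different (two frames, unfolding, cut times, one renewal inequality), see `PAPER.md`.
-/

set_option autoImplicit false

namespace Pool.Agent.SUBB

open Finset Filter Topology
open Pool.Agent.Lib27

theorem m_MAP : MAP_Stmt := t_MAP t_LNK

theorem m_MUL : MUL_Stmt := t_MUL t_UNF t_UNV t_UNC

theorem m_LRG : LRG_Stmt := t_LRG t_LNK m_MUL t_BDI t_BDC t_UNV

theorem m_SML : SML_Stmt := t_SML t_LNK m_MUL t_BDI t_BDC t_UNV

theorem m_NCT : NCT_Stmt := t_NCT m_MAP t_CSU t_COV t_ENT m_LRG m_SML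

theorem m_REN1 : REN1_Stmt := t_REN1 t_LNK

theorem m_BSY : BSY_Stmt := t_BSY m_MAP

theorem m_TS1 : TS1_Stmt := t_TS1 t_CSU

theorem m_PSB : PSB_Stmt := t_PSB t_CSU m_REN1

theorem m_RBK : RBK_Stmt := t_RBK m_MAP m_BSY

theorem m_BKU : BKU_Stmt := t_BKU m_TS1 m_REN1

theorem m_BLT : BLT_Stmt := t_BLT m_PSB m_RBK m_BKU t_LRB t_LIM t_TRM m_BSY

theorem m_GST : GST_Stmt := t_GST m_NCT (t_NCF t_CSU) m_BLT t_REN2 t_TS2

/-- Self-avoiding walks are sub-ballistic: for every `v > 0` the self-avoiding words of length `n`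
with `x + y ≥ v n` are exponentially rare. -/
theorem sbw : SBW_Stmt := t_SBW (t_THR m_GST)

/-- For every `v > 0` the self-avoiding polygons of perimeter `2n` with span at least `v n` are
exponentially rare. -/
theorem pol : POL_Stmt := t_POL sbw t_CSU m_MAP

end Pool.Agent.SUBB
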