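import Pool.Agent.SUBB.Stmts2
import Pool.Agent.Lib_helper27.Transl

/-!
# SUBB, module POL: polygons with large span are rare
-/

set_option autoImplicit false

namespace Pool.Agent.SUBB

open Finset Filter Topology
open Pool.Agent.Lib27

namespace POL

/-- the level of the end point -/
def lv (w : Wo) : ℤ := (ep 0 w).1 + (ep 0 w).2

lemma lv_append (u w : Wo) : lv (u ++ w) = lv u + lv w := by
  unfold lv
  rw [ep_append, ep_eq]
  simp only [Prod.fst_add, Prod.snd_add]
  ring

lemma lv_single (d : Fin 4) : lv [dgF.fU d] = - lv [d] := by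
  revert d
  decide

lemma lv_map (w : Wo) : lv (w.map dgF.fU) = - lv w := by
  induction w with
  | nil => simp [lv]
  | cons d w ih =>
    have h1 : lv ((d :: w).map dgF.fU) = lv [dgF.fU d] + lv (w.map dgF.fU) := by
      rw [← lv_append]
      rfl
    have h2 : lv (d :: w) = lv [d] + lv w := by
      rw [← lv_append]
      rfl
    rw [h1, h2, lv_single, ih]
    ring

open Classical in
/-- words with a large level of the end point -/
noncomputable def Pm (x : ℝ) (m : ℕ) : Finset Wo :=
  (Cs m).filter (fun w => x ≤ |(lv w : ℝ)|)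

open Classical in
lemma Pm_le (hM : MAP_Stmt) (x : ℝ) (m : ℕ) :
    (Pm x m).card ≤ 2 * ((Cs m).filter (fun w => x ≤ (lv w : ℝ))).card := by
  have h1 : Pm x m ⊆ ((Cs m).filter (fun w => x ≤ (lv w : ℝ))) ∪
      ((Cs m).filter (fun w => x ≤ (lv w : ℝ))).image (fun w => w.map dgF.fU) := by
    intro w hw
    rw [Pm, mem_filter] at hw
    rw [mem_union, mem_filter, mem_image]
    rcases le_abs.1 hw.2 with h | h
    · exact Or.inl ⟨hw.1, h⟩
    · refine Or.inr ⟨w.map dgF.fU, ?_, ?_⟩
      · rw [mem_filter]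
        refine ⟨((hM dgF m w).2.2).2 hw.1, ?_⟩
        rw [lv_map]
        push_cast
        exact h
      · rw [List.map_map]
        have : (dgF.fU ∘ dgF.fU) = id := by
          funext s
          exact dgF.fU_fU s
        rw [this, List.map_id]
  calc (Pm x m).card ≤ (((Cs m).filter (fun w => x ≤ (lv w : ℝ))) ∪
      ((Cs m).filter (fun w => x ≤ (lv w : ℝ))).image (fun w => w.map dgF.fU)).card :=
        card_le_card h1
    _ ≤ ((Cs m).filter (fun w => x ≤ (lv w : ℝ))).card +
        (((Cs m).filter (fun w => x ≤ (lv w : ℝ))).image (fun w => w.map dgF.fU)).card :=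
        card_union_le _ _
    _ ≤ ((Cs m).filter (fun w => x ≤ (lv w : ℝ))).card +
        ((Cs m).filter (fun w => x ≤ (lv w : ℝ))).card := by
        exact Nat.add_le_add_left card_image_le _
    _ = _ := by ring

lemma Pm_le_Cs (x : ℝ) (m : ℕ) : (Pm x m).card ≤ (Cs m).card := card_le_card (filter_subset _ _)

/-- a part of a closed self-avoiding word is a self-avoiding word -/
lemma arc_left {A b D : Wo} (h : SAPw (A ++ b ++ D)) (hne : D ++ A ≠ []) : SAWs b := by
  have h1 : SAPw (b ++ (D ++ A)) := by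
    have h2 : SAPw (A ++ (b ++ D)) := by rw [← List.append_assoc]; exact h
    have h3 := SAPw_rotate _ _ h2
    rwa [List.append_assoc] at h3
  obtain ⟨c, e, he⟩ : ∃ c e, D ++ A = c :: e := List.exists_cons_of_ne_nil hne
  rw [he] at h1
  have h4 := h1.2
  rw [vs_append, vs_cons] at h4
  have h5 : (vs 0 b ++ [ep 0 b]).Nodup := by
    have h6 : (vs 0 b ++ [ep 0 b]).Sublist (vs 0 b ++ ep 0 b :: vs (ep 0 b + dv c) e) := by
      refine List.Sublist.append (List.Sublist.refl _) ?_
      exact List.Sublist.cons_cons _ (List.nil_sublist _)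
    exact List.Nodup.sublist h6 h4
  exact h5

lemma arc_right {A b D : Wo} (h : SAPw (A ++ b ++ D)) (hne : b ≠ []) : SAWs (D ++ A) := by
  have h1 : SAPw (D ++ (A ++ b)) := SAPw_rotate _ _ h
  have h2 : SAPw ([] ++ (D ++ A) ++ b) := by
    rw [List.nil_append, List.append_assoc]
    exact h1
  refine arc_left h2 ?_
  rw [List.append_nil]
  exact hne

/-- gluing of the two arcs -/
def glue (a : ℕ) (p : Wo × Wo) : Wo :=
  p.2.drop (p.2.length - a) ++ p.1 ++ p.2.take (p.2.length - a)

lemma glue_eq (A b D : Wo) : glue A.length (b, D ++ A) = A ++ b ++ D := by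
  unfold glue
  simp only [List.length_append, Nat.add_sub_cancel]
  rw [List.drop_left, List.take_left]

open Classical in
/-- words of polygons with large span -/
lemma cover (n : ℕ) (hn : 1 ≤ n) (v : ℝ) (hv : 0 < v) :
    (((AreaLaw.SAP n).filter (fun s => v * n ≤ (AreaLaw.span n s : ℝ))).card : ℕ) ≤
      ∑ _a ∈ range (2 * n + 1), ∑ m ∈ range (2 * n + 1),
        (Pm (v * n) m).card * (Pm (v * n) (2 * n - m)).card := by
  have h1 : ((AreaLaw.SAP n).filter (fun s => v * n ≤ (AreaLaw.span n s : ℝ))).map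
      ⟨List.ofFn, List.ofFn_injective⟩ ⊆ (range (2 * n + 1)).biUnion (fun a =>
        (range (2 * n + 1)).biUnion (fun m =>
          (Pm (v * n) m ×ˢ Pm (v * n) (2 * n - m)).image (glue a))) := by
    intro l hl
    rw [Finset.mem_map] at hl
    obtain ⟨s, hs, rfl⟩ := hl
    rw [mem_filter] at hs
    obtain ⟨hs1, hs2⟩ := hs
    have hW := (mem_W n _).1 ((AreaLaw.SAP_iff n s).1 hs1)
    obtain ⟨hL, hS⟩ := hW
    simp only [Function.Embedding.coeFn_mk]
    obtain ⟨l, hl⟩ : ∃ l, l = List.ofFn s := ⟨_, rfl⟩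
    rw [← hl] at hL hS ⊢
    -- the two vertices
    have hne : (range (2 * n) ×ˢ range (2 * n)).Nonempty :=
      ⟨(0, 0), mem_product.2 ⟨mem_range.2 (by omega), mem_range.2 (by omega)⟩⟩
    obtain ⟨⟨i, j⟩, hij, hsup⟩ := Finset.exists_mem_eq_sup _ hne (fun k : ℕ × ℕ =>
      ((AreaLaw.pos n s k.1).1 + (AreaLaw.pos n s k.1).2 -
        ((AreaLaw.pos n s k.2).1 + (AreaLaw.pos n s k.2).2)).toNat)
    rw [mem_product, mem_range, mem_range] at hij
    have hpos : ∀ k, k < 2 * n → (AreaLaw.pos n s k).1 + (AreaLaw.pos n s k).2 =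
        lv (l.take k) := by
      intro k hk
      rw [AreaLaw.pos_eq n s k hk.le, hl]
      rfl
    have hsp : AreaLaw.span n s = (lv (l.take i) - lv (l.take j)).toNat := by
      unfold AreaLaw.span
      rw [hsup]
      simp only
      rw [hpos i hij.1, hpos j hij.2]
    have hvn : 0 < v * n := by
      have : (0 : ℝ) < n := by exact_mod_cast hn
      positivity
    have hpo : 0 < lv (l.take i) - lv (l.take j) := by
      by_contra hcon
      push Not at hcon
      rw [hsp, Int.toNat_of_nonpos hcon] at hs2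
      simp only [Nat.cast_zero] at hs2
      linarith
    have hH : v * n ≤ ((lv (l.take i) - lv (l.take j) : ℤ) : ℝ) := by
      have : ((AreaLaw.span n s : ℕ) : ℤ) = lv (l.take i) - lv (l.take j) := by
        rw [hsp, Int.toNat_of_nonneg hpo.le]
      rw [← this]
      exact_mod_cast hs2
    have hcl : lv l = 0 := by
      unfold lv
      rw [hS.1]
      rfl
    -- the splitting
    have key : ∀ i' j' : ℕ, i' < j' → j' < 2 * n →
        v * n ≤ |((lv (l.take j') - lv (l.take i') : ℤ) : ℝ)| →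
        l ∈ (range (2 * n + 1)).biUnion (fun a => (range (2 * n + 1)).biUnion (fun m =>
          (Pm (v * n) m ×ˢ Pm (v * n) (2 * n - m)).image (glue a))) := by
      intro i' j' h1 h2 h3
      obtain ⟨A, hA⟩ : ∃ A, A = l.take i' := ⟨_, rfl⟩
      obtain ⟨b, hb⟩ : ∃ b, b = (l.take j').drop i' := ⟨_, rfl⟩
      obtain ⟨D, hD⟩ : ∃ D, D = l.drop j' := ⟨_, rfl⟩
      have hAl : A.length = i' := by
        rw [hA, List.length_take]
        omega
      have hAb : A ++ b = l.take j' := by
        rw [hA, hb]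
        have : l.take i' = (l.take j').take i' := by
          rw [List.take_take, min_eq_left h1.le]
        rw [this, List.take_append_drop]
      have hbl : b.length = j' - i' := by
        rw [hb, List.length_drop, List.length_take]
        omega
      have hlA : A ++ b ++ D = l := by
        rw [hAb, hD, List.take_append_drop]
      have hDl : D.length = 2 * n - j' := by
        rw [hD, List.length_drop, hL]
      have hlv : lv b = lv (l.take j') - lv (l.take i') := by
        rw [← hAb, lv_append, hA]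
        ring
      have hlv2 : lv (D ++ A) = - lv b := by
        have h4 : lv (A ++ b ++ D) = 0 := by rw [hlA]; exact hcl
        rw [lv_append, lv_append] at h4
        rw [lv_append]
        linarith
      have hS' : SAPw (A ++ b ++ D) := by rw [hlA]; exact hS
      rw [mem_biUnion]
      refine ⟨i', mem_range.2 (by omega), ?_⟩
      rw [mem_biUnion]
      refine ⟨b.length, mem_range.2 (by omega), ?_⟩
      rw [mem_image]
      refine ⟨(b, D ++ A), ?_, ?_⟩
      · rw [mem_product]
        constructor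
        · rw [Pm, mem_filter, mem_Cs]
          refine ⟨⟨rfl, arc_left hS' ?_⟩, ?_⟩
          · intro h5
            have h6 := congrArg List.length h5
            rw [List.length_append, hDl, List.length_nil] at h6
            omega
          · rw [hlv]
            exact h3
        · rw [Pm, mem_filter, mem_Cs]
          refine ⟨⟨?_, arc_right hS' ?_⟩, ?_⟩
          · rw [List.length_append]
            show D.length + A.length = 2 * n - b.length
            omega
          · intro h5
            rw [h5, List.length_nil] at hbl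
            omega
          · rw [hlv2, hlv]
            push_cast at h3 ⊢
            rw [abs_neg]
            exact h3
      · rw [← hAl, glue_eq, hlA]
    rcases lt_trichotomy i j with h | h | h
    · refine key i j h hij.2 ?_
      rw [← abs_neg]
      refine le_trans hH (le_trans (le_of_eq ?_) (le_abs_self _))
      push_cast
      ring
    · exfalso
      rw [h] at hpo
      linarith
    · refine key j i h hij.1 ?_
      exact le_trans hH (le_abs_self _)
  calc _ = _ := (card_map _).symm
    _ ≤ _ := card_le_card h1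
    _ ≤ _ := card_biUnion_le
    _ ≤ _ := by
      refine sum_le_sum fun a _ => ?_
      refine card_biUnion_le.trans (sum_le_sum fun m _ => ?_)
      refine card_image_le.trans ?_
      rw [card_product]

/-- elementary asymptotics -/
lemma asym (K c C : ℝ) (hc : 0 < c) : ∀ᶠ n : ℕ in atTop,
    K * (2 * n + 1) ^ 2 * Real.exp (C * Real.sqrt n) ≤ Real.exp (c * n) := by
  have h1 := Real.tendsto_pow_mul_exp_neg_atTop_nhds_zero 2
  have h2 : Tendsto (fun n : ℕ => c / 2 * (n : ℝ)) atTop atTop :=
    tendsto_natCast_atTop_atTop.const_mul_atTop (by positivity)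
  have h3 := h1.comp h2
  have h4 : ∀ᶠ n : ℕ in atTop, (c / 2 * (n : ℝ)) ^ 2 * Real.exp (-(c / 2 * (n : ℝ))) <
      (c / 2) ^ 2 / (9 * (|K| + 1)) := by
    refine (tendsto_order.1 h3).2 _ ?_
    positivity
  have h5 : ∀ᶠ n : ℕ in atTop, C / (c / 2) ≤ Real.sqrt n := by
    have : Tendsto (fun n : ℕ => Real.sqrt n) atTop atTop :=
      Real.tendsto_sqrt_atTop.comp tendsto_natCast_atTop_atTop
    exact this.eventually_ge_atTop _
  filter_upwards [h4, h5, eventually_ge_atTop 1] with n h6 h7 h8
  have hn : (1 : ℝ) ≤ n := by exact_mod_cast h8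
  have hK : K ≤ |K| := le_abs_self K
  have hK0 : 0 ≤ |K| := abs_nonneg K
  have e1 : Real.exp (C * Real.sqrt n) ≤ Real.exp (c / 2 * n) := by
    apply Real.exp_le_exp.2
    have hs : Real.sqrt n * Real.sqrt n = n := Real.mul_self_sqrt (by linarith)
    rw [div_le_iff₀ (by positivity)] at h7
    calc C * Real.sqrt n ≤ (Real.sqrt n * (c / 2)) * Real.sqrt n := by
          exact mul_le_mul_of_nonneg_right h7 (Real.sqrt_nonneg _)
      _ = c / 2 * (Real.sqrt n * Real.sqrt n) := by ring
      _ = _ := by rw [hs]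
  have e2 : K * (2 * (n : ℝ) + 1) ^ 2 ≤ Real.exp (c / 2 * n) := by
    have h9 : 0 < Real.exp (-(c / 2 * (n : ℝ))) := Real.exp_pos _
    have h10 : Real.exp (-(c / 2 * (n : ℝ))) * Real.exp (c / 2 * n) = 1 := by
      rw [← Real.exp_add]
      simp
    have h11 : (c / 2) ^ 2 * (n : ℝ) ^ 2 * (9 * (|K| + 1)) ≤
        (c / 2) ^ 2 * Real.exp (c / 2 * n) := by
      rw [lt_div_iff₀ (by positivity)] at h6
      have h12 := mul_le_mul_of_nonneg_right h6.le (Real.exp_pos (c / 2 * n)).le
      calc (c / 2) ^ 2 * (n : ℝ) ^ 2 * (9 * (|K| + 1))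
          = (c / 2) ^ 2 * (n : ℝ) ^ 2 * (9 * (|K| + 1)) *
            (Real.exp (-(c / 2 * (n : ℝ))) * Real.exp (c / 2 * n)) := by rw [h10, mul_one]
        _ = (c / 2 * (n : ℝ)) ^ 2 * Real.exp (-(c / 2 * (n : ℝ))) * (9 * (|K| + 1)) *
            Real.exp (c / 2 * n) := by ring
        _ ≤ _ := h12
    have h13 : (n : ℝ) ^ 2 * (9 * (|K| + 1)) ≤ Real.exp (c / 2 * n) := by
      have h14 : (0 : ℝ) < (c / 2) ^ 2 := by positivity
      have h15 : (c / 2) ^ 2 * ((n : ℝ) ^ 2 * (9 * (|K| + 1))) ≤
          (c / 2) ^ 2 * Real.exp (c / 2 * n) := by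
        rw [← mul_assoc]
        exact h11
      exact le_of_mul_le_mul_left h15 h14
    refine le_trans ?_ h13
    have h16 : (2 * (n : ℝ) + 1) ^ 2 ≤ 9 * (n : ℝ) ^ 2 := by nlinarith
    calc K * (2 * (n : ℝ) + 1) ^ 2 ≤ (|K| + 1) * (2 * (n : ℝ) + 1) ^ 2 := by
          exact mul_le_mul_of_nonneg_right (by linarith) (by positivity)
      _ ≤ (|K| + 1) * (9 * (n : ℝ) ^ 2) := by
          exact mul_le_mul_of_nonneg_left h16 (by positivity)
      _ = _ := by ring
  calc K * (2 * (n : ℝ) + 1) ^ 2 * Real.exp (C * Real.sqrt n)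
      ≤ Real.exp (c / 2 * n) * Real.exp (c / 2 * n) :=
        mul_le_mul e2 e1 (Real.exp_pos _).le (Real.exp_pos _).le
    _ = _ := by
      rw [← Real.exp_add]
      congr 1
      ring

open Classical in
/-- the product of the numbers of the two arcs -/
lemma two_arcs (hM : MAP_Stmt) (v c C C' ε : ℝ) (hv : 0 < v) (hc : 0 < c) (hε : 0 < ε)
    (hC' : 0 < C')
    (hT : ∀ n : ℕ, (((Cs n).filter (fun w => v / 2 * (w.length : ℝ) ≤ (lv w : ℝ))).card : ℝ) ≤
      C * Real.exp ((Lm - c) * n))
    (hU : ∀ n : ℕ, ((Cs n).card : ℝ) ≤ C' * Real.exp ((Lm + ε) * n)) (n m : ℕ)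
    (hm : m ≤ 2 * n) (hmn : n ≤ m) :
    ((Pm (v * n) m).card : ℝ) * (Pm (v * n) (2 * n - m)).card ≤
      2 * C * C' * Real.exp (2 * n * Lm - c * n + ε * n) := by
  have h1 : ((Pm (v * n) m).card : ℝ) ≤ 2 * (C * Real.exp ((Lm - c) * m)) := by
    have h2 : ((Pm (v * n) m).card : ℝ) ≤
        2 * (((Cs m).filter (fun w => v * n ≤ (lv w : ℝ))).card : ℝ) := by
      exact_mod_cast Pm_le hM (v * n) m
    refine h2.trans (mul_le_mul_of_nonneg_left ?_ (by norm_num))
    refine le_trans ?_ (hT m)
    norm_cast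
    refine card_le_card ?_
    intro w hw
    rw [mem_filter] at hw ⊢
    refine ⟨hw.1, le_trans ?_ hw.2⟩
    rw [((mem_Cs m w).1 hw.1).1]
    have h3 : (m : ℝ) ≤ 2 * n := by exact_mod_cast hm
    nlinarith
  have hC : 0 ≤ C := by
    have h2 := hT 0
    have h3 : (0 : ℝ) ≤ (((Cs 0).filter (fun w => v / 2 * (w.length : ℝ) ≤ (lv w : ℝ))).card : ℝ) :=
      Nat.cast_nonneg _
    simpa using h3.trans h2
  have h4 : ((Pm (v * n) (2 * n - m)).card : ℝ) ≤
      C' * Real.exp ((Lm + ε) * ((2 * n - m : ℕ) : ℝ)) := by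
    refine le_trans ?_ (hU _)
    exact_mod_cast Pm_le_Cs _ _
  refine (mul_le_mul h1 h4 (Nat.cast_nonneg _) (by positivity)).trans ?_
  have h5 : 2 * (C * Real.exp ((Lm - c) * m)) * (C' * Real.exp ((Lm + ε) * ((2 * n - m : ℕ) : ℝ))) =
      2 * C * C' * Real.exp ((Lm - c) * m + (Lm + ε) * ((2 * n - m : ℕ) : ℝ)) := by
    rw [Real.exp_add]
    ring
  rw [h5]
  refine mul_le_mul_of_nonneg_left (Real.exp_le_exp.2 ?_) (by positivity)
  have h6 : ((2 * n - m : ℕ) : ℝ) = 2 * n - m := by
    rw [Nat.cast_sub hm]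
    push_cast
    ring
  rw [h6]
  have h7 : (n : ℝ) ≤ m := by exact_mod_cast hmn
  nlinarith

end POL

open POL in
/-- polygons with large span are rare -/
theorem t_POL (hS : SBW_Stmt) (hU : CSU_Stmt) (hM : MAP_Stmt) : POL_Stmt := by
  classical
  intro v hv
  obtain ⟨c, hc, C, hT⟩ := hS (v / 2) (by positivity)
  obtain ⟨C', hC', hU⟩ := hU (c / 4) (by positivity)
  obtain ⟨C₂, hC₂, hW⟩ := W_rate_lower
  have hT' : ∀ n : ℕ, (((Cs n).filter (fun w => v / 2 * (w.length : ℝ) ≤ (lv w : ℝ))).card : ℝ) ≤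
      C * Real.exp ((Lm - c) * n) := fun n => by
    convert hT n using 4
    exact Iff.rfl
  refine ⟨c / 4, by positivity, ?_⟩
  filter_upwards [asym (2 * C * C') (c / 2) C₂ (by positivity), eventually_ge_atTop 1] with n h1 hn
  have hn' : (1 : ℝ) ≤ n := by exact_mod_cast hn
  have h2 := cover n hn v hv
  have h3 : ∀ m ∈ range (2 * n + 1),
      ((Pm (v * n) m).card : ℝ) * (Pm (v * n) (2 * n - m)).card ≤
      2 * C * C' * Real.exp (2 * n * Lm - c * n + c / 4 * n) := by
    intro m hm
    rw [mem_range] at hm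
    rcases le_total n m with h | h
    · exact two_arcs hM v c C C' (c / 4) hv hc (by positivity) hC' hT' hU n m (by omega) h
    · rw [mul_comm]
      have h4 := two_arcs hM v c C C' (c / 4) hv hc (by positivity) hC' hT' hU n (2 * n - m)
        (by omega) (by omega)
      have h5 : 2 * n - (2 * n - m) = m := by omega
      rwa [h5] at h4
  have h6 : (((AreaLaw.SAP n).filter (fun s => v * n ≤ (AreaLaw.span n s : ℝ))).card : ℝ) ≤
      ∑ _a ∈ range (2 * n + 1), ∑ m ∈ range (2 * n + 1),
        2 * C * C' * Real.exp (2 * n * Lm - c * n + c / 4 * n) := by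
    calc (((AreaLaw.SAP n).filter (fun s => v * n ≤ (AreaLaw.span n s : ℝ))).card : ℝ)
        ≤ ((∑ _a ∈ range (2 * n + 1), ∑ m ∈ range (2 * n + 1),
          (Pm (v * n) m).card * (Pm (v * n) (2 * n - m)).card : ℕ) : ℝ) := by exact_mod_cast h2
      _ = ∑ _a ∈ range (2 * n + 1), ∑ m ∈ range (2 * n + 1),
          ((Pm (v * n) m).card : ℝ) * (Pm (v * n) (2 * n - m)).card := by
          push_cast
          rfl
      _ ≤ _ := sum_le_sum fun a _ => sum_le_sum fun m hm => h3 m hm
  have h7 : ∑ _a ∈ range (2 * n + 1), ∑ m ∈ range (2 * n + 1),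
        2 * C * C' * Real.exp (2 * n * Lm - c * n + c / 4 * n) =
      (2 * C * C') * (2 * n + 1) ^ 2 * Real.exp (2 * n * Lm - c * n + c / 4 * n) := by
    simp only [sum_const, card_range, nsmul_eq_mul]
    push_cast
    ring
  rw [h7] at h6
  have h8 : Real.exp (n * Lc - C₂ * Real.sqrt n) ≤ ((AreaLaw.SAP n).card : ℝ) := by
    rw [AreaLaw.card_SAP]
    have h9 : (0 : ℝ) < (W n).card := by
      have := W_pos n hn
      exact_mod_cast this
    rw [← Real.exp_log h9]
    exact Real.exp_le_exp.2 (hW n hn)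
  refine h6.trans ?_
  have h10 : Real.exp (-(c / 4 * n)) * Real.exp (n * Lc - C₂ * Real.sqrt n) ≤
      Real.exp (-(c / 4 * n)) * ((AreaLaw.SAP n).card : ℝ) :=
    mul_le_mul_of_nonneg_left h8 (Real.exp_pos _).le
  refine le_trans ?_ h10
  rw [Lc_eq]
  have h11 : Real.exp (2 * n * Lm - c * n + c / 4 * n) =
      Real.exp (C₂ * Real.sqrt n) * Real.exp (2 * n * Lm - c * n + c / 4 * n -
        C₂ * Real.sqrt n) := by
    rw [← Real.exp_add]
    congr 1
    ring
  rw [h11, ← mul_assoc]
  refine (mul_le_mul_of_nonneg_right h1 (Real.exp_pos _).le).trans ?_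
  rw [← Real.exp_add, ← Real.exp_add]
  apply Real.exp_le_exp.2
  nlinarith

end Pool.Agent.SUBB
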