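import Pool.Agent.SUBB.Stmts

/-!
# Module SUBB_BDC (helper28): the boundary of the set of covered times
-/

set_option autoImplicit false

namespace Pool.Agent.SUBB

open Finset

theorem t_BDC : BDC_Stmt := by
  intro N S _ i hi
  rw [bd, mem_filter] at hi
  obtain ⟨-, h⟩ := hi
  rw [mem_union, mem_image, mem_image]
  by_cases hA : i ∈ cov S
  · left
    obtain ⟨q, hq, hiq⟩ := mem_biUnion.mp hA
    rw [mem_Ico] at hiq
    refine ⟨q, hq, ?_⟩
    by_contra hne
    apply h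
    refine ⟨fun _ => ⟨by omega, ?_⟩, fun _ => hA⟩
    exact mem_biUnion.mpr ⟨q, hq, mem_Ico.mpr ⟨by omega, by omega⟩⟩
  · right
    have h2 : 0 < i ∧ i - 1 ∈ cov S := by
      by_contra h3
      exact h ⟨fun h4 => absurd h4 hA, fun h4 => absurd h4 h3⟩
    obtain ⟨h0, h1⟩ := h2
    obtain ⟨q, hq, hiq⟩ := mem_biUnion.mp h1
    rw [mem_Ico] at hiq
    refine ⟨q, hq, ?_⟩
    by_contra hne
    apply hA
    exact mem_biUnion.mpr ⟨q, hq, mem_Ico.mpr ⟨by omega, by omega⟩⟩

end Pool.Agent.SUBB
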