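import Pool.Agent.Lib_helper27.Growth

/-!
# Self-avoiding walks are sub-ballistic: definitions

Words in the four unit steps, seen in a frame, i.e. in two integer coordinates `u`, `t` for which
the lattice symmetries `u ↦ -u`, `t ↦ -t`, `u ↔ t` are available.  There are two frames: the axis
frame `(x, y)` and the diagonal frame `(x + y, x - y)`.
-/

set_option autoImplicit false

namespace Pool.Agent.SUBB

open Finset Filter Topology
open Pool.Agent.Lib27

/-- words -/
abbrev Wo : Type := List (Fin 4)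

/-- a frame -/
structure Frame where
  U : Fin 4 → ℤ
  T : Fin 4 → ℤ
  fU : Fin 4 → Fin 4
  fT : Fin 4 → Fin 4
  sw : Fin 4 → Fin 4
  fU_fU : ∀ s, fU (fU s) = s
  fT_fT : ∀ s, fT (fT s) = s
  sw_sw : ∀ s, sw (sw s) = s
  U_fU : ∀ s, U (fU s) = -U s
  T_fU : ∀ s, T (fU s) = T s
  U_fT : ∀ s, U (fT s) = U s
  T_fT : ∀ s, T (fT s) = -T s
  U_sw : ∀ s, U (sw s) = T s
  T_sw : ∀ s, T (sw s) = U s
  absU : ∀ s, |U s| ≤ 1
  absT : ∀ s, |T s| ≤ 1
  a : ℤ
  b : ℤ
  c : ℤ
  d : ℤ
  det : a * d - b * c ≠ 0
  U_eq : ∀ s, U s = a * (dv s).1 + b * (dv s).2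
  T_eq : ∀ s, T s = c * (dv s).1 + d * (dv s).2

/-- the frame `(x, y)` -/
def axF : Frame where
  U := ![1, 0, -1, 0]
  T := ![0, 1, 0, -1]
  fU := ![2, 1, 0, 3]
  fT := ![0, 3, 2, 1]
  sw := ![1, 0, 3, 2]
  fU_fU := by decide
  fT_fT := by decide
  sw_sw := by decide
  U_fU := by decide
  T_fU := by decide
  U_fT := by decide
  T_fT := by decide
  U_sw := by decide
  T_sw := by decide
  absU := by decide
  absT := by decide
  a := 1
  b := 0
  c := 0
  d := 1
  det := by decide
  U_eq := by decide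
  T_eq := by decide

/-- the frame `(x + y, x - y)` -/
def dgF : Frame where
  U := ![1, 1, -1, -1]
  T := ![1, -1, -1, 1]
  fU := ![3, 2, 1, 0]
  fT := ![1, 0, 3, 2]
  sw := ![0, 3, 2, 1]
  fU_fU := by decide
  fT_fT := by decide
  sw_sw := by decide
  U_fU := by decide
  T_fU := by decide
  U_fT := by decide
  T_fT := by decide
  U_sw := by decide
  T_sw := by decide
  absU := by decide
  absT := by decide
  a := 1
  b := 1
  c := 1
  d := -1
  det := by decide
  U_eq := by decide
  T_eq := by decide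

/-- total `u`-displacement -/
def su (F : Frame) (w : Wo) : ℤ := (w.map F.U).sum

/-- total `t`-displacement -/
def st (F : Frame) (w : Wo) : ℤ := (w.map F.T).sum

/-- `u`-coordinate at time `i` -/
def pu (F : Frame) (w : Wo) (i : ℕ) : ℤ := su F (w.take i)

/-- `t`-coordinate at time `i` -/
def pt (F : Frame) (w : Wo) (i : ℕ) : ℤ := st F (w.take i)

/-- self-avoidance in the frame -/
def SA (F : Frame) (w : Wo) : Prop :=
  ∀ i j : ℕ, i < j → j ≤ w.length → ¬ (pu F w i = pu F w j ∧ pt F w i = pt F w j)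

open Classical in
/-- cut times: the step after time `i` is the only one which crosses the level between
`pu i` and `pu i + 1` -/
noncomputable def Cut (F : Frame) (w : Wo) : Finset ℕ :=
  (range w.length).filter (fun i => (∀ a ≤ i, pu F w a ≤ pu F w i) ∧
    ∀ a, i < a → a ≤ w.length → pu F w i < pu F w a)

/-- `q = (j, k)`: time `j` is the last time up to `k` at which the maximum of `u` over `[0, k]` is
attained, `k` is the first time from `j` on at which the minimum of `u` over `[j, n]` is attained -/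
def VP (F : Frame) (w : Wo) (q : ℕ × ℕ) : Prop :=
  q.1 < q.2 ∧ q.2 ≤ w.length ∧ (∀ a ≤ q.1, pu F w a ≤ pu F w q.1) ∧
    (∀ a, q.1 < a → a ≤ q.2 → pu F w a < pu F w q.1) ∧
    (∀ a, q.1 ≤ a → a < q.2 → pu F w q.2 < pu F w a) ∧
    (∀ a, q.2 ≤ a → a ≤ w.length → pu F w q.2 ≤ pu F w a)

open Classical in
/-- the backtracks of the word -/
noncomputable def V (F : Frame) (w : Wo) : Finset (ℕ × ℕ) :=
  ((range (w.length + 1)) ×ˢ (range (w.length + 1))).filter (VP F w)

/-- the size of a backtrack -/
def sz (F : Frame) (w : Wo) (q : ℕ × ℕ) : ℕ := (pu F w q.1 - pu F w q.2).toNat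

/-- reflection of the steps at the times in `A` -/
def flp (F : Frame) (A : Finset ℕ) (w : Wo) : Wo :=
  w.mapIdx fun i s => if i ∈ A then F.fU s else s

/-- the times covered by a set of pairs -/
def cov (S : Finset (ℕ × ℕ)) : Finset ℕ := S.biUnion fun q => Ico q.1 q.2

/-- boundary of a set of times -/
def bd (A : Finset ℕ) (N : ℕ) : Finset ℕ :=
  (range (N + 1)).filter (fun i => ¬ (i ∈ A ↔ (0 < i ∧ i - 1 ∈ A)))

/-- number of subsets of size at most `m` of a set with `N` elements -/
def NB (N m : ℕ) : ℕ := ((range N).powerset.filter (fun A => A.card ≤ m)).card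

/-- blocks: words with a single cut time, which is `0`, and maximum of `u` at the end -/
def Blk (F : Frame) (w : Wo) : Prop :=
  Cut F w = {0} ∧ ∀ i ≤ w.length, pu F w i ≤ su F w

open Classical in
/-- weighted number of self-avoiding words of length at most `N` with the property `P` -/
noncomputable def Gs (P : Wo → Prop) (ω : Wo → ℝ) (N : ℕ) : ℝ :=
  ∑ n ∈ range (N + 1), ∑ w ∈ (Cs n).filter P, ω w

/-- multiplicative weights -/
noncomputable def om (F : Frame) (s a b : ℝ) (w : Wo) : ℝ :=
  Real.exp (-(s * w.length) + a * su F w + b * st F w)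

open Classical in
/-- properties which are exponentially rare among self-avoiding words -/
def Thin (P : Wo → Prop) : Prop :=
  ∃ c : ℝ, 0 < c ∧ ∃ C : ℝ, ∀ n : ℕ,
    (((Cs n).filter P).card : ℝ) ≤ C * Real.exp ((Lm - c) * n)

end Pool.Agent.SUBB
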